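import Pool.Agent.W535.TB.Traj

set_option autoImplicit false

namespace Pool.Agent.W535.TB

open scoped BigOperators
open Set ComplexConjugate

variable {P : Fin 4 → ℂ} {c : ℂ} {r θ : ℝ} {a : Fin 4 → ℝ}

namespace Traj

variable (τ : Traj P)

/-- the trajectory as a subset of the plane -/
def G : Set ℂ := ⋃ i : ℕ, segment ℝ (τ.p i) (τ.p (i + 1))

theorem seg_cases (i : ℕ) (q : ℂ) (hq : q ∈ segment ℝ (τ.p i) (τ.p (i + 1))) :
    q = τ.p i ∨ q = τ.p (i + 1) ∨ q ∈ openSegment ℝ (τ.p i) (τ.p (i + 1)) := by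
  rw [← insert_endpoints_openSegment] at hq
  simpa [Set.mem_insert_iff] using hq

/-- edges with endpoints of the same colour are not met by the trajectory -/
theorem edge_disjoint (h : Ccw P) (n : ℕ) (hn : 0 < n) (hper : ∀ i, τ.p (i + n) = τ.p i)
    (col : ℤ × ℤ → Prop)
    (hcol : ∀ i, ¬ (col (cor (τ.S i) (τ.l i + 1)) ↔ col (cor (τ.S i) (τ.l i))))
    (w : ℤ × ℤ) (k : Fin 4) (hw : col (nb k w) ↔ col w) (q : ℂ)
    (hq : q ∈ segment ℝ (Vx P w) (Vx P (nb k w))) : q ∉ τ.G := by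
  intro hG
  obtain ⟨i, hi⟩ := Set.mem_iUnion.mp hG
  -- crossing points
  have hcross : ∀ j, q ≠ τ.p (j + 1) := by
    rintro j rfl
    obtain ⟨T'', h1, h2⟩ := edge_tile (ee (τ.S j)) (ee_cases _) w k
    have hseg : τ.p (j + 1) ∈ segment ℝ (Vx P (cor T'' k)) (Vx P (cor T'' (k + 1))) := by
      rcases h2 with ⟨e1, e2⟩ | ⟨e1, e2⟩
      · rw [e1, e2]; exact hq
      · rw [e1, e2, segment_symm]; exact hq
    have hmem : τ.p (j + 1) ∈ tile P T'' :=
      (tile_convex T'').segment_subset (cor_mem_tile T'' k) (cor_mem_tile T'' (k + 1)) hseg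
    have hTS : τ.S j = T'' := open_edge_tile h _ _ h1.symm _ _ (τ.hS j) hmem
    subst hTS
    have hkl : k = τ.l j := by
      apply edges_eq h k (τ.l j) (loc P (τ.S j) (τ.p (j + 1)))
      · obtain ⟨s, t, hs, ht, hst, e⟩ := τ.hS j
        rw [← e]
        exact ⟨s, t, hs, ht, hst, by rw [loc_comb _ _ _ _ _ hst, loc_cor, loc_cor]⟩
      · obtain ⟨s, t, hs, ht, hst, e⟩ := hseg
        rw [← e]
        exact ⟨s, t, hs, ht, hst, by rw [loc_comb _ _ _ _ _ hst, loc_cor, loc_cor]⟩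
    subst hkl
    apply hcol j
    rcases h2 with ⟨e1, e2⟩ | ⟨e1, e2⟩
    · rw [e1, e2]; exact hw
    · rw [e1, e2]; exact hw.symm
  rcases τ.seg_cases i q hi with h0 | h0 | h0
  · rcases Nat.eq_zero_or_pos i with rfl | hi0
    · have : τ.p 0 = τ.p (n - 1 + 1) := by
        have := hper 0
        rw [zero_add] at this
        rw [Nat.sub_add_cancel hn, this]
      exact hcross (n - 1) (h0.trans this)
    · have : i - 1 + 1 = i := Nat.sub_add_cancel hi0
      exact hcross (i - 1) (by rw [this]; exact h0)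
  · exact hcross i h0
  · obtain ⟨T'', h1, h2⟩ := edge_tile (ee (τ.T i)) (ee_cases _) w k
    have hseg : q ∈ segment ℝ (Vx P (cor T'' k)) (Vx P (cor T'' (k + 1))) := by
      rcases h2 with ⟨e1, e2⟩ | ⟨e1, e2⟩
      · rw [e1, e2]; exact hq
      · rw [e1, e2, segment_symm]; exact hq
    exact interior_not_edge h _ _ h1 _ _ hseg (τ.hT i h0)

end Traj

theorem no_contour (h : Ccw P) (hr : 0 < r) (ha : ∀ k, 0 < a k) (hs : a 0 + a 1 + a 2 + a 3 = 1)
    (hP : ∀ k, P k = c + r * U (θ + ss a k)) (τ : Traj P) (n : ℕ) (hn : 0 < n)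
    (hper : ∀ i, τ.p (i + n) = τ.p i) (T0 : ℤ × ℤ) :
    ¬ (tile P T0 ⊆ {z : ℂ | z ∉ τ.G ∧ Bornology.IsBounded (connectedComponentIn (τ.G)ᶜ z)}) := by
  intro hT0
  -- the arcs cut by the folded line
  obtain ⟨α, κ, hκ0, hκ1, harc⟩ : ∃ α κ : ℝ, 0 < κ ∧ κ < 1 ∧ ∀ x : ℝ,
      (0 < τ.H c r θ a (U x) → Int.fract (x - α) < κ) ∧
      (τ.H c r θ a (U x) < 0 → ¬ Int.fract (x - α) < κ) := by
    rcases τ.cross_sign h hr hs hP 0 with ⟨h1, h2⟩ | ⟨h1, h2⟩
    · exact exists_arc _ _ ⟨_, h1⟩ ⟨_, h2⟩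
    · exact exists_arc _ _ ⟨_, h2⟩ ⟨_, h1⟩
  set col : ℤ × ℤ → Prop := blk a (α - θ) κ with hcoldef
  have hcolx : ∀ w, col w ↔ Int.fract ((θ + th a w) - α) < κ := by
    intro w
    have : th a w - (α - θ) = (θ + th a w) - α := by ring
    show Int.fract (th a w - (α - θ)) < κ ↔ _
    rw [this]
  have hcol : ∀ i, ¬ (col (cor (τ.S i) (τ.l i + 1)) ↔ col (cor (τ.S i) (τ.l i))) := by
    intro i
    rw [hcolx, hcolx]
    rcases τ.cross_sign h hr hs hP i with ⟨h1, h2⟩ | ⟨h1, h2⟩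
    · have e1 := (harc _).1 h1
      have e2 := (harc _).2 h2
      intro hh; exact e2 (hh.mpr e1)
    · have e1 := (harc _).2 h1
      have e2 := (harc _).1 h2
      intro hh; exact e1 (hh.mp e2)
  -- clusters of corners of `T0` are finite
  have hfin : ∀ k, (Cl col (cor T0 k)).Finite := by
    intro k
    obtain ⟨hv1, hv2⟩ := hT0 (cor_mem_tile T0 k)
    apply finite_bounded h
    refine hv2.subset ?_
    rintro _ ⟨w, hw, rfl⟩
    induction hw with
    | refl => exact mem_connectedComponentIn hv1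
    | @tail b b' _ h2 ih =>
      obtain ⟨⟨m, rfl⟩, hc⟩ := h2
      have hsub : segment ℝ (Vx P b) (Vx P (nb m b)) ⊆ (τ.G)ᶜ := fun q hq =>
        τ.edge_disjoint h n hn hper col hcol b m hc q hq
      have h3 := (convex_segment (𝕜 := ℝ) (Vx P b) (Vx P (nb m b))).isPreconnected
      have h4 := h3.subset_connectedComponentIn (left_mem_segment ℝ _ _) hsub
      have h5 := connectedComponentIn_eq ih
      rw [h5]
      exact h4 (right_mem_segment ℝ _ _)
  -- the four corners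
  have hc : ∀ w, (w = (T0.1, T0.2) ∨ w = (T0.1 + 1, T0.2) ∨ w = (T0.1 + 1, T0.2 + 1) ∨
      w = (T0.1, T0.2 + 1)) → ∃ k, cor T0 k = w := by
    intro w hw
    rcases ee_cases T0 with h0 | h0
    · rcases hw with rfl | rfl | rfl | rfl
      · exact ⟨0, by simp [cor, h0]⟩
      · exact ⟨1, by simp [cor, h0]⟩
      · exact ⟨2, by simp [cor, h0]⟩
      · exact ⟨3, by simp [cor, h0]⟩
    · rcases hw with rfl | rfl | rfl | rfl
      · exact ⟨2, by simp [cor, h0]⟩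
      · exact ⟨3, by simp [cor, h0]⟩
      · exact ⟨0, by simp [cor, h0]⟩
      · exact ⟨1, by simp [cor, h0]⟩
  obtain ⟨k1, e1⟩ := hc _ (Or.inl rfl)
  obtain ⟨k2, e2⟩ := hc _ (Or.inr (Or.inl rfl))
  obtain ⟨k3, e3⟩ := hc _ (Or.inr (Or.inr (Or.inl rfl)))
  obtain ⟨k4, e4⟩ := hc _ (Or.inr (Or.inr (Or.inr rfl)))
  refine comb_main (a := a) (α := α - θ) (κ := κ) hs ha hκ0 hκ1 T0.1 T0.2 ?_ ?_ ?_ ?_
  · rw [← e1]; exact hfin k1
  · rw [← e2]; exact hfin k2
  · rw [← e3]; exact hfin k3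
  · rw [← e4]; exact hfin k4

end Pool.Agent.W535.TB
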