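import Pool.Agent.W535.TB.Fold

set_option autoImplicit false

namespace Pool.Agent.W535.TB

open scoped BigOperators
open Set ComplexConjugate

/-- a chord splits the circle into two arcs -/
theorem exists_arc (N f0 : ℂ) (hpos : ∃ x : ℝ, 0 < (conj N * (U x - f0)).im)
    (hneg : ∃ x : ℝ, (conj N * (U x - f0)).im < 0) :
    ∃ α κ : ℝ, 0 < κ ∧ κ < 1 ∧ ∀ x : ℝ, (0 < (conj N * (U x - f0)).im → Int.fract (x - α) < κ) ∧
      ((conj N * (U x - f0)).im < 0 → ¬ Int.fract (x - α) < κ) := by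
  obtain ⟨ν, hν⟩ := exists_U N
  set K0 : ℝ := (conj N * f0).im with hK0
  have hH : ∀ x : ℝ, (conj N * (U x - f0)).im = ‖N‖ * Real.sin (2 * Real.pi * (x - ν)) - K0 := by
    intro x
    have e : conj N * (U x - f0) = (‖N‖ : ℂ) * U (x - ν) - conj N * f0 := by
      have : conj N * U x = (‖N‖ : ℂ) * U (x - ν) := by
        conv_lhs => rw [hν]
        rw [map_mul, Complex.conj_ofReal, U_conj, mul_assoc, ← U_add]
        congr 2; ring
      rw [mul_sub, this]
    rw [e, Complex.sub_im, Complex.im_ofReal_mul, U_im]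
  have hN : 0 < ‖N‖ := by
    rcases eq_or_ne N 0 with h | h
    · obtain ⟨x, hx⟩ := hpos
      rw [h] at hx; simp at hx
    · exact norm_pos_iff.mpr h
  obtain ⟨x1, hx1⟩ := hpos
  obtain ⟨x2, hx2⟩ := hneg
  rw [hH] at hx1 hx2
  have b1 : K0 / ‖N‖ < 1 := by
    rw [div_lt_one hN]
    nlinarith [Real.sin_le_one (2 * Real.pi * (x1 - ν))]
  have b2 : -1 < K0 / ‖N‖ := by
    rw [lt_div_iff₀ hN]
    nlinarith [Real.neg_one_le_sin (2 * Real.pi * (x2 - ν))]
  set s := Real.arcsin (K0 / ‖N‖) with hs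
  have s1 : s < Real.pi / 2 := Real.arcsin_lt_pi_div_two.mpr b1
  have s2 : -(Real.pi / 2) < s := Real.neg_pi_div_two_lt_arcsin.mpr b2
  have hsin : Real.sin s = K0 / ‖N‖ := Real.sin_arcsin b2.le b1.le
  have hpi := Real.pi_pos
  refine ⟨ν + s / (2 * Real.pi), 1 / 2 - s / Real.pi, ?_, ?_, fun x => ?_⟩
  · have : s / Real.pi < 1 / 2 := by rw [div_lt_iff₀ hpi]; linarith
    linarith
  · have : -(1 / 2) < s / Real.pi := by rw [lt_div_iff₀ hpi]; linarith
    linarith
  · set t := Int.fract (x - (ν + s / (2 * Real.pi))) with ht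
    have t0 : 0 ≤ t := Int.fract_nonneg _
    have t1 : t < 1 := Int.fract_lt_one _
    have hU : U x = U (ν + s / (2 * Real.pi) + t) := by
      have : x = ν + s / (2 * Real.pi) + t + (⌊x - (ν + s / (2 * Real.pi))⌋ : ℤ) := by
        rw [ht]
        have := Int.floor_add_fract (x - (ν + s / (2 * Real.pi)))
        linarith
      conv_lhs => rw [this]
      rw [U_add_int]
    have hval : (conj N * (U x - f0)).im =
        2 * ‖N‖ * Real.sin (Real.pi * t) * Real.cos (Real.pi * t + s) := by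
      rw [hU, hH]
      have e1 : 2 * Real.pi * (ν + s / (2 * Real.pi) + t - ν) = 2 * (Real.pi * t) + s := by
        field_simp; ring
      have e2 : K0 = ‖N‖ * Real.sin s := by rw [hsin]; field_simp
      rw [e1, e2, Real.sin_add, Real.cos_add, Real.sin_two_mul, Real.cos_two_mul]
      linear_combination (2 * ‖N‖ * Real.sin s) * Real.sin_sq_add_cos_sq (Real.pi * t)
    have hsn : 0 ≤ Real.sin (Real.pi * t) :=
      Real.sin_nonneg_of_nonneg_of_le_pi (by positivity) (by nlinarith)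
    constructor
    · intro h
      rw [hval] at h
      by_contra hcon
      push Not at hcon
      have h1 : Real.pi / 2 ≤ Real.pi * t + s := by
        have : Real.pi * (1 / 2 - s / Real.pi) ≤ Real.pi * t := by nlinarith
        have e : Real.pi * (1 / 2 - s / Real.pi) = Real.pi / 2 - s := by field_simp
        linarith
      have h2 : Real.cos (Real.pi * t + s) ≤ 0 :=
        Real.cos_nonpos_of_pi_div_two_le_of_le h1 (by nlinarith)
      have h3 : 0 ≤ 2 * ‖N‖ * Real.sin (Real.pi * t) := by positivity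
      nlinarith [mul_nonneg h3 (neg_nonneg.mpr h2)]
    · intro h hcon
      rw [hval] at h
      have h1 : Real.pi * t + s < Real.pi / 2 := by
        have : Real.pi * t < Real.pi * (1 / 2 - s / Real.pi) := by nlinarith
        have e : Real.pi * (1 / 2 - s / Real.pi) = Real.pi / 2 - s := by field_simp
        linarith
      have h2 : 0 ≤ Real.cos (Real.pi * t + s) :=
        Real.cos_nonneg_of_neg_pi_div_two_le_of_le (by nlinarith) h1.le
      have h3 : 0 ≤ 2 * ‖N‖ * Real.sin (Real.pi * t) := by positivity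
      nlinarith [mul_nonneg h3 h2]

/-- tiles in the frozen statement -/
theorem tile_of (P : Fin 4 → ℂ) (s t : ℂ) (hs : s = 1 ∨ s = -1)
    (ht : ∃ m k : ℤ, t = (1 - s) / 2 * (P 0 + P 1) + (m : ℂ) * (P 0 - P 2) + (k : ℂ) * (P 1 - P 3)) :
    ∃ T, s = (sT T : ℂ) ∧ t = tT P T := by
  obtain ⟨m, k, rfl⟩ := ht
  rcases hs with rfl | rfl
  · have h1 : ee (k - m, -m - k) = 0 := by simp [ee]; omega
    have h2 : pp (k - m, -m - k) = -m := by simp [pp]; omega
    have h3 : qq (k - m, -m - k) = k := by simp [qq]; omega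
    refine ⟨(k - m, -m - k), by simp [sT, h1], ?_⟩
    unfold tT Vx
    rw [h1, h2, h3]
    simp; ring
  · have h1 : ee (k - m, -m - k - 1) = 1 := by simp [ee]; omega
    have h2 : pp (k - m, -m - k - 1) = -m - 1 := by simp [pp]; omega
    have h3 : qq (k - m, -m - k - 1) = k := by simp [qq]; omega
    refine ⟨(k - m, -m - k - 1), by simp [sT, h1], ?_⟩
    unfold tT Vx
    rw [h1, h2, h3]
    simp; ring

theorem tile_closed (P : Fin 4 → ℂ) (T : ℤ × ℤ) : IsClosed (tile P T) := by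
  have h1 : IsCompact (Qd P) := by
    unfold Qd
    exact Set.Finite.isCompact_convexHull (𝕜 := ℝ) (Set.toFinite _)
  have h2 : IsCompact (tile P T) := h1.image (by fun_prop)
  exact h2.isClosed

/-- vertices in a bounded set are finite in number -/
theorem finite_bounded {P : Fin 4 → ℂ} (h : Ccw P) (S : Set (ℤ × ℤ))
    (hb : Bornology.IsBounded (Vx P '' S)) : S.Finite := by
  obtain ⟨M, hM⟩ := hb.exists_norm_le
  obtain ⟨x1, x2, x3⟩ := xi_facts h
  obtain ⟨z1, z2, z3⟩ := ze_facts h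
  set Wx := xi P (P 2) - xi P (P 0) with hWx
  set Wz := ze P (P 1) - ze P (P 3) with hWz
  have hWx0 : 0 < Wx := by linarith
  have hWz0 : 0 < Wz := by linarith
  -- values of the functionals on vertices
  have hxi : ∀ w, xi P (Vx P w) = pp w * Wx + xi P (if ee w = 0 then P 0 else P 1) := by
    intro w
    have : Vx P w = (pp w : ℂ) * (P 2 - P 0) + (qq w : ℂ) * (P 1 - P 3) +
      (if ee w = 0 then P 0 else P 1) := rfl
    rw [this, hWx]
    generalize (if ee w = 0 then P 0 else P 1) = q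
    generalize pp w = m
    generalize qq w = n
    simp only [xi, Complex.conj_re, Complex.conj_im, Complex.add_re, Complex.add_im, Complex.mul_re,
      Complex.mul_im, Complex.intCast_re, Complex.intCast_im, Complex.sub_re, Complex.sub_im]
    ring
  have hze : ∀ w, ze P (Vx P w) = qq w * Wz + ze P (if ee w = 0 then P 0 else P 1) := by
    intro w
    have : Vx P w = (pp w : ℂ) * (P 2 - P 0) + (qq w : ℂ) * (P 1 - P 3) +
      (if ee w = 0 then P 0 else P 1) := rfl
    rw [this, hWz]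
    generalize (if ee w = 0 then P 0 else P 1) = q
    generalize pp w = m
    generalize qq w = n
    simp only [ze, Complex.conj_re, Complex.conj_im, Complex.add_re, Complex.add_im, Complex.mul_re,
      Complex.mul_im, Complex.intCast_re, Complex.intCast_im, Complex.sub_re, Complex.sub_im]
    ring
  have hxb : ∀ y, |xi P y| ≤ ‖P 1 - P 3‖ * ‖y‖ := by
    intro y
    refine (Complex.abs_im_le_norm _).trans ?_
    rw [norm_mul, Complex.norm_conj]
  have hzb : ∀ y, |ze P y| ≤ ‖P 0 - P 2‖ * ‖y‖ := by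
    intro y
    refine (Complex.abs_im_le_norm _).trans ?_
    rw [norm_mul, Complex.norm_conj]
  set L : ℝ := ‖P 0‖ + ‖P 1‖ with hL
  have hq : ∀ w, ‖(if ee w = 0 then P 0 else P 1)‖ ≤ L := by
    intro w
    split_ifs
    · linarith [norm_nonneg (P 1)]
    · linarith [norm_nonneg (P 0)]
  -- bounds for the coordinates
  obtain ⟨B1, hB1⟩ : ∃ B : ℕ, (‖P 1 - P 3‖ * M + ‖P 1 - P 3‖ * L) / Wx ≤ B := exists_nat_ge _
  obtain ⟨B2, hB2⟩ : ∃ B : ℕ, (‖P 0 - P 2‖ * M + ‖P 0 - P 2‖ * L) / Wz ≤ B := exists_nat_ge _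
  have hp : ∀ w ∈ S, |pp w| ≤ (B1 : ℤ) := by
    intro w hw
    have h1 := hM _ ⟨w, hw, rfl⟩
    have h2 := hxb (Vx P w)
    have h3 := hxb (if ee w = 0 then P 0 else P 1)
    have h4 : ‖P 1 - P 3‖ * ‖Vx P w‖ ≤ ‖P 1 - P 3‖ * M := by gcongr
    have h5 : ‖P 1 - P 3‖ * ‖(if ee w = 0 then P 0 else P 1)‖ ≤ ‖P 1 - P 3‖ * L := by
      gcongr; exact hq w
    have h6 : (pp w : ℝ) * Wx = xi P (Vx P w) - xi P (if ee w = 0 then P 0 else P 1) := by
      rw [hxi]; ring
    have h7 : |(pp w : ℝ)| * Wx ≤ ‖P 1 - P 3‖ * M + ‖P 1 - P 3‖ * L := by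
      rw [← abs_of_pos hWx0, ← abs_mul, h6]
      refine (abs_sub _ _).trans ?_
      linarith
    have h8 : |(pp w : ℝ)| ≤ B1 := by
      refine le_trans ?_ hB1
      rwa [le_div_iff₀ hWx0]
    exact_mod_cast h8
  have hqq : ∀ w ∈ S, |qq w| ≤ (B2 : ℤ) := by
    intro w hw
    have h1 := hM _ ⟨w, hw, rfl⟩
    have h2 := hzb (Vx P w)
    have h3 := hzb (if ee w = 0 then P 0 else P 1)
    have h4 : ‖P 0 - P 2‖ * ‖Vx P w‖ ≤ ‖P 0 - P 2‖ * M := by gcongr
    have h5 : ‖P 0 - P 2‖ * ‖(if ee w = 0 then P 0 else P 1)‖ ≤ ‖P 0 - P 2‖ * L := by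
      gcongr; exact hq w
    have h6 : (qq w : ℝ) * Wz = ze P (Vx P w) - ze P (if ee w = 0 then P 0 else P 1) := by
      rw [hze]; ring
    have h7 : |(qq w : ℝ)| * Wz ≤ ‖P 0 - P 2‖ * M + ‖P 0 - P 2‖ * L := by
      rw [← abs_of_pos hWz0, ← abs_mul, h6]
      refine (abs_sub _ _).trans ?_
      linarith
    have h8 : |(qq w : ℝ)| ≤ B2 := by
      refine le_trans ?_ hB2
      rwa [le_div_iff₀ hWz0]
    exact_mod_cast h8
  refine Set.Finite.subset (Set.finite_Icc ((-(B1 : ℤ) - B2 - 2, -(B1 : ℤ) - B2 - 2) : ℤ × ℤ)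
    ((B1 : ℤ) + B2 + 2, (B1 : ℤ) + B2 + 2)) (fun w hw => ?_)
  have e1 := abs_le.mp (hp w hw)
  have e2 := abs_le.mp (hqq w hw)
  obtain ⟨i, j⟩ := w
  simp only [pp, qq] at e1 e2
  rw [Set.mem_Icc, Prod.mk_le_mk, Prod.mk_le_mk]
  exact ⟨⟨by omega, by omega⟩, by omega, by omega⟩

end Pool.Agent.W535.TB
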