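import Pool.Agent.W535.TB.Comb

set_option autoImplicit false

namespace Pool.Agent.W535.TB

open scoped BigOperators
open Set ComplexConjugate

/-- point of the unit circle at `x` turns -/
noncomputable def U (x : ℝ) : ℂ := Complex.exp ((2 * Real.pi * x : ℝ) * Complex.I)

theorem U_add (x y : ℝ) : U (x + y) = U x * U y := by
  unfold U; rw [← Complex.exp_add]; congr 1; push_cast; ring

theorem U_zero : U 0 = 1 := by unfold U; simp

theorem U_int (n : ℤ) : U n = 1 := by
  unfold U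
  rw [Complex.exp_eq_one_iff]
  exact ⟨n, by push_cast; ring⟩

theorem U_add_int (x : ℝ) (n : ℤ) : U (x + n) = U x := by
  rw [U_add, U_int, mul_one]

theorem U_conj (x : ℝ) : conj (U x) = U (-x) := by
  unfold U
  rw [← Complex.exp_conj, map_mul, Complex.conj_ofReal, Complex.conj_I]
  congr 1
  push_cast; ring

theorem U_mul_neg (x : ℝ) : U x * U (-x) = 1 := by
  rw [← U_add, add_neg_cancel, U_zero]

theorem U_ne_zero (x : ℝ) : U x ≠ 0 := by unfold U; exact Complex.exp_ne_zero _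

theorem U_im (x : ℝ) : (U x).im = Real.sin (2 * Real.pi * x) := by
  unfold U; rw [Complex.exp_ofReal_mul_I_im]

theorem U_re (x : ℝ) : (U x).re = Real.cos (2 * Real.pi * x) := by
  unfold U; rw [Complex.exp_ofReal_mul_I_re]

theorem norm_U (x : ℝ) : ‖U x‖ = 1 := by unfold U; exact Complex.norm_exp_ofReal_mul_I _

theorem U_eq_one {x : ℝ} (h : U x = 1) : ∃ n : ℤ, x = n := by
  unfold U at h
  rw [Complex.exp_eq_one_iff] at h
  obtain ⟨n, hn⟩ := h
  refine ⟨n, ?_⟩
  have h1 : ((2 * Real.pi * x : ℝ) : ℂ) = (n : ℂ) * (2 * Real.pi) := by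
    have h2 : ((2 * Real.pi * x : ℝ) : ℂ) * Complex.I = ((n : ℂ) * (2 * Real.pi)) * Complex.I := by
      rw [hn]; ring
    exact mul_right_cancel₀ Complex.I_ne_zero h2
  have h3 : (2 * Real.pi * x : ℝ) = n * (2 * Real.pi) := by exact_mod_cast h1
  have h4 := Real.pi_pos
  have : 2 * Real.pi * (x - n) = 0 := by linarith
  rcases mul_eq_zero.mp this with h5 | h5
  · linarith
  · linarith

theorem U_inj {x y : ℝ} (h : U x = U y) : ∃ n : ℤ, x = y + n := by
  have h1 : U (x - y) = 1 := by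
    rw [sub_eq_add_neg, U_add, h, ← U_conj, mul_comm, ← Complex.normSq_eq_conj_mul_self,
      Complex.normSq_eq_norm_sq, norm_U]; simp
  obtain ⟨n, hn⟩ := U_eq_one h1
  exact ⟨n, by linarith⟩

/-- every complex number is `r U x` -/
theorem exists_U (z : ℂ) : ∃ x : ℝ, z = ‖z‖ * U x := by
  refine ⟨Complex.arg z / (2 * Real.pi), ?_⟩
  unfold U
  have h4 := Real.pi_pos
  have : 2 * Real.pi * (Complex.arg z / (2 * Real.pi)) = Complex.arg z := by field_simp
  rw [this]
  exact (Complex.norm_mul_exp_arg_mul_I z).symm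

/-- signed area of a triangle inscribed in a circle -/
theorem cross_formula (c : ℂ) (r x s t : ℝ) :
    (conj ((c + r * U (x + s)) - (c + r * U x)) * ((c + r * U (x + s + t)) - (c + r * U (x + s)))).im =
      4 * r ^ 2 * Real.sin (Real.pi * s) * Real.sin (Real.pi * t) * Real.sin (Real.pi * (s + t)) := by
  have h1 : conj ((c + r * U (x + s)) - (c + r * U x)) * ((c + r * U (x + s + t)) - (c + r * U (x + s)))
      = (r ^ 2 : ℝ) * (U t - 1 - U (s + t) + U s) := by
    have e0 := U_mul_neg x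
    have e1 := U_mul_neg s
    have : conj ((c + r * U (x + s)) - (c + r * U x)) = r * (U (-s) - 1) * U (-x) := by
      have e2 : (c + r * U (x + s)) - (c + r * U x) = r * (U (x + s) - U x) := by ring
      rw [e2, map_mul, map_sub, U_conj, U_conj, Complex.conj_ofReal, neg_add, U_add]
      ring
    rw [this, U_add (x + s) t, U_add x s, U_add s t]
    push_cast
    linear_combination (r ^ 2 * (U (-s) - 1) * (U s * U t - U s)) * e0 + (r ^ 2 * (U t - 1)) * e1
  rw [h1, Complex.im_ofReal_mul]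
  simp only [Complex.add_im, Complex.sub_im, U_im, Complex.one_im]
  have e1 : 2 * Real.pi * t = 2 * (Real.pi * t) := by ring
  have e2 : 2 * Real.pi * (s + t) = 2 * (Real.pi * s + Real.pi * t) := by ring
  have e3 : 2 * Real.pi * s = 2 * (Real.pi * s) := by ring
  have e4 : Real.pi * (s + t) = Real.pi * s + Real.pi * t := by ring
  rw [e1, e2, e3, e4]
  generalize Real.pi * s = x1
  generalize Real.pi * t = x2
  rw [Real.sin_two_mul, Real.sin_two_mul, Real.sin_two_mul, Real.sin_add, Real.cos_add]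
  linear_combination (r ^ 2 * (-2 * Real.sin x2 * Real.cos x2)) * (Real.sin_sq_add_cos_sq x1) +
    (r ^ 2 * (-2 * Real.sin x1 * Real.cos x1)) * (Real.sin_sq_add_cos_sq x2)

/-- the arcs of a convex cyclic quadrilateral -/
theorem exists_arcs (A B C D c : ℂ) (r : ℝ) (hA : dist A c = r) (hB : dist B c = r)
    (hC : dist C c = r) (hD : dist D c = r)
    (h1 : 0 < (conj (B - A) * (C - B)).im) (h2 : 0 < (conj (C - B) * (D - C)).im)
    (h3 : 0 < (conj (D - C) * (A - D)).im) (h4 : 0 < (conj (A - D) * (B - A)).im) :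
    ∃ (θ : ℝ) (a : Fin 4 → ℝ), 0 < r ∧ (∀ k, 0 < a k) ∧ a 0 + a 1 + a 2 + a 3 = 1 ∧
      A = c + r * U θ ∧ B = c + r * U (θ + a 0) ∧ C = c + r * U (θ + a 0 + a 1) ∧
      D = c + r * U (θ + a 0 + a 1 + a 2) := by
  have hr0 : 0 ≤ r := by rw [← hA]; exact dist_nonneg
  have hrep : ∀ Z : ℂ, dist Z c = r → ∃ x : ℝ, Z = c + r * U x := by
    intro Z hZ
    obtain ⟨x, hx⟩ := exists_U (Z - c)
    rw [← dist_eq_norm, hZ] at hx
    exact ⟨x, by rw [← hx]; ring⟩
  have hr : 0 < r := by
    refine lt_of_le_of_ne hr0 (fun h => ?_)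
    obtain ⟨x, hx⟩ := hrep A hA
    obtain ⟨y, hy⟩ := hrep B hB
    rw [hx, hy, ← h] at h1
    simp at h1
  have hrep2 : ∀ (x : ℝ) (Z : ℂ), dist Z c = r → Z ≠ c + r * U x →
      ∃ s : ℝ, 0 < s ∧ s < 1 ∧ Z = c + r * U (x + s) := by
    intro x Z hZ hne
    obtain ⟨y, hy⟩ := hrep Z hZ
    refine ⟨Int.fract (y - x), ?_, Int.fract_lt_one _, ?_⟩
    · refine lt_of_le_of_ne (Int.fract_nonneg _) (fun h => ?_)
      apply hne
      rw [hy]
      have : y = x + (⌊y - x⌋ : ℤ) := by
        have := Int.floor_add_fract (y - x)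
        rw [← h] at this
        linarith
      rw [this, U_add_int]
    · rw [hy]
      have : x + Int.fract (y - x) = y + ((-⌊y - x⌋ : ℤ) : ℝ) := by
        have := Int.floor_add_fract (y - x)
        push_cast
        linarith
      rw [this, U_add_int]
  obtain ⟨θ, hθ⟩ := hrep A hA
  have hAB : B ≠ A := by rintro rfl; simp at h1
  have hBC : C ≠ B := by rintro rfl; simp at h1
  have hCD : D ≠ C := by rintro rfl; simp at h2
  have hDA : A ≠ D := by rintro rfl; simp at h3
  obtain ⟨s0, p0, q0, e0⟩ := hrep2 θ B hB (by rw [← hθ]; exact hAB)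
  obtain ⟨s1, p1, q1, e1⟩ := hrep2 (θ + s0) C hC (by rw [← e0]; exact hBC)
  obtain ⟨s2, p2, q2, e2⟩ := hrep2 (θ + s0 + s1) D hD (by rw [← e1]; exact hCD)
  obtain ⟨s3, p3, q3, e3⟩ := hrep2 (θ + s0 + s1 + s2) A hA (by rw [← e2]; exact hDA)
  have hsin : ∀ s : ℝ, 0 < s → s < 1 → 0 < Real.sin (Real.pi * s) := fun s h h' =>
    Real.sin_pos_of_pos_of_lt_pi (by positivity) (by nlinarith [Real.pi_pos])
  have hsum : ∀ s t : ℝ, 0 < s → s < 1 → 0 < t → t < 1 → 
      0 < 4 * r ^ 2 * Real.sin (Real.pi * s) * Real.sin (Real.pi * t) * Real.sin (Real.pi * (s + t)) →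
      s + t < 1 := by
    intro s t hs hs' ht ht' h
    by_contra hcon
    push Not at hcon
    have e5 : 0 < 4 * r ^ 2 * Real.sin (Real.pi * s) * Real.sin (Real.pi * t) := by
      have := hsin s hs hs'
      have := hsin t ht ht'
      positivity
    have e6 : Real.sin (Real.pi * (s + t)) ≤ 0 := by
      have : Real.sin (Real.pi * (s + t)) = - Real.sin (Real.pi * (s + t) - Real.pi) := by
        rw [Real.sin_sub_pi]; ring
      rw [this, neg_nonpos]
      exact Real.sin_nonneg_of_nonneg_of_le_pi (by nlinarith [Real.pi_pos]) (by nlinarith [Real.pi_pos])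
    nlinarith
  have c1 : s0 + s1 < 1 := by
    apply hsum s0 s1 p0 q0 p1 q1
    rw [← cross_formula c r θ s0 s1, ← hθ, ← e0, ← e1]
    exact h1
  have c3 : s2 + s3 < 1 := by
    apply hsum s2 s3 p2 q2 p3 q3
    rw [← cross_formula c r (θ + s0 + s1) s2 s3, ← e1, ← e2, ← e3]
    exact h3
  have hU : U (θ + s0 + s1 + s2 + s3) = U θ := by
    have e4 : c + r * U θ = c + r * U (θ + s0 + s1 + s2 + s3) := by rw [← hθ, ← e3]
    have e5 : (r : ℂ) * U θ = r * U (θ + s0 + s1 + s2 + s3) := add_left_cancel e4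
    have hr' : (r : ℂ) ≠ 0 := by exact_mod_cast hr.ne'
    exact (mul_left_cancel₀ hr' e5).symm
  obtain ⟨n, hn⟩ := U_inj hU
  have hn1 : (0 : ℝ) < n := by linarith
  have hn2 : (n : ℝ) < 2 := by linarith
  have hn3 : n = 1 := by
    have h5 : (0 : ℤ) < n := by exact_mod_cast hn1
    have h6 : n < (2 : ℤ) := by exact_mod_cast hn2
    omega
  rw [hn3] at hn
  push_cast at hn
  refine ⟨θ, ![s0, s1, s2, s3], hr, ?_, ?_, hθ, ?_, ?_, ?_⟩
  · intro k
    rcases fin4 k with rfl | rfl | rfl | rfl <;> simpa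
  · simp; linarith
  · simpa using e0
  · simpa using e1
  · simpa using e2

end Pool.Agent.W535.TB
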