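import Pool.Agent.W535.TB.Infinite

set_option autoImplicit false

namespace Pool.Agent.W535.TB

open scoped BigOperators
open Set

variable {a : Fin 4 → ℝ} {α κ : ℝ}

theorem white_iff (h0 : 0 ≤ κ) (h1 : κ ≤ 1) (v : ℤ × ℤ) :
    blk a (α + κ) (1 - κ) v ↔ ¬ blk a α κ v := by
  have x0 := xx_nonneg a α v
  have x1 := xx_lt_one a α v
  have e : th a v - (α + κ) = (xx a α v - κ) + ((mm a α v : ℤ) : ℝ) := by
    unfold xx mm Int.fract; ring
  by_cases h : xx a α v < κ
  · have e2 : xx a (α + κ) v = xx a α v - κ + 1 := by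
      have e3 : th a v - (α + κ) = (xx a α v - κ + 1) + ((mm a α v - 1 : ℤ) : ℝ) := by
        rw [e]; push_cast; ring
      show Int.fract (th a v - (α + κ)) = _
      rw [e3, Int.fract_add_intCast]
      exact Int.fract_eq_self.mpr ⟨by linarith, by linarith⟩
    unfold blk
    rw [e2]
    constructor
    · intro h2; linarith
    · intro h2; exact absurd h h2
  · push Not at h
    have e2 : xx a (α + κ) v = xx a α v - κ := by
      show Int.fract (th a v - (α + κ)) = _
      rw [e, Int.fract_add_intCast]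
      exact Int.fract_eq_self.mpr ⟨by linarith, by linarith⟩
    unfold blk
    rw [e2]
    constructor
    · intro h2; push Not; exact h
    · intro h2; linarith

theorem Cl_white (h0 : 0 ≤ κ) (h1 : κ ≤ 1) (v : ℤ × ℤ) :
    Cl (blk a (α + κ) (1 - κ)) v = Cl (blk a α κ) v := by
  have : Adj (blk a (α + κ) (1 - κ)) = Adj (blk a α κ) := by
    funext x y
    unfold Adj
    rw [white_iff h0 h1, white_iff h0 h1, not_iff_not]
  unfold Cl
  rw [this]

theorem a_lt_one (ha : ∀ k, 0 < a k) (hs : a 0 + a 1 + a 2 + a 3 = 1) (k : Fin 4) : a k < 1 := by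
  have a0 := ha 0
  have a1 := ha 1
  have a2 := ha 2
  have a3 := ha 3
  rcases fin4 k with rfl | rfl | rfl | rfl <;> linarith

/-- positive increments -/
theorem inc (hs : a 0 + a 1 + a 2 + a 3 = 1) (ha : ∀ k, 0 < a k) (k : Fin 4) (v : ℤ × ℤ)
    (hd : del a k v = a k) :
    (xx a α (nb k v) = xx a α v + a k ∧ xx a α v + a k < 1) ∨
      (xx a α (nb k v) = xx a α v + a k - 1 ∧ 1 ≤ xx a α v + a k) := by
  have x0 := xx_nonneg a α v
  have x1 := xx_lt_one a α v
  have h1 := a_lt_one ha hs k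
  have h2 := ha k
  by_cases c : xx a α v + a k < 1
  · left
    have := (xx_move a hs α k v 0 (by rw [hd]; push_cast; linarith) (by rw [hd]; push_cast; linarith)).1
    rw [this, hd]; push_cast
    exact ⟨by ring, c⟩
  · right
    push Not at c
    have := (xx_move a hs α k v 1 (by rw [hd]; push_cast; linarith) (by rw [hd]; push_cast; linarith)).1
    rw [this, hd]; push_cast
    exact ⟨by ring, c⟩

/-- the directed boundary of a tile: four corners in cyclic order with increments `a` in some order -/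
theorem tile_cycle (i j : ℤ) : ∃ v1 v2 v3 v4 : ℤ × ℤ, ∃ k1 k2 k3 k4 : Fin 4,
    nb k1 v1 = v2 ∧ nb k2 v2 = v3 ∧ nb k3 v3 = v4 ∧ nb k4 v4 = v1 ∧
    (∀ a : Fin 4 → ℝ, del a k1 v1 = a k1 ∧ del a k2 v2 = a k2 ∧ del a k3 v3 = a k3 ∧
      del a k4 v4 = a k4) ∧
    (∀ a : Fin 4 → ℝ, a k1 + a k2 + a k3 + a k4 = a 0 + a 1 + a 2 + a 3) ∧
    v1 = (i, j) ∧ v3 = (i + 1, j + 1) ∧
    ((v2 = (i + 1, j) ∧ v4 = (i, j + 1)) ∨ (v2 = (i, j + 1) ∧ v4 = (i + 1, j))) := by
  rcases ee_cases (i, j) with h | h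
  · have h2 : ee (i + 1, j) = 1 := by simp [ee] at h ⊢; omega
    have h3 : ee (i + 1, j + 1) = 0 := by simp [ee] at h ⊢; omega
    have h4 : ee (i, j + 1) = 1 := by simp [ee] at h ⊢; omega
    refine ⟨(i, j), (i + 1, j), (i + 1, j + 1), (i, j + 1), 0, 1, 2, 3, ?_, ?_, ?_, ?_, ?_, ?_, rfl,
      rfl, Or.inl ⟨rfl, rfl⟩⟩
    · rw [nb_even _ _ h]; rfl
    · rw [nb_odd _ _ h2]; rfl
    · rw [nb_even _ _ h3]; simp
    · rw [nb_odd _ _ h4]; simp
    · intro a
      rw [del_even a _ _ h, del_odd a _ _ h2, del_even a _ _ h3, del_odd a _ _ h4]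
      simp
    · intro a; ring
  · have h2 : ee (i, j + 1) = 0 := by simp [ee] at h ⊢; omega
    have h3 : ee (i + 1, j + 1) = 1 := by simp [ee] at h ⊢; omega
    have h4 : ee (i + 1, j) = 0 := by simp [ee] at h ⊢; omega
    refine ⟨(i, j), (i, j + 1), (i + 1, j + 1), (i + 1, j), 1, 0, 3, 2, ?_, ?_, ?_, ?_, ?_, ?_, rfl,
      rfl, Or.inr ⟨rfl, rfl⟩⟩
    · rw [nb_odd _ _ h]; rfl
    · rw [nb_even _ _ h2]; rfl
    · rw [nb_odd _ _ h3]; simp
    · rw [nb_even _ _ h4]; simp
    · intro a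
      rw [del_odd a _ _ h, del_even a _ _ h2, del_odd a _ _ h3, del_even a _ _ h4]
      simp
    · intro a; ring

/-- a monochromatic tile forces a long arc -/
theorem mono_tile (hs : a 0 + a 1 + a 2 + a 3 = 1) (ha : ∀ k, 0 < a k) (i j : ℤ)
    (h1 : blk a α κ (i, j)) (h2 : blk a α κ (i + 1, j)) (h3 : blk a α κ (i + 1, j + 1))
    (h4 : blk a α κ (i, j + 1)) : ∃ k, 1 - a k ≤ κ := by
  obtain ⟨v1, v2, v3, v4, k1, k2, k3, k4, e1, e2, e3, e4, hd, hsum, f1, f3, f24⟩ := tile_cycle i j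
  by_contra hcon
  push Not at hcon
  have b1 : blk a α κ v1 := by rw [f1]; exact h1
  have b3 : blk a α κ v3 := by rw [f3]; exact h3
  have b2 : blk a α κ v2 := by
    rcases f24 with ⟨q, _⟩ | ⟨q, _⟩ <;> rw [q] <;> assumption
  have b4 : blk a α κ v4 := by
    rcases f24 with ⟨_, q⟩ | ⟨_, q⟩ <;> rw [q] <;> assumption
  obtain ⟨d1, d2, d3, d4⟩ := hd a
  have g : ∀ k v, blk a α κ v → del a k v = a k → xx a α (nb k v) = xx a α v + a k := by
    intro k v hv hk
    have e : xx a α v < κ := hv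
    rcases inc (α := α) hs ha k v hk with ⟨q, _⟩ | ⟨_, q⟩
    · exact q
    · exfalso; linarith [hcon k]
  have g1 := g k1 v1 b1 d1
  have g2 := g k2 v2 b2 d2
  have g3 := g k3 v3 b3 d3
  have g4 := g k4 v4 b4 d4
  rw [e1] at g1
  rw [e2] at g2
  rw [e3] at g3
  rw [e4] at g4
  have := hsum a
  linarith

theorem no_saddle (hs : a 0 + a 1 + a 2 + a 3 = 1) (ha : ∀ k, 0 < a k) :
    NoSaddle (blk a α κ) := by
  rintro i j ⟨h13, h24, h12⟩
  obtain ⟨v1, v2, v3, v4, k1, k2, k3, k4, e1, e2, e3, e4, hd, hsum, f1, f3, f24⟩ := tile_cycle i j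
  obtain ⟨d1, d2, d3, d4⟩ := hd a
  have s1 := hsum a
  have g1 := inc (α := α) hs ha k1 v1 d1
  have g2 := inc (α := α) hs ha k2 v2 d2
  have g3 := inc (α := α) hs ha k3 v3 d3
  have g4 := inc (α := α) hs ha k4 v4 d4
  rw [e1] at g1
  rw [e2] at g2
  rw [e3] at g3
  rw [e4] at g4
  have p1 := ha k1
  have p2 := ha k2
  have p3 := ha k3
  have p4 := ha k4
  have q1 := a_lt_one ha hs k1
  have q2 := a_lt_one ha hs k2
  have q3 := a_lt_one ha hs k3
  have q4 := a_lt_one ha hs k4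
  -- colours of the corners in the cyclic order
  have c13 : blk a α κ v1 ↔ blk a α κ v3 := by rw [f1, f3]; exact h13
  have c24 : blk a α κ v2 ↔ blk a α κ v4 := by
    rcases f24 with ⟨q, q'⟩ | ⟨q, q'⟩ <;> rw [q, q']
    · exact h24
    · exact h24.symm
  have c12 : ¬ (blk a α κ v1 ↔ blk a α κ v2) := by
    rcases f24 with ⟨q, q'⟩ | ⟨q, q'⟩ <;> rw [f1, q]
    · exact h12
    · rw [← h24]; exact h12
  unfold blk at c13 c24 c12
  by_cases b1 : xx a α v1 < κ
  · have b2 : ¬ xx a α v2 < κ := fun h => c12 (iff_of_true b1 h)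
    have b3 := c13.mp b1
    have b4 : ¬ xx a α v4 < κ := fun h => b2 (c24.mpr h)
    push Not at b2 b4
    have g1' := g1.resolve_right (fun h => by linarith [h.1])
    have g2' := g2.resolve_left (fun h => by linarith [h.1])
    have g3' := g3.resolve_right (fun h => by linarith [h.1])
    have g4' := g4.resolve_left (fun h => by linarith [h.1])
    linarith [g1'.1, g2'.1, g3'.1, g4'.1]
  · have b2 : xx a α v2 < κ := by
      by_contra h; exact c12 (iff_of_false b1 h)
    have b3 : ¬ xx a α v3 < κ := fun h => b1 (c13.mpr h)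
    have b4 := c24.mp b2
    push Not at b1 b3
    have g1' := g1.resolve_left (fun h => by linarith [h.1])
    have g2' := g2.resolve_right (fun h => by linarith [h.1])
    have g3' := g3.resolve_left (fun h => by linarith [h.1])
    have g4' := g4.resolve_right (fun h => by linarith [h.1])
    linarith [g1'.1, g2'.1, g3'.1, g4'.1]

/-- adjacent vertices of different colours: one of the clusters is infinite -/
theorem bicol_infinite (hs : a 0 + a 1 + a 2 + a 3 = 1) (ha : ∀ k, 0 < a k) (h0 : 0 < κ) (h1 : κ < 1)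
    (v v' : ℤ × ℤ) (hvv : ∃ k, v' = nb k v) (hcol : ¬ (blk a α κ v' ↔ blk a α κ v))
    (hfin : (Cl (blk a α κ) v).Finite) (hfin' : (Cl (blk a α κ) v').Finite) : False := by
  have hs' := hs
  -- finite clusters exist in both colours
  have hBW : ∀ x, (x = v ∨ x = v') → (Cl (blk a α κ) x).Finite := by
    rintro x (rfl | rfl) <;> assumption
  obtain ⟨x, y, hx, hy, bx, by'⟩ : ∃ x y, (x = v ∨ x = v') ∧ (y = v ∨ y = v') ∧ blk a α κ x ∧
      ¬ blk a α κ y := by
    by_cases c : blk a α κ v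
    · exact ⟨v, v', Or.inl rfl, Or.inr rfl, c, fun h => hcol (iff_of_true h c)⟩
    · refine ⟨v', v, Or.inr rfl, Or.inl rfl, ?_, c⟩
      by_contra h
      exact hcol (iff_of_false h c)
  have hB : ∀ k, a k ≤ 1 - κ := by
    intro k
    by_contra hk
    push Not at hk
    exact cluster_infinite a ha hs α κ h1.le k (by linarith) x bx (hBW x hx)
  have hW : ∀ k, a k ≤ κ := by
    intro k
    by_contra hk
    push Not at hk
    have := cluster_infinite a ha hs (α + κ) (1 - κ) (by linarith) k (by linarith) y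
      ((white_iff h0.le h1.le y).mpr by')
    rw [Cl_white h0.le h1.le] at this
    exact this (hBW y hy)
  obtain ⟨u, hu, Z, z1, z2, z3, k, w, hne⟩ := dual_main (blk a α κ) (no_saddle hs ha) v v' hvv hcol
    hfin hfin'
  have hufin := hBW u hu
  by_cases bu : blk a α κ u
  · refine hne (slab_acyclic a ha hs α κ hB hufin.toFinset ?_ ?_ Z ?_ z2 z3 k w)
    · intro w hw
      exact (Cl_col (hufin.mem_toFinset.mp hw)).mpr bu
    · intro w hw k hk
      rw [hufin.mem_toFinset] at hw ⊢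
      exact Cl_step hw ⟨⟨k, rfl⟩, iff_of_true hk ((Cl_col hw).mpr bu)⟩
    · intro k w hw
      rw [hufin.mem_toFinset]
      exact z1 k w hw
  · have bu' := (white_iff (a := a) (α := α) h0.le h1.le u).mpr bu
    refine hne (slab_acyclic a ha hs (α + κ) (1 - κ) (fun k => by linarith [hW k]) hufin.toFinset
      ?_ ?_ Z ?_ z2 z3 k w)
    · intro w hw
      have h2 := hufin.mem_toFinset.mp hw
      rw [← Cl_white h0.le h1.le] at h2
      exact (Cl_col h2).mpr bu'
    · intro w hw k hk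
      rw [hufin.mem_toFinset] at hw ⊢
      rw [← Cl_white h0.le h1.le] at hw ⊢
      exact Cl_step hw ⟨⟨k, rfl⟩, iff_of_true hk ((Cl_col hw).mpr bu')⟩
    · intro k w hw
      rw [hufin.mem_toFinset]
      exact z1 k w hw

/-- **Combinatorial main theorem.** In every tile at least one corner has an infinite cluster. -/
theorem comb_main (hs : a 0 + a 1 + a 2 + a 3 = 1) (ha : ∀ k, 0 < a k) (h0 : 0 < κ) (h1 : κ < 1)
    (i j : ℤ) (f1 : (Cl (blk a α κ) (i, j)).Finite) (f2 : (Cl (blk a α κ) (i + 1, j)).Finite)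
    (f3 : (Cl (blk a α κ) (i + 1, j + 1)).Finite) (f4 : (Cl (blk a α κ) (i, j + 1)).Finite) :
    False := by
  by_cases c12 : (blk a α κ (i + 1, j) ↔ blk a α κ (i, j))
  swap
  · exact bicol_infinite hs ha h0 h1 _ _ (nb_right i j) c12 f1 f2
  by_cases c23 : (blk a α κ (i + 1, j + 1) ↔ blk a α κ (i + 1, j))
  swap
  · exact bicol_infinite hs ha h0 h1 _ _ (nb_up (i + 1) j) c23 f2 f3
  by_cases c14 : (blk a α κ (i, j + 1) ↔ blk a α κ (i, j))
  swap
  · exact bicol_infinite hs ha h0 h1 _ _ (nb_up i j) c14 f1 f4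
  by_cases b : blk a α κ (i, j)
  · have b2 := c12.mpr b
    have b3 := c23.mpr b2
    have b4 := c14.mpr b
    obtain ⟨k, hk⟩ := mono_tile hs ha i j b b2 b3 b4
    exact cluster_infinite a ha hs α κ h1.le k hk _ b f1
  · have b2 : ¬ blk a α κ (i + 1, j) := fun h => b (c12.mp h)
    have b3 : ¬ blk a α κ (i + 1, j + 1) := fun h => b2 (c23.mp h)
    have b4 : ¬ blk a α κ (i, j + 1) := fun h => b (c14.mp h)
    rw [← white_iff h0.le h1.le] at b b2 b3 b4
    obtain ⟨k, hk⟩ := mono_tile hs ha i j b b2 b3 b4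
    have := cluster_infinite a ha hs (α + κ) (1 - κ) (by linarith) k hk _ b
    rw [Cl_white h0.le h1.le] at this
    exact this f1

end Pool.Agent.W535.TB
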