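import Pool.Agent.W535.TB.Grid

set_option autoImplicit false

namespace Pool.Agent.W535.TB

open scoped BigOperators
open Set

/-- adjacent vertices of the same colour -/
def Adj (col : ℤ × ℤ → Prop) (x y : ℤ × ℤ) : Prop := (∃ k, y = nb k x) ∧ (col y ↔ col x)

/-- the cluster of a vertex -/
def Cl (col : ℤ × ℤ → Prop) (v : ℤ × ℤ) : Set (ℤ × ℤ) := {w | Relation.ReflTransGen (Adj col) v w}

variable {col : ℤ × ℤ → Prop}

theorem Cl_self (v : ℤ × ℤ) : v ∈ Cl col v := Relation.ReflTransGen.refl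

theorem Cl_step {v w u : ℤ × ℤ} (h : w ∈ Cl col v) (h' : Adj col w u) : u ∈ Cl col v :=
  Relation.ReflTransGen.tail h h'

theorem Cl_trans {v w u : ℤ × ℤ} (h : w ∈ Cl col v) (h' : u ∈ Cl col w) : u ∈ Cl col v :=
  Relation.ReflTransGen.trans h h'

theorem Cl_col {v w : ℤ × ℤ} (h : w ∈ Cl col v) : (col w ↔ col v) := by
  induction h with
  | refl => exact Iff.rfl
  | tail _ h2 ih => exact h2.2.trans ih

theorem Adj_symm {x y : ℤ × ℤ} (h : Adj col x y) : Adj col y x := by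
  obtain ⟨⟨k, rfl⟩, h2⟩ := h
  exact ⟨⟨k, (nb_nb k x).symm⟩, h2.symm⟩

theorem Cl_mem_iff {v x y : ℤ × ℤ} (h : Adj col x y) : x ∈ Cl col v ↔ y ∈ Cl col v :=
  ⟨fun hx => Cl_step hx h, fun hy => Cl_step hy (Adj_symm h)⟩

theorem nb_right (i j : ℤ) : ∃ k, (i + 1, j) = nb k (i, j) := by
  rcases ee_cases (i, j) with h | h
  · exact ⟨0, by simp [nb, h]⟩
  · exact ⟨2, by simp [nb, h]⟩

theorem nb_up (i j : ℤ) : ∃ k, (i, j + 1) = nb k (i, j) := by
  rcases ee_cases (i, j) with h | h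
  · exact ⟨3, by simp [nb, h]⟩
  · exact ⟨1, by simp [nb, h]⟩

/-- indicator of the edges between `K` and `K'` -/
noncomputable def chi (K K' : Set (ℤ × ℤ)) (x y : ℤ × ℤ) : ZMod 2 := by
  classical
  exact if (x ∈ K ∧ y ∈ K') ∨ (x ∈ K' ∧ y ∈ K) then 1 else 0

theorem chi_comm (K K' : Set (ℤ × ℤ)) (x y : ℤ × ℤ) : chi K K' x y = chi K K' y x := by
  unfold chi
  congr 1
  simp only [eq_iff_iff]
  tauto

theorem chi_swap (K K' : Set (ℤ × ℤ)) (x y : ℤ × ℤ) : chi K K' x y = chi K' K x y := by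
  unfold chi
  congr 1
  simp only [eq_iff_iff]
  tauto

/-- label of a vertex: `0` in `K`, `2` in `K'`, `1` other of the colour of `K`, `3` other -/
noncomputable def lab (K K' : Set (ℤ × ℤ)) (cK : ℤ × ℤ → Prop) (x : ℤ × ℤ) : Fin 4 := by
  classical
  exact if x ∈ K then 0 else if x ∈ K' then 2 else if cK x then 1 else 3

/-- value of an edge with given labels -/
def ch (l m : Fin 4) : ZMod 2 := if (l = 0 ∧ m = 2) ∨ (l = 2 ∧ m = 0) then 1 else 0

/-- admissible labels of adjacent vertices -/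
def okp (l m : Fin 4) : Bool :=
  !((l == 0 && m == 1) || (l == 1 && m == 0) || (l == 2 && m == 3) || (l == 3 && m == 2))

/-- colour class of a label -/
def cl (l : Fin 4) : Bool := (l == 0 || l == 1)

theorem tile_dec : ∀ l1 l2 l3 l4 : Fin 4, okp l1 l2 = true → okp l2 l3 = true → okp l4 l3 = true →
    okp l1 l4 = true → ¬ (cl l1 = cl l3 ∧ cl l2 = cl l4 ∧ cl l1 ≠ cl l2) →
    ch l1 l2 + ch l2 l3 + ch l4 l3 + ch l1 l4 = 0 := by decide

theorem okp_dec : ∀ l m : Fin 4, ((cl l = true ↔ cl m = true) →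
    ((l = 0 ↔ m = 0) ∧ (l = 2 ↔ m = 2))) → okp l m = true := by decide

/-- compatibility of a label and a value -/
def gd (l : Fin 4) (f : ZMod 2) : Bool := !((l == 0 && f == 0) || (l == 2 && f == 1))

/-- a corner with value zero is in `K'` -/
def wt (l : Fin 4) (f : ZMod 2) : Bool := !(f == 0) || (l == 2)

theorem tile_dec2 : ∀ l1 l2 l3 l4 : Fin 4, ∀ f1 : ZMod 2,
    (okp l1 l2 && okp l2 l3 && okp l4 l3 && okp l1 l4 &&
      !(cl l1 == cl l3 && cl l2 == cl l4 && !(cl l1 == cl l2)) &&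
      gd l1 f1 && gd l2 (f1 + ch l1 l2) && gd l4 (f1 + ch l1 l4) &&
      gd l3 (f1 + ch l1 l2 + ch l2 l3) &&
      (f1 == 1 || f1 + ch l1 l2 == 1 || f1 + ch l1 l4 == 1 || f1 + ch l1 l2 + ch l2 l3 == 1)) = true →
    (wt l1 f1 && wt l2 (f1 + ch l1 l2) && wt l4 (f1 + ch l1 l4) &&
      wt l3 (f1 + ch l1 l2 + ch l2 l3)) = true := by decide

section core

variable {K K' : Set (ℤ × ℤ)} {cK : ℤ × ℤ → Prop}

theorem lab_zero (x : ℤ × ℤ) : lab K K' cK x = 0 ↔ x ∈ K := by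
  unfold lab
  split_ifs <;> simp_all

theorem lab_two (hKc : ∀ x ∈ K, cK x) (hKc' : ∀ x ∈ K', ¬ cK x) (x : ℤ × ℤ) :
    lab K K' cK x = 2 ↔ x ∈ K' := by
  have h1 := hKc x
  have h2 := hKc' x
  unfold lab
  split_ifs <;> simp_all

theorem cl_lab (hKc : ∀ x ∈ K, cK x) (hKc' : ∀ x ∈ K', ¬ cK x) (x : ℤ × ℤ) :
    cl (lab K K' cK x) = true ↔ cK x := by
  have h1 := hKc x
  have h2 := hKc' x
  unfold lab cl
  split_ifs <;> simp_all

theorem chi_eq_ch (hKc : ∀ x ∈ K, cK x) (hKc' : ∀ x ∈ K', ¬ cK x) (x y : ℤ × ℤ) :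
    chi K K' x y = ch (lab K K' cK x) (lab K K' cK y) := by
  have e : ((x ∈ K ∧ y ∈ K') ∨ (x ∈ K' ∧ y ∈ K)) ↔
      ((lab K K' cK x = 0 ∧ lab K K' cK y = 2) ∨ (lab K K' cK x = 2 ∧ lab K K' cK y = 0)) := by
    rw [lab_zero (K' := K') (cK := cK) x, lab_zero (K' := K') (cK := cK) y,
      lab_two hKc hKc' x, lab_two hKc hKc' y]
  unfold chi ch
  by_cases h : (x ∈ K ∧ y ∈ K') ∨ (x ∈ K' ∧ y ∈ K)
  · rw [if_pos h, if_pos (e.mp h)]
  · rw [if_neg h, if_neg (fun h' => h (e.mpr h'))]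

theorem okp_adj (hKc : ∀ x ∈ K, cK x) (hKc' : ∀ x ∈ K', ¬ cK x)
    (hadj : ∀ x y, (∃ k, y = nb k x) → (cK x ↔ cK y) → ((x ∈ K ↔ y ∈ K) ∧ (x ∈ K' ↔ y ∈ K')))
    (x y : ℤ × ℤ) (h : ∃ k, y = nb k x) : okp (lab K K' cK x) (lab K K' cK y) = true := by
  have h5 := hadj x y h
  rw [← cl_lab hKc hKc' x, ← cl_lab hKc hKc' y, ← lab_zero (K' := K') (cK := cK) x,
    ← lab_zero (K' := K') (cK := cK) y, ← lab_two hKc hKc' x, ← lab_two hKc hKc' y] at h5
  exact okp_dec _ _ h5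

/-- no alternating tile -/
def NoSaddle (cK : ℤ × ℤ → Prop) : Prop :=
  ∀ i j : ℤ, ¬ ((cK (i, j) ↔ cK (i + 1, j + 1)) ∧ (cK (i + 1, j) ↔ cK (i, j + 1)) ∧
    ¬ (cK (i, j) ↔ cK (i + 1, j)))

theorem saddle_lab (hKc : ∀ x ∈ K, cK x) (hKc' : ∀ x ∈ K', ¬ cK x) (hns : NoSaddle cK) (i j : ℤ) :
    ¬ (cl (lab K K' cK (i, j)) = cl (lab K K' cK (i + 1, j + 1)) ∧
      cl (lab K K' cK (i + 1, j)) = cl (lab K K' cK (i, j + 1)) ∧
      cl (lab K K' cK (i, j)) ≠ cl (lab K K' cK (i + 1, j))) := by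
  rintro ⟨h1, h2, h3⟩
  apply hns i j
  rw [← cl_lab hKc hKc' (i, j), ← cl_lab hKc hKc' (i + 1, j), ← cl_lab hKc hKc' (i + 1, j + 1),
    ← cl_lab hKc hKc' (i, j + 1), h1, h2]
  refine ⟨Iff.rfl, Iff.rfl, fun h => h3 ?_⟩
  rw [h1, h2]
  exact Bool.eq_iff_iff.mpr h

theorem tile_even (hKc : ∀ x ∈ K, cK x) (hKc' : ∀ x ∈ K', ¬ cK x)
    (hadj : ∀ x y, (∃ k, y = nb k x) → (cK x ↔ cK y) → ((x ∈ K ↔ y ∈ K) ∧ (x ∈ K' ↔ y ∈ K')))
    (hns : NoSaddle cK) (i j : ℤ) :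
    chi K K' (i, j) (i + 1, j) + chi K K' (i + 1, j) (i + 1, j + 1) +
      chi K K' (i, j + 1) (i + 1, j + 1) + chi K K' (i, j) (i, j + 1) = 0 := by
  rw [chi_eq_ch hKc hKc', chi_eq_ch hKc hKc', chi_eq_ch hKc hKc', chi_eq_ch hKc hKc']
  exact tile_dec _ _ _ _ (okp_adj hKc hKc' hadj _ _ (nb_right _ _))
    (okp_adj hKc hKc' hadj _ _ (nb_up _ _)) (okp_adj hKc hKc' hadj _ _ (nb_right _ _))
    (okp_adj hKc hKc' hadj _ _ (nb_up _ _)) (saddle_lab hKc hKc' hns i j)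

/-- the discrete Jordan function -/
theorem exists_prim (hfin : K.Finite) (hfin' : K'.Finite) 
    (heven : ∀ i j, chi K K' (i, j) (i + 1, j) + chi K K' (i + 1, j) (i + 1, j + 1) +
      chi K K' (i, j + 1) (i + 1, j + 1) + chi K K' (i, j) (i, j + 1) = 0) :
    ∃ f : ℤ × ℤ → ZMod 2, (∀ i j, f (i + 1, j) = f (i, j) + chi K K' (i, j) (i + 1, j)) ∧
      (∀ i j, f (i, j + 1) = f (i, j) + chi K K' (i, j) (i, j + 1)) ∧
      ∃ M : ℤ, ∀ i j, M ≤ i → f (i, j) = 0 := by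
  classical
  have h2 : ∀ x : ZMod 2, x + x = 0 := fun x => CharTwo.add_self_eq_zero x
  obtain ⟨M, hM⟩ : ∃ M : ℤ, ∀ x ∈ K ∪ K', x.1 < M := by
    obtain ⟨M, hM⟩ := ((hfin.union hfin').image Prod.fst).bddAbove
    exact ⟨M + 1, fun x hx => by
      have := hM ⟨x, hx, rfl⟩
      omega⟩
  have hchi0 : ∀ x y : ℤ × ℤ, M ≤ x.1 → chi K K' x y = 0 := by
    intro x y hx
    unfold chi
    rw [if_neg]
    rintro (⟨h, _⟩ | ⟨h, _⟩)
    · exact absurd (hM x (Or.inl h)) (by omega)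
    · exact absurd (hM x (Or.inr h)) (by omega)
  let f : ℤ × ℤ → ZMod 2 := fun x =>
    ∑ n ∈ Finset.range (M - x.1).toNat, chi K K' (M - 1 - n, x.2) (M - 1 - n + 1, x.2)
  have hf0 : ∀ i j, M ≤ i → f (i, j) = 0 := by
    intro i j hi
    have : (M - i).toNat = 0 := by omega
    simp only [f, this, Finset.range_zero, Finset.sum_empty]
  have hfr : ∀ i j, f (i, j) = f (i + 1, j) + chi K K' (i, j) (i + 1, j) := by
    intro i j
    by_cases hi : M ≤ i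
    · rw [hf0 i j hi, hf0 (i + 1) j (by omega), hchi0 _ _ hi, add_zero]
    · push Not at hi
      have e1 : (M - i).toNat = (M - (i + 1)).toNat + 1 := by omega
      have e2 : M - 1 - (((M - (i + 1)).toNat : ℕ) : ℤ) = i := by omega
      simp only [f]
      rw [e1, Finset.sum_range_succ, e2]
  have hfu : ∀ (n : ℕ) (i j : ℤ), M - n ≤ i → f (i, j) + f (i, j + 1) + chi K K' (i, j) (i, j + 1) = 0 := by
    intro n
    induction n with
    | zero =>
      intro i j hi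
      have hi' : M ≤ i := by simpa using hi
      rw [hf0 i j hi', hf0 i (j + 1) hi', hchi0 _ _ hi', add_zero, add_zero]
    | succ n ih =>
      intro i j hi
      have e1 := ih (i + 1) j (by push_cast at hi ⊢; omega)
      have e2 := heven i j
      rw [hfr i j, hfr i (j + 1)]
      have : f (i + 1, j) + chi K K' (i, j) (i + 1, j) + (f (i + 1, j + 1) + chi K K' (i, j + 1) (i + 1, j + 1))
          + chi K K' (i, j) (i, j + 1) =
          (f (i + 1, j) + f (i + 1, j + 1) + chi K K' (i + 1, j) (i + 1, j + 1)) +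
          (chi K K' (i, j) (i + 1, j) + chi K K' (i + 1, j) (i + 1, j + 1) +
            chi K K' (i, j + 1) (i + 1, j + 1) + chi K K' (i, j) (i, j + 1)) -
          (chi K K' (i + 1, j) (i + 1, j + 1) + chi K K' (i + 1, j) (i + 1, j + 1)) := by ring
      rw [this, e1, e2, h2 (chi K K' (i + 1, j) (i + 1, j + 1))]; ring
  refine ⟨f, fun i j => ?_, fun i j => ?_, M, hf0⟩
  · rw [hfr i j, add_assoc, h2, add_zero]
  · have e1 := hfu (M - i).toNat i j (by omega)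
    have : f (i, j + 1) = (f (i, j) + f (i, j + 1) + chi K K' (i, j) (i, j + 1)) -
      (f (i, j) + f (i, j)) - (chi K K' (i, j) (i, j + 1) + chi K K' (i, j) (i, j + 1)) +
      (f (i, j) + chi K K' (i, j) (i, j + 1)) := by ring
    rw [this, e1, h2 (f (i, j)), h2 (chi K K' (i, j) (i, j + 1))]; ring

/-- indicator of the tiles touching `{f = 1}` -/
noncomputable def tt (f : ℤ × ℤ → ZMod 2) (i j : ℤ) : ZMod 2 :=
  if f (i, j) = 1 ∨ f (i + 1, j) = 1 ∨ f (i, j + 1) = 1 ∨ f (i + 1, j + 1) = 1 then 1 else 0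

theorem zmod2 (x : ZMod 2) : x = 0 ∨ x = 1 := by
  revert x; decide

theorem tt_cases (f : ℤ × ℤ → ZMod 2) (i j : ℤ) :
    (tt f i j = 1 ∧ (f (i, j) = 1 ∨ f (i + 1, j) = 1 ∨ f (i, j + 1) = 1 ∨ f (i + 1, j + 1) = 1)) ∨
    (tt f i j = 0 ∧ f (i, j) = 0 ∧ f (i + 1, j) = 0 ∧ f (i, j + 1) = 0 ∧ f (i + 1, j + 1) = 0) := by
  by_cases h : f (i, j) = 1 ∨ f (i + 1, j) = 1 ∨ f (i, j + 1) = 1 ∨ f (i + 1, j + 1) = 1
  · left
    exact ⟨if_pos h, h⟩
  · right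
    have h' := h
    push Not at h'
    obtain ⟨h1, h2, h3, h4⟩ := h'
    exact ⟨if_neg h, (zmod2 _).resolve_right h1, (zmod2 _).resolve_right h2,
      (zmod2 _).resolve_right h3, (zmod2 _).resolve_right h4⟩

theorem tile_claim (hKc : ∀ x ∈ K, cK x) (hKc' : ∀ x ∈ K', ¬ cK x)
    (hadj : ∀ x y, (∃ k, y = nb k x) → (cK x ↔ cK y) → ((x ∈ K ↔ y ∈ K) ∧ (x ∈ K' ↔ y ∈ K')))
    (hns : NoSaddle cK) (f : ℤ × ℤ → ZMod 2)
    (hfh : ∀ i j, f (i + 1, j) = f (i, j) + chi K K' (i, j) (i + 1, j))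
    (hfv : ∀ i j, f (i, j + 1) = f (i, j) + chi K K' (i, j) (i, j + 1))
    (hK1 : ∀ x ∈ K, f x = 1) (hK0 : ∀ x ∈ K', f x = 0) (i j : ℤ)
    (ht : f (i, j) = 1 ∨ f (i + 1, j) = 1 ∨ f (i, j + 1) = 1 ∨ f (i + 1, j + 1) = 1) :
    (f (i, j) = 0 → (i, j) ∈ K') ∧ (f (i + 1, j) = 0 → (i + 1, j) ∈ K') ∧
      (f (i, j + 1) = 0 → (i, j + 1) ∈ K') ∧ (f (i + 1, j + 1) = 0 → (i + 1, j + 1) ∈ K') := by
  have e2 : f (i + 1, j) = f (i, j) + ch (lab K K' cK (i, j)) (lab K K' cK (i + 1, j)) := by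
    rw [hfh, chi_eq_ch hKc hKc']
  have e4 : f (i, j + 1) = f (i, j) + ch (lab K K' cK (i, j)) (lab K K' cK (i, j + 1)) := by
    rw [hfv, chi_eq_ch hKc hKc']
  have e3 : f (i + 1, j + 1) = f (i, j) + ch (lab K K' cK (i, j)) (lab K K' cK (i + 1, j)) +
      ch (lab K K' cK (i + 1, j)) (lab K K' cK (i + 1, j + 1)) := by
    rw [hfv, e2, chi_eq_ch hKc hKc']
  have hgd : ∀ x, gd (lab K K' cK x) (f x) = true := by
    intro x
    unfold gd
    have g1 : lab K K' cK x = 0 → f x = 1 := fun h => hK1 x ((lab_zero x).mp h)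
    have g2 : lab K K' cK x = 2 → f x = 0 := fun h => hK0 x ((lab_two hKc hKc' x).mp h)
    generalize lab K K' cK x = l at g1 g2
    generalize f x = y at g1 g2
    revert l y; decide
  have hwt : ∀ x, wt (lab K K' cK x) (f x) = true → f x = 0 → x ∈ K' := by
    intro x h1 h2
    rw [← lab_two hKc hKc' x]
    rw [h2] at h1
    generalize lab K K' cK x = l at h1
    revert l; decide
  have hs := saddle_lab hKc hKc' hns i j
  have h1 := hgd (i, j)
  have h2 := hgd (i + 1, j)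
  have h3 := hgd (i + 1, j + 1)
  have h4 := hgd (i, j + 1)
  have o1 := okp_adj hKc hKc' hadj _ _ (nb_right i j)
  have o2 := okp_adj hKc hKc' hadj _ _ (nb_up (i + 1) j)
  have o3 := okp_adj hKc hKc' hadj _ _ (nb_right i (j + 1))
  have o4 := okp_adj hKc hKc' hadj _ _ (nb_up i j)
  have w1 := hwt (i, j)
  have w2 := hwt (i + 1, j)
  have w3 := hwt (i + 1, j + 1)
  have w4 := hwt (i, j + 1)
  rw [e2] at h2 ht w2 ⊢
  rw [e3] at h3 ht w3 ⊢
  rw [e4] at h4 ht w4 ⊢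
  have key := tile_dec2 (lab K K' cK (i, j)) (lab K K' cK (i + 1, j)) (lab K K' cK (i + 1, j + 1))
    (lab K K' cK (i, j + 1)) (f (i, j)) (by
      simp only [o1, o2, o3, o4, h1, h2, h3, h4, Bool.and_eq_true, Bool.or_eq_true, beq_iff_eq,
        Bool.not_eq_true', true_and, and_true]
      refine ⟨?_, ?_⟩
      · by_contra hcon
        apply hs
        simp only [Bool.not_eq_false, Bool.and_eq_true, beq_iff_eq, Bool.not_eq_true',
          beq_eq_false_iff_ne] at hcon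
        exact ⟨hcon.1.1, hcon.1.2, hcon.2⟩
      · rcases ht with h | h | h | h
        · exact Or.inl (Or.inl (Or.inl h))
        · exact Or.inl (Or.inl (Or.inr h))
        · exact Or.inl (Or.inr h)
        · exact Or.inr h)
  simp only [Bool.and_eq_true] at key
  exact ⟨w1 key.1.1.1, w2 key.1.1.2, w4 key.1.2, w3 key.2⟩

end core

end Pool.Agent.W535.TB
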