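import Pool.Agent.W535.TB.Dual

set_option autoImplicit false

namespace Pool.Agent.W535.TB

open scoped BigOperators
open Set

variable {K K' : Set (ℤ × ℤ)} {cK : ℤ × ℤ → Prop}

/-- value of the boundary chain on the horizontal edge at `(i, j)` -/
noncomputable def hE (f : ℤ × ℤ → ZMod 2) (i j : ℤ) : ZMod 2 := tt f i j + tt f i (j - 1)
/-- value of the boundary chain on the vertical edge at `(i, j)` -/
noncomputable def vE (f : ℤ × ℤ → ZMod 2) (i j : ℤ) : ZMod 2 := tt f i j + tt f (i - 1) j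

/-- the boundary chain -/
noncomputable def ZZ (f : ℤ × ℤ → ZMod 2) (k : Fin 4) (w : ℤ × ℤ) : ZMod 2 :=
  if ee w = 0 then ![hE f w.1 w.2, vE f w.1 (w.2 - 1), hE f (w.1 - 1) w.2, vE f w.1 w.2] k
  else ![hE f (w.1 - 1) w.2, vE f w.1 w.2, hE f w.1 w.2, vE f w.1 (w.2 - 1)] k

theorem ZZ_nb (f : ℤ × ℤ → ZMod 2) (k : Fin 4) (w : ℤ × ℤ) : ZZ f k (nb k w) = ZZ f k w := by
  have h1 := ee_nb k w
  unfold ZZ
  rcases ee_cases w with h | h
  · rw [h] at h1
    rw [if_neg (by rw [h1]; decide), if_pos h]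
    rcases fin4 k with rfl | rfl | rfl | rfl <;> simp [nb, h]
  · rw [h] at h1
    rw [if_pos (by rw [h1]; decide), if_neg (by rw [h]; decide)]
    rcases fin4 k with rfl | rfl | rfl | rfl <;> simp [nb, h]

theorem ZZ_sum (f : ℤ × ℤ → ZMod 2) (w : ℤ × ℤ) : ∑ k, ZZ f k w = 0 := by
  have h2 : ∀ x : ZMod 2, x + x = 0 := fun x => CharTwo.add_self_eq_zero x
  have key : hE f w.1 w.2 + hE f (w.1 - 1) w.2 + vE f w.1 w.2 + vE f w.1 (w.2 - 1) = 0 := by
    unfold hE vE
    have : tt f w.1 w.2 + tt f w.1 (w.2 - 1) + (tt f (w.1 - 1) w.2 + tt f (w.1 - 1) (w.2 - 1)) +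
      (tt f w.1 w.2 + tt f (w.1 - 1) w.2) + (tt f w.1 (w.2 - 1) + tt f (w.1 - 1) (w.2 - 1)) =
      (tt f w.1 w.2 + tt f w.1 w.2) + (tt f w.1 (w.2 - 1) + tt f w.1 (w.2 - 1)) +
      (tt f (w.1 - 1) w.2 + tt f (w.1 - 1) w.2) +
      (tt f (w.1 - 1) (w.2 - 1) + tt f (w.1 - 1) (w.2 - 1)) := by ring
    rw [this]; simp only [h2, add_zero]
  unfold ZZ
  rw [Fin.sum_univ_four]
  rcases ee_cases w with h | h
  · simp only [if_pos h]
    rw [← key]; simp; ring
  · simp only [if_neg (show ¬ ee w = 0 by rw [h]; decide)]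
    rw [← key]; simp; ring

theorem dual_cycle (hKc : ∀ x ∈ K, cK x) (hKc' : ∀ x ∈ K', ¬ cK x)
    (hadj : ∀ x y, (∃ k, y = nb k x) → (cK x ↔ cK y) → ((x ∈ K ↔ y ∈ K) ∧ (x ∈ K' ↔ y ∈ K')))
    (hns : NoSaddle cK) (f : ℤ × ℤ → ZMod 2)
    (hfh : ∀ i j, f (i + 1, j) = f (i, j) + chi K K' (i, j) (i + 1, j))
    (hfv : ∀ i j, f (i, j + 1) = f (i, j) + chi K K' (i, j) (i, j + 1))
    (M : ℤ) (hM : ∀ i j, M ≤ i → f (i, j) = 0)
    (hK1 : ∀ x ∈ K, f x = 1) (hK0 : ∀ x ∈ K', f x = 0) (hne : K.Nonempty) :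
    (∀ k w, ZZ f k w ≠ 0 → w ∈ K') ∧ ∃ k w, ZZ f k w ≠ 0 := by
  have hTC := tile_claim hKc hKc' hadj hns f hfh hfv hK1 hK0
  have hh : ∀ i j, hE f i j ≠ 0 → (i, j) ∈ K' ∧ (i + 1, j) ∈ K' := by
    intro i j h
    unfold hE at h
    rcases tt_cases f i j with ⟨a1, a2⟩ | ⟨a1, a2, a3, a4, a5⟩ <;>
      rcases tt_cases f i (j - 1) with ⟨b1, b2⟩ | ⟨b1, b2, b3, b4, b5⟩
    · exact absurd (by rw [a1, b1]; decide) h
    · have := hTC i j a2
      rw [sub_add_cancel] at b4 b5
      exact ⟨this.1 b4, this.2.1 b5⟩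
    · have := hTC i (j - 1) b2
      rw [sub_add_cancel] at this
      exact ⟨this.2.2.1 a2, this.2.2.2 a3⟩
    · exact absurd (by rw [a1, b1]; decide) h
  have hv : ∀ i j, vE f i j ≠ 0 → (i, j) ∈ K' ∧ (i, j + 1) ∈ K' := by
    intro i j h
    unfold vE at h
    rcases tt_cases f i j with ⟨a1, a2⟩ | ⟨a1, a2, a3, a4, a5⟩ <;>
      rcases tt_cases f (i - 1) j with ⟨b1, b2⟩ | ⟨b1, b2, b3, b4, b5⟩
    · exact absurd (by rw [a1, b1]; decide) h
    · have := hTC i j a2
      rw [sub_add_cancel] at b3 b5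
      exact ⟨this.1 b3, this.2.2.1 b5⟩
    · have := hTC (i - 1) j b2
      rw [sub_add_cancel] at this
      exact ⟨this.2.1 a2, this.2.2.2 a4⟩
    · exact absurd (by rw [a1, b1]; decide) h
  constructor
  · intro k w hw
    have e1 : (w.1 - 1 + 1, w.2) = w := by ext <;> simp
    have e2 : (w.1, w.2 - 1 + 1) = w := by ext <;> simp
    unfold ZZ at hw
    rcases ee_cases w with h | h
    · rw [if_pos h] at hw
      rcases fin4 k with rfl | rfl | rfl | rfl
      · exact (hh _ _ hw).1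
      · have := (hv _ _ hw).2; rwa [e2] at this
      · have := (hh _ _ hw).2; rwa [e1] at this
      · exact (hv _ _ hw).1
    · rw [if_neg (by rw [h]; decide)] at hw
      rcases fin4 k with rfl | rfl | rfl | rfl
      · have := (hh _ _ hw).2; rwa [e1] at this
      · exact (hv _ _ hw).1
      · exact (hh _ _ hw).1
      · have := (hv _ _ hw).2; rwa [e2] at this
  · obtain ⟨⟨i0, j0⟩, hx⟩ := hne
    have h1 : tt f i0 j0 = 1 := by
      rcases tt_cases f i0 j0 with ⟨a1, a2⟩ | ⟨a1, a2, a3, a4, a5⟩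
      · exact a1
      · rw [hK1 _ hx] at a2; exact absurd a2 (by decide)
    have hbig : ∀ i, M ≤ i → tt f i j0 = 0 := by
      intro i hi
      rcases tt_cases f i j0 with ⟨a1, a2⟩ | ⟨a1, a2, a3, a4, a5⟩
      · exfalso
        rw [hM i j0 hi, hM (i + 1) j0 (by omega), hM i (j0 + 1) hi, hM (i + 1) (j0 + 1) (by omega)] at a2
        revert a2; decide
      · exact a1
    obtain ⟨i, h3, h4⟩ : ∃ i, tt f i j0 = 1 ∧ tt f (i + 1) j0 = 0 := by
      by_contra hcon
      push Not at hcon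
      have h5 : ∀ n : ℕ, tt f (i0 + n) j0 = 1 := by
        intro n
        induction n with
        | zero => simpa using h1
        | succ n ih =>
          have h6 := hcon _ ih
          have h7 := (zmod2 (tt f (i0 + n + 1) j0)).resolve_left h6
          push_cast
          rwa [← add_assoc]
      have h6 := h5 (M - i0).toNat
      rw [hbig _ (by omega)] at h6
      exact absurd h6 (by decide)
    have h5 : vE f (i + 1) j0 ≠ 0 := by
      unfold vE
      rw [h4, add_sub_cancel_right, h3]; decide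
    rcases ee_cases (i + 1, j0) with h | h
    · refine ⟨3, (i + 1, j0), ?_⟩
      unfold ZZ
      rw [if_pos h]
      exact h5
    · refine ⟨1, (i + 1, j0), ?_⟩
      unfold ZZ
      rw [if_neg (by rw [h]; decide)]
      exact h5

/-- **Planar duality.** Two adjacent vertices of different colours with finite clusters: one of
the clusters carries a nonzero mod 2 cycle. -/
theorem dual_main (col : ℤ × ℤ → Prop) (hns : NoSaddle col) (v v' : ℤ × ℤ) (hvv : ∃ k, v' = nb k v)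
    (hcol : ¬ (col v' ↔ col v)) (hfin : (Cl col v).Finite) (hfin' : (Cl col v').Finite) :
    ∃ u, (u = v ∨ u = v') ∧ ∃ Z : Fin 4 → ℤ × ℤ → ZMod 2, (∀ k w, Z k w ≠ 0 → w ∈ Cl col u) ∧
      (∀ k w, Z k (nb k w) = Z k w) ∧ (∀ w, ∑ k, Z k w = 0) ∧ ∃ k w, Z k w ≠ 0 := by
  -- general set up for an ordered pair
  have hgen : ∀ x y : ℤ × ℤ, ¬ (col y ↔ col x) →
      (∀ w ∈ Cl col x, (col w ↔ col x)) ∧ (∀ w ∈ Cl col y, ¬ (col w ↔ col x)) ∧
      (∀ w u, (∃ k, u = nb k w) → ((col w ↔ col x) ↔ (col u ↔ col x)) →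
        ((w ∈ Cl col x ↔ u ∈ Cl col x) ∧ (w ∈ Cl col y ↔ u ∈ Cl col y))) ∧
      NoSaddle (fun w => (col w ↔ col x)) := by
    intro x y hxy
    refine ⟨fun w hw => Cl_col hw, fun w hw h => hxy ((Cl_col hw).symm.trans h), ?_, ?_⟩
    · intro w u hk hc
      have hadj : Adj col w u := by
        refine ⟨hk, ?_⟩
        by_cases c1 : col x <;> by_cases c2 : col w <;> by_cases c3 : col u <;> simp_all
      exact ⟨Cl_mem_iff hadj, Cl_mem_iff hadj⟩
    · intro i j h
      apply hns i j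
      obtain ⟨h1, h2, h3⟩ := h
      have h1' : (col (i, j) ↔ col x) ↔ (col (i + 1, j + 1) ↔ col x) := h1
      have h2' : (col (i + 1, j) ↔ col x) ↔ (col (i, j + 1) ↔ col x) := h2
      have h3' : ¬ ((col (i, j) ↔ col x) ↔ (col (i + 1, j) ↔ col x)) := h3
      clear h1 h2 h3 hxy hns hvv hcol
      refine ⟨?_, ?_, ?_⟩
      · clear h2' h3'; tauto
      · clear h1' h3'; tauto
      · clear h1' h2'; tauto
  obtain ⟨g1, g2, g3, g4⟩ := hgen v v' hcol
  obtain ⟨f, hfh, hfv, M, hM⟩ := exists_prim hfin hfin' (tile_even g1 g2 g3 g4)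
  -- `f` changes along an edge by `chi`
  have hstep : ∀ w k, f (nb k w) = f w + chi (Cl col v) (Cl col v') w (nb k w) := by
    have h2 : ∀ x : ZMod 2, x + x = 0 := fun x => CharTwo.add_self_eq_zero x
    have hback1 : ∀ i j, f (i - 1, j) = f (i, j) + chi (Cl col v) (Cl col v') (i, j) (i - 1, j) := by
      intro i j
      have := hfh (i - 1) j
      rw [sub_add_cancel] at this
      rw [this, chi_comm _ _ (i, j), add_assoc, h2, add_zero]
    have hback2 : ∀ i j, f (i, j - 1) = f (i, j) + chi (Cl col v) (Cl col v') (i, j) (i, j - 1) := by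
      intro i j
      have := hfv i (j - 1)
      rw [sub_add_cancel] at this
      rw [this, chi_comm _ _ (i, j), add_assoc, h2, add_zero]
    rintro ⟨i, j⟩ k
    rcases ee_cases (i, j) with h | h
    · rw [nb, if_pos h]
      rcases fin4 k with rfl | rfl | rfl | rfl
      · exact hfh i j
      · exact hback2 i j
      · exact hback1 i j
      · exact hfv i j
    · rw [nb, if_neg (by rw [h]; decide)]
      rcases fin4 k with rfl | rfl | rfl | rfl
      · exact hback1 i j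
      · exact hfv i j
      · exact hfh i j
      · exact hback2 i j
  -- `f` is constant on clusters
  have hconst : ∀ u w, w ∈ Cl col u → f w = f u := by
    intro u w hw
    induction hw with
    | refl => rfl
    | tail _ h2 ih =>
      obtain ⟨⟨k, rfl⟩, hc⟩ := h2
      rw [hstep, ih]
      have : chi (Cl col v) (Cl col v') _ (nb k _) = 0 := if_neg (by
        rintro (⟨e1, e2⟩ | ⟨e1, e2⟩)
        · exact g2 _ e2 (hc.trans (g1 _ e1))
        · exact g2 _ e1 (hc.symm.trans (g1 _ e2)))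
      rw [this, add_zero]
  have hne : f v' = f v + 1 := by
    obtain ⟨k, hk⟩ := hvv
    have := hstep v k
    rw [← hk] at this
    rw [this]
    congr 1
    exact if_pos (Or.inl ⟨Cl_self v, Cl_self v'⟩)
  rcases zmod2 (f v) with h0 | h1
  · -- `f = 1` on the cluster of `v'`
    have hv1 : f v' = 1 := by rw [hne, h0]; decide
    have hcol' : ¬ (col v ↔ col v') := fun h => hcol h.symm
    obtain ⟨k1, k2, k3, k4⟩ := hgen v' v hcol'
    have := dual_cycle k1 k2 k3 k4 f (fun i j => by rw [hfh, chi_swap]) (fun i j => by rw [hfv, chi_swap])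
      M hM (fun x hx => by rw [hconst _ _ hx, hv1]) (fun x hx => by rw [hconst _ _ hx, h0])
      ⟨v', Cl_self v'⟩
    exact ⟨v, Or.inl rfl, ZZ f, this.1, ZZ_nb f, ZZ_sum f, this.2⟩
  · have hv1 : f v' = 0 := by rw [hne, h1]; decide
    have := dual_cycle g1 g2 g3 g4 f hfh hfv
      M hM (fun x hx => by rw [hconst _ _ hx, h1]) (fun x hx => by rw [hconst _ _ hx, hv1])
      ⟨v, Cl_self v⟩
    exact ⟨v', Or.inr rfl, ZZ f, this.1, ZZ_nb f, ZZ_sum f, this.2⟩

end Pool.Agent.W535.TB
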