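import Mathlib

set_option autoImplicit false

namespace Pool.Agent.W535.TB

open scoped BigOperators
open Set

/-- **Flip lemma.** A finite set `P` of points with real positions, finitely many flips `φ i` reversing
the interval `T i` (`x ↦ c i - x`), with an affine potential `f` that makes the flips independent.
Then the graph of the flips on `P` carries no nonzero mod 2 cycle. -/
theorem flip_acyclic {P I A : Type} [Fintype P] [Fintype I] [AddCommGroup A] [IsAddTorsionFree A]
    (pos : P → ℝ) (f : P → A) :
    ∀ (n : ℕ) (T : I → Set ℝ) (c : I → ℝ) (φ : I → P → P) (b : I → A),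
      (∀ i, (T i).OrdConnected) →
      (∀ i x, x ∈ T i → c i - x ∈ T i) →
      (∀ i v, pos v ∈ T i → pos (φ i v) = c i - pos v) →
      (∀ i v, pos v ∈ T i → φ i (φ i v) = v) →
      (∀ i v, pos v ∈ T i → f (φ i v) = b i - f v) →
      (∀ i j, i ≠ j → ∀ a : A, b i - b j ≠ a + a) →
      (∑ i, Nat.card {v // pos v ∈ T i} = n) →
      ∀ z : I → P → ZMod 2,
        (∀ i v, pos v ∉ T i → z i v = 0) →
        (∀ i v, pos v ∈ T i → z i (φ i v) = z i v) →
        (∀ v, ∑ i, z i v = 0) →
        ∀ i v, z i v = 0 := by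
  classical
  intro n
  induction n using Nat.strong_induction_on with
  | _ n ih =>
  intro T c φ b hT hTc hpos hinv hf hb hn z hz0 hzφ hzc
  by_cases hcov : ∃ v, ∃ i, pos v ∈ T i
  swap
  · push Not at hcov
    intro i v
    exact hz0 i v (hcov v i)
  -- the rightmost covered vertex
  obtain ⟨v0, hv0, hmax⟩ : ∃ v0, (∃ i, pos v0 ∈ T i) ∧ ∀ v, (∃ i, pos v ∈ T i) → pos v ≤ pos v0 := by
    have hne : (Finset.univ.filter (fun v => ∃ i, pos v ∈ T i)).Nonempty := by
      obtain ⟨v, hv⟩ := hcov
      exact ⟨v, by simpa using hv⟩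
    obtain ⟨v0, h1, h2⟩ := Finset.exists_max_image _ pos hne
    refine ⟨v0, by simpa using h1, fun v hv => h2 v (by simpa using hv)⟩
  set R := pos v0 with hR
  -- the largest interval among those covering `R`
  obtain ⟨i0, hi0, hmin⟩ : ∃ i0, R ∈ T i0 ∧ ∀ j, R ∈ T j → c i0 ≤ c j := by
    have hne : (Finset.univ.filter (fun i => R ∈ T i)).Nonempty := by
      obtain ⟨i, hi⟩ := hv0
      exact ⟨i, by simpa using hi⟩
    obtain ⟨i0, h1, h2⟩ := Finset.exists_min_image _ c hne
    refine ⟨i0, by simpa using h1, fun v hv => h2 v (by simpa using hv)⟩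
  have hposT : ∀ i v, pos v ∈ T i → pos (φ i v) ∈ T i := by
    intro i v hv
    rw [hpos i v hv]; exact hTc i _ hv
  have hle : ∀ i v, pos v ∈ T i → pos v ≤ R := fun i v hv => hmax v ⟨i, hv⟩
  have hge : ∀ i v, pos v ∈ T i → c i - R ≤ pos v := by
    intro i v hv
    have h1 := hle i (φ i v) (hposT i v hv)
    rw [hpos i v hv] at h1
    linarith
  have hIcc : ∀ j, R ∈ T j → ∀ x, c j - R ≤ x → x ≤ R → x ∈ T j := by
    intro j hj x h1 h2
    exact (hT j).out (hTc j R hj) hj ⟨h1, h2⟩
  have hcR : ∀ j, R ∈ T j → c j - R ≤ R := fun j hj => hge j v0 hj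
  -- strictness
  have hstrict : ∀ j, j ≠ i0 → R ∈ T j → c i0 < c j := by
    intro j hj hRj
    refine lt_of_le_of_ne (hmin j hRj) ?_
    intro heq
    have key : ∀ m : ℕ, pos ((fun v => φ i0 (φ j v))^[m] v0) = R ∧
        f ((fun v => φ i0 (φ j v))^[m] v0) = f v0 + m • (b i0 - b j) := by
      intro m
      induction m with
      | zero => simp [hR]
      | succ m ihm =>
        obtain ⟨h1, h2⟩ := ihm
        rw [Function.iterate_succ_apply']
        set w := (fun v => φ i0 (φ j v))^[m] v0 with hw
        have e1 : pos w ∈ T j := by rw [h1]; exact hRj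
        have e2 : pos (φ j w) = c j - R := by rw [hpos j w e1, h1]
        have e3 : pos (φ j w) ∈ T i0 := by rw [e2, ← heq]; exact hTc i0 R hi0
        refine ⟨?_, ?_⟩
        · show pos (φ i0 (φ j w)) = R
          rw [hpos i0 _ e3, e2, heq]; ring
        · show f (φ i0 (φ j w)) = _
          rw [hf i0 _ e3, hf j w e1, h2, succ_nsmul]; abel
    have hinj : Function.Injective (fun m : ℕ => (fun v => φ i0 (φ j v))^[m] v0) := by
      intro m m' hmm
      have h1 : f v0 + m • (b i0 - b j) = f v0 + m' • (b i0 - b j) := by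
        rw [← (key m).2, ← (key m').2]
        exact congrArg f hmm
      have h2 : m • (b i0 - b j) = m' • (b i0 - b j) := add_left_cancel h1
      have h3 : b i0 - b j ≠ 0 := by
        have := hb i0 j (Ne.symm hj) 0
        simpa using this
      have h4 : ((m : ℤ) - (m' : ℤ)) • (b i0 - b j) = 0 := by
        rw [sub_smul, natCast_zsmul, natCast_zsmul, h2, sub_self]
      rcases IsAddTorsionFree.zsmul_eq_zero_iff.mp h4 with h5 | h5
      · exact absurd h5 h3
      · omega
    exact not_injective_infinite_finite _ hinj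
  -- the flips which get slid over `i0`
  set q : I → Prop := fun k => k ≠ i0 ∧ R ∈ T k with hq
  have hqi0 : ¬ q i0 := fun h => h.1 rfl
  set T' : I → Set ℝ := fun k =>
    if q k then Icc (c i0 - R) (c i0 - c k + R)
    else if k = i0 then T i0 ∩ Ioo (c i0 - R) R else T k with hT'def
  set c' : I → ℝ := fun k => if q k then 2 * c i0 - c k else c k with hc'def
  set φ' : I → P → P := fun k => if q k then (fun v => φ i0 (φ k (φ i0 v))) else φ k with hφ'def
  set b' : I → A := fun k => if q k then (b i0 + b i0) - b k else b k with hb'def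
  have hT'q : ∀ k, q k → T' k = Icc (c i0 - R) (c i0 - c k + R) := fun k hk => if_pos hk
  have hT'i : T' i0 = T i0 ∩ Ioo (c i0 - R) R := by simp only [hT'def, if_neg hqi0, if_true]
  have hT'o : ∀ k, ¬ q k → k ≠ i0 → T' k = T k := fun k hk hk2 => by
    simp only [hT'def, if_neg hk, if_neg hk2]
  -- basic facts about points of slid intervals
  have hsl : ∀ k v, q k → pos v ∈ T' k → pos v ∈ T i0 ∧ pos (φ i0 v) = c i0 - pos v ∧
      pos (φ i0 v) ∈ T k ∧ pos (φ k (φ i0 v)) = c k - c i0 + pos v ∧
      pos (φ k (φ i0 v)) ∈ T i0 := by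
    intro k v hk hv
    rw [hT'q k hk] at hv
    obtain ⟨h1, h2⟩ := hv
    have h3 := hstrict k hk.1 hk.2
    have e1 : pos v ∈ T i0 := hIcc i0 hi0 _ h1 (by linarith)
    have e2 : pos (φ i0 v) = c i0 - pos v := hpos i0 v e1
    have e3 : pos (φ i0 v) ∈ T k := hIcc k hk.2 _ (by linarith) (by linarith)
    have e4 : pos (φ k (φ i0 v)) = c k - c i0 + pos v := by
      rw [hpos k _ e3, e2]; ring
    exact ⟨e1, e2, e3, e4, hIcc i0 hi0 _ (by linarith) (by linarith)⟩
  have hback : ∀ k v, q k → pos v ∈ T k → pos v ∈ T i0 ∧ pos (φ i0 v) ∈ T' k := by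
    intro k v hk hv
    have h1 := hle k v hv
    have h2 := hge k v hv
    have h3 := hstrict k hk.1 hk.2
    have e1 : pos v ∈ T i0 := hIcc i0 hi0 _ (by linarith) h1
    refine ⟨e1, ?_⟩
    rw [hT'q k hk, hpos i0 v e1]
    exact ⟨by linarith, by linarith⟩
  -- the new chain
  set D : I → P → ZMod 2 := fun k v => if q k then (if pos v ∈ T i0 then z k v + z k (φ i0 v) else 0)
    else 0 with hDdef
  set z' : I → P → ZMod 2 := fun k v => z k v + D k v + (if k = i0 then ∑ l, D l v else 0) with hz'def
  have hDn : ∀ k v, ¬ q k → D k v = 0 := fun k v hk => if_neg hk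
  have hDq : ∀ k v, q k → pos v ∈ T i0 → D k v = z k v + z k (φ i0 v) := fun k v hk hv => by
    simp only [hDdef, if_pos hk, if_pos hv]
  have hD0 : ∀ k v, pos v ∉ T i0 → D k v = 0 := fun k v hv => by
    simp only [hDdef, if_neg hv, ite_self]
  have h2 : ∀ x : ZMod 2, x + x = 0 := fun x => CharTwo.add_self_eq_zero x
  have hz'q : ∀ k v, q k → pos v ∈ T i0 → z' k v = z k (φ i0 v) := by
    intro k v hk hv
    simp only [hz'def, if_neg hk.1, hDq k v hk hv]
    rw [← add_assoc, h2, zero_add, add_zero]
  have hz'q0 : ∀ k v, q k → pos v ∉ T i0 → z' k v = 0 := by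
    intro k v hk hv
    simp only [hz'def, if_neg hk.1, hD0 k v hv]
    have : pos v ∉ T k := fun h => hv (hback k v hk h).1
    rw [hz0 k v this]; simp
  have hz'o : ∀ k v, ¬ q k → k ≠ i0 → z' k v = z k v := by
    intro k v hk hk2
    simp only [hz'def, if_neg hk2, hDn k v hk, add_zero]
  have hz'i : ∀ v, z' i0 v = z i0 v + ∑ l, D l v := by
    intro v
    simp only [hz'def, hDn i0 v hqi0, add_zero, if_true]
  have hz'c : ∀ v, ∑ k, z' k v = 0 := by
    intro v
    simp only [hz'def, Finset.sum_add_distrib, Finset.sum_ite_eq', Finset.mem_univ, if_true, hzc v,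
      zero_add, h2]
  have hz'φi : ∀ v, pos v ∈ T i0 → z' i0 (φ i0 v) = z' i0 v := by
    intro v hv
    rw [hz'i, hz'i, hzφ i0 v hv]
    congr 1
    refine Finset.sum_congr rfl fun l _ => ?_
    by_cases hl : q l
    · rw [hDq l v hl hv, hDq l _ hl (hposT i0 v hv), hinv i0 v hv, add_comm]
    · rw [hDn l _ hl, hDn l _ hl]
  have hz'R : ∀ v, pos v ∈ T i0 → pos v = R → z' i0 v = 0 := by
    intro v hv hvR
    have h3 : ∑ k, z' k v = z' i0 v := by
      refine Finset.sum_eq_single i0 (fun k _ hk => ?_) (fun h => absurd (Finset.mem_univ _) h)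
      by_cases hqk : q k
      · rw [hz'q k v hqk hv]
        apply hz0
        intro hmem
        have h4 := hge k _ hmem
        rw [hpos i0 v hv, hvR] at h4
        have := hstrict k hqk.1 hqk.2
        linarith
      · rw [hz'o k v hqk hk]
        apply hz0
        intro hmem
        rw [hvR] at hmem
        exact hqk ⟨hk, hmem⟩
    rw [← h3, hz'c v]
  have hz'i0 : ∀ v, pos v ∉ T' i0 → z' i0 v = 0 := by
    intro v hv
    rw [hT'i] at hv
    by_cases hvT : pos v ∈ T i0
    · have h3 := hle i0 v hvT
      have h4 := hge i0 v hvT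
      by_cases h5 : pos v = R
      · exact hz'R v hvT h5
      · by_cases h6 : pos v = c i0 - R
        · rw [← hz'φi v hvT]
          apply hz'R _ (hposT i0 v hvT)
          rw [hpos i0 v hvT, h6]; ring
        · exfalso
          exact hv ⟨hvT, lt_of_le_of_ne h4 (Ne.symm h6), lt_of_le_of_ne h3 h5⟩
    · rw [hz'i, hz0 i0 v hvT, zero_add]
      exact Finset.sum_eq_zero fun l _ => hD0 l v hvT
  -- apply the induction hypothesis
  have hmeas : ∑ k, Nat.card {v // pos v ∈ T' k} < n := by
    rw [← hn]
    refine Finset.sum_lt_sum (fun k _ => ?_) ⟨i0, Finset.mem_univ _, ?_⟩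
    · by_cases hqk : q k
      · refine Nat.card_le_card_of_injective
          (fun v : {v // pos v ∈ T' k} => (⟨φ i0 v.1, (hsl k v.1 hqk v.2).2.2.1⟩ : {v // pos v ∈ T k})) ?_
        intro v w hvw
        have h3 : φ i0 v.1 = φ i0 w.1 := congrArg Subtype.val hvw
        have h4 := congrArg (φ i0) h3
        rw [hinv i0 _ (hsl k v.1 hqk v.2).1, hinv i0 _ (hsl k w.1 hqk w.2).1] at h4
        exact Subtype.ext h4
      · by_cases hk : k = i0
        · subst hk
          have hsub : ∀ v, pos v ∈ T' k → pos v ∈ T k := fun v hv => by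
            rw [hT'i] at hv; exact hv.1
          refine Nat.card_le_card_of_injective
            (fun v : {v // pos v ∈ T' k} => (⟨v.1, hsub v.1 v.2⟩ : {v // pos v ∈ T k})) ?_
          intro v w hvw
          exact Subtype.ext (Subtype.mk.inj hvw)
        · rw [hT'o k hqk hk]
    · have hsub : {v | pos v ∈ T' i0} ⊂ {v | pos v ∈ T i0} := by
        refine ⟨fun v hv => ?_, fun hh => ?_⟩
        · have : pos v ∈ T' i0 := hv
          rw [hT'i] at this
          exact this.1
        · have h3 : v0 ∈ {v | pos v ∈ T' i0} := hh hi0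
          have h4 : pos v0 ∈ T' i0 := h3
          rw [hT'i] at h4
          exact absurd h4.2.2 (lt_irrefl _)
      have := Set.ncard_lt_ncard hsub (Set.toFinite _)
      exact this
  have hz'0 : ∀ k v, z' k v = 0 := by
    refine ih _ hmeas T' c' φ' b' ?_ ?_ ?_ ?_ ?_ ?_ rfl z' ?_ ?_ hz'c
    · intro k
      by_cases hqk : q k
      · rw [hT'q k hqk]; exact Set.ordConnected_Icc
      · by_cases hk : k = i0
        · subst hk; rw [hT'i]; exact (hT k).inter Set.ordConnected_Ioo
        · rw [hT'o k hqk hk]; exact hT k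
    · intro k x hx
      by_cases hqk : q k
      · rw [hT'q k hqk] at hx ⊢
        simp only [hc'def, if_pos hqk]
        exact ⟨by linarith [hx.2], by linarith [hx.1]⟩
      · simp only [hc'def, if_neg hqk]
        by_cases hk : k = i0
        · subst hk
          rw [hT'i] at hx ⊢
          exact ⟨hTc k x hx.1, by linarith [hx.2.2], by linarith [hx.2.1]⟩
        · rw [hT'o k hqk hk] at hx ⊢
          exact hTc k x hx
    · intro k v hv
      by_cases hqk : q k
      · obtain ⟨e1, e2, e3, e4, e5⟩ := hsl k v hqk hv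
        simp only [hc'def, hφ'def, if_pos hqk]
        rw [hpos i0 _ e5, e4]; ring
      · simp only [hc'def, hφ'def, if_neg hqk]
        by_cases hk : k = i0
        · subst hk
          rw [hT'i] at hv
          exact hpos k v hv.1
        · rw [hT'o k hqk hk] at hv
          exact hpos k v hv
    · intro k v hv
      by_cases hqk : q k
      · obtain ⟨e1, e2, e3, e4, e5⟩ := hsl k v hqk hv
        simp only [hφ'def, if_pos hqk]
        rw [hinv i0 _ e5, hinv k _ e3, hinv i0 _ e1]
      · simp only [hφ'def, if_neg hqk]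
        by_cases hk : k = i0
        · subst hk
          rw [hT'i] at hv
          exact hinv k v hv.1
        · rw [hT'o k hqk hk] at hv
          exact hinv k v hv
    · intro k v hv
      by_cases hqk : q k
      · obtain ⟨e1, e2, e3, e4, e5⟩ := hsl k v hqk hv
        simp only [hφ'def, hb'def, if_pos hqk]
        rw [hf i0 _ e5, hf k _ e3, hf i0 _ e1]; abel
      · simp only [hφ'def, hb'def, if_neg hqk]
        by_cases hk : k = i0
        · subst hk
          rw [hT'i] at hv
          exact hf k v hv.1
        · rw [hT'o k hqk hk] at hv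
          exact hf k v hv
    · have hb2 : ∀ k, ∃ a, b' k = b k + (a + a) := by
        intro k
        by_cases hqk : q k
        · refine ⟨b i0 - b k, ?_⟩
          simp only [hb'def, if_pos hqk]; abel
        · refine ⟨0, ?_⟩
          simp only [hb'def, if_neg hqk]; abel
      intro i j hij a ha
      obtain ⟨a1, h3⟩ := hb2 i
      obtain ⟨a2, h4⟩ := hb2 j
      apply hb i j hij (a - a1 + a2)
      rw [h3, h4] at ha
      have : b i - b j = (a + a) - (a1 + a1) + (a2 + a2) := by rw [← ha]; abel
      rw [this]; abel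
    · intro k v hv
      by_cases hqk : q k
      · by_cases hvT : pos v ∈ T i0
        · rw [hz'q k v hqk hvT]
          apply hz0
          intro hmem
          apply hv
          have := (hback k _ hqk hmem).2
          rwa [hinv i0 v hvT] at this
        · exact hz'q0 k v hqk hvT
      · by_cases hk : k = i0
        · subst hk; exact hz'i0 v hv
        · rw [hz'o k v hqk hk]
          rw [hT'o k hqk hk] at hv
          exact hz0 k v hv
    · intro k v hv
      by_cases hqk : q k
      · obtain ⟨e1, e2, e3, e4, e5⟩ := hsl k v hqk hv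
        simp only [hφ'def, if_pos hqk]
        rw [hz'q k v hqk e1, hz'q k _ hqk (hposT i0 _ e5), hinv i0 _ e5, hzφ k _ e3]
      · simp only [hφ'def, if_neg hqk]
        by_cases hk : k = i0
        · subst hk
          rw [hT'i] at hv
          exact hz'φi v hv.1
        · rw [hT'o k hqk hk] at hv
          rw [hz'o k v hqk hk, hz'o k _ hqk hk]
          exact hzφ k v hv
  have hzq : ∀ k v, q k → z k v = 0 := by
    intro k v hk
    by_cases hv : pos v ∈ T k
    · have h3 := (hback k v hk hv).1
      have h4 := hz'q k (φ i0 v) hk (hposT i0 v h3)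
      rw [hinv i0 v h3, hz'0] at h4
      exact h4.symm
    · exact hz0 k v hv
  intro k v
  by_cases hqk : q k
  · exact hzq k v hqk
  · by_cases hk : k = i0
    · subst hk
      have h3 := hz'i v
      rw [hz'0, Finset.sum_eq_zero, add_zero] at h3
      · exact h3.symm
      · intro l _
        by_cases hl : q l
        · by_cases hv : pos v ∈ T k
          · rw [hDq l v hl hv, hzq l _ hl, hzq l _ hl, add_zero]
          · exact hD0 l v hv
        · exact hDn l v hl
    · rw [← hz'o k v hqk hk]; exact hz'0 k v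

end Pool.Agent.W535.TB
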