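import Pool.Agent.W535.TB.Tile2

set_option autoImplicit false

namespace Pool.Agent.W535.TB

open scoped BigOperators
open Set ComplexConjugate

/-- partial sums of the arcs -/
def ss (a : Fin 4 → ℝ) (k : Fin 4) : ℝ := ![0, a 0, a 0 + a 1, a 0 + a 1 + a 2] k

theorem sg_cor (T : ℤ × ℤ) (k : Fin 4) : ((sg k (cor T k) : ℤ) : ℝ) = sT T := by
  obtain ⟨i, j⟩ := T
  rcases ee_cases (i, j) with h | h
  · have h1 : ee (i + 1, j) = 1 := by simp [ee] at h ⊢; omega
    have h2 : ee (i + 1, j + 1) = 0 := by simp [ee] at h ⊢; omega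
    have h3 : ee (i, j + 1) = 1 := by simp [ee] at h ⊢; omega
    rcases fin4 k with rfl | rfl | rfl | rfl <;>
      simp [cor, h, sg, sT, h1, h2, h3]
  · have h1 : ee (i + 1, j) = 0 := by simp [ee] at h ⊢; omega
    have h2 : ee (i + 1, j + 1) = 1 := by simp [ee] at h ⊢; omega
    have h3 : ee (i, j + 1) = 0 := by simp [ee] at h ⊢; omega
    rcases fin4 k with rfl | rfl | rfl | rfl <;>
      simp [cor, h, sg, sT, h1, h2, h3]

theorem th_cor_succ (a : Fin 4 → ℝ) (hs : a 0 + a 1 + a 2 + a 3 = 1) (T : ℤ × ℤ) (k : Fin 4) :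
    th a (cor T (k + 1)) = th a (cor T k) + sT T * a k + (corr k (cor T k) : ℤ) := by
  rw [← nb_cor, th_nb a hs]
  unfold del
  rw [sg_cor]

theorem th_cor (a : Fin 4 → ℝ) (hs : a 0 + a 1 + a 2 + a 3 = 1) (T : ℤ × ℤ) (k : Fin 4) :
    ∃ n : ℤ, th a (cor T k) = th a (cor T 0) + sT T * ss a k + n := by
  have e0 := th_cor_succ a hs T 0
  have e1 := th_cor_succ a hs T 1
  have e2 := th_cor_succ a hs T 2
  rw [show (0 : Fin 4) + 1 = 1 from rfl] at e0
  rw [show (1 : Fin 4) + 1 = 2 from rfl] at e1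
  rw [show (2 : Fin 4) + 1 = 3 from rfl] at e2
  rcases fin4 k with rfl | rfl | rfl | rfl
  · exact ⟨0, by simp [ss]⟩
  · exact ⟨corr 0 (cor T 0), by rw [e0]; simp [ss]⟩
  · exact ⟨corr 0 (cor T 0) + corr 1 (cor T 1), by rw [e1, e0]; simp [ss]; ring⟩
  · exact ⟨corr 0 (cor T 0) + corr 1 (cor T 1) + corr 2 (cor T 2), by
      rw [e2, e1, e0]; simp [ss]; ring⟩

/-- the fold map of the tile `T` -/
noncomputable def fold (P : Fin 4 → ℂ) (c : ℂ) (r θ : ℝ) (a : Fin 4 → ℝ) (T : ℤ × ℤ) (z : ℂ) : ℂ :=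
  if ee T = 0 then U (th a (cor T 0)) * ((loc P T z - c) / r)
  else U (2 * θ + th a (cor T 0)) * conj ((loc P T z - c) / r)

variable {P : Fin 4 → ℂ} {c : ℂ} {r θ : ℝ} {a : Fin 4 → ℝ}

theorem fold_cor (hr : 0 < r) (hs : a 0 + a 1 + a 2 + a 3 = 1)
    (hP : ∀ k, P k = c + r * U (θ + ss a k)) (T : ℤ × ℤ) (k : Fin 4) :
    fold P c r θ a T (Vx P (cor T k)) = U (θ + th a (cor T k)) := by
  have hr' : (r : ℂ) ≠ 0 := by exact_mod_cast hr.ne'
  obtain ⟨n, hn⟩ := th_cor a hs T k
  have e : (loc P T (Vx P (cor T k)) - c) / r = U (θ + ss a k) := by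
    rw [loc_cor, hP k, add_sub_cancel_left, mul_div_cancel_left₀ _ hr']
  unfold fold
  rw [e]
  split_ifs with h
  · rw [← U_add]
    have hsT : sT T = 1 := by unfold sT; rw [if_pos h]
    rw [hsT] at hn
    have : θ + th a (cor T k) = th a (cor T 0) + (θ + ss a k) + (n : ℤ) := by rw [hn]; ring
    rw [this, U_add_int]
  · rw [U_conj, ← U_add]
    have hsT : sT T = -1 := by unfold sT; rw [if_neg h]
    rw [hsT] at hn
    have : θ + th a (cor T k) = 2 * θ + th a (cor T 0) + -(θ + ss a k) + (n : ℤ) := by rw [hn]; ring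
    rw [this, U_add_int]

theorem loc_sub (T : ℤ × ℤ) (z z' : ℂ) : loc P T z - loc P T z' = (sT T : ℂ) * (z - z') := by
  unfold loc; ring

theorem fold_even (T : ℤ × ℤ) (h : ee T = 0) (z z' : ℂ) :
    fold P c r θ a T z - fold P c r θ a T z' =
      (U (th a (cor T 0)) * (sT T : ℂ) / r) * (z - z') := by
  unfold fold
  rw [if_pos h, if_pos h]
  have := loc_sub (P := P) T z z'
  linear_combination (U (th a (cor T 0)) / r) * this

theorem fold_odd (T : ℤ × ℤ) (h : ¬ ee T = 0) (z z' : ℂ) :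
    fold P c r θ a T z - fold P c r θ a T z' =
      (U (2 * θ + th a (cor T 0)) * (sT T : ℂ) / r) * conj (z - z') := by
  unfold fold
  rw [if_neg h, if_neg h]
  have h1 := congrArg conj (loc_sub (P := P) T z z')
  rw [map_sub, map_mul, Complex.conj_ofReal] at h1
  rw [map_div₀, map_div₀, map_sub, map_sub, Complex.conj_ofReal]
  linear_combination (U (2 * θ + th a (cor T 0)) / r) * h1

theorem fold_comb (T : ℤ × ℤ) (x z : ℂ) (s t : ℝ) (hst : s + t = 1) :
    fold P c r θ a T (s • x + t • z) = s • fold P c r θ a T x + t • fold P c r θ a T z := by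
  have hst' : (s : ℂ) + t = 1 := by exact_mod_cast hst
  have e : s • x + t • z - z = (s : ℂ) * (x - z) := by
    simp only [Complex.real_smul]; linear_combination z * hst'
  have e2 : ∀ w w' : ℂ, s • w + t • w' - w' = (s : ℂ) * (w - w') := by
    intro w w'; simp only [Complex.real_smul]; linear_combination w' * hst'
  by_cases h : ee T = 0
  · have h1 := fold_even (P := P) (c := c) (r := r) (θ := θ) (a := a) T h (s • x + t • z) z
    have h2 := fold_even (P := P) (c := c) (r := r) (θ := θ) (a := a) T h x z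
    have h3 := e2 (fold P c r θ a T x) (fold P c r θ a T z)
    rw [e] at h1
    linear_combination h1 - h3 - (s : ℂ) * h2
  · have h1 := fold_odd (P := P) (c := c) (r := r) (θ := θ) (a := a) T h (s • x + t • z) z
    have h2 := fold_odd (P := P) (c := c) (r := r) (θ := θ) (a := a) T h x z
    have h3 := e2 (fold P c r θ a T x) (fold P c r θ a T z)
    rw [e, map_mul, Complex.conj_ofReal] at h1
    linear_combination h1 - h3 - (s : ℂ) * h2

/-- refraction across a common edge, abstract form -/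
theorem refr1 (F F' : ℂ → ℂ) (κ κ' X Y p0 p q : ℂ) (l : ℝ)
    (hF : ∀ z z', F z - F z' = κ * (z - z')) (hF' : ∀ z z', F' z - F' z' = κ' * conj (z - z'))
    (hX : F X = F' X) (hY : F Y = F' Y) (hXY : Y - X ≠ 0)
    (hl : (q - p) * conj (Y - X) = (l : ℂ) * (-((Y - X) * conj (p - p0)))) :
    F' q - F' p = -(l : ℂ) * (F p - F p0) := by
  have e : κ * (Y - X) = κ' * conj (Y - X) := by
    rw [← hF, ← hF', hX, hY]
  have hl' := congrArg conj hl
  simp only [map_mul, map_neg, Complex.conj_ofReal, Complex.conj_conj] at hl'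
  rw [hF, hF']
  apply mul_left_cancel₀ hXY
  linear_combination κ' * hl' + (l : ℂ) * (p - p0) * e

theorem refr2 (F F' : ℂ → ℂ) (κ κ' X Y p0 p q : ℂ) (l : ℝ)
    (hF : ∀ z z', F z - F z' = κ * conj (z - z')) (hF' : ∀ z z', F' z - F' z' = κ' * (z - z'))
    (hX : F X = F' X) (hY : F Y = F' Y) (hXY : Y - X ≠ 0)
    (hl : (q - p) * conj (Y - X) = (l : ℂ) * (-((Y - X) * conj (p - p0)))) :
    F' q - F' p = -(l : ℂ) * (F p - F p0) := by
  have e : κ * conj (Y - X) = κ' * (Y - X) := by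
    rw [← hF, ← hF', hX, hY]
  have hXY' : conj (Y - X) ≠ 0 := by
    rw [Ne, map_eq_zero]; exact hXY
  rw [hF, hF']
  apply mul_left_cancel₀ hXY'
  linear_combination κ' * hl + (l : ℂ) * conj (p - p0) * e

end Pool.Agent.W535.TB
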