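import Pool.Agent.W535.TB.Flip

set_option autoImplicit false

namespace Pool.Agent.W535.TB

open scoped BigOperators
open Set

theorem fin4 (k : Fin 4) : k = 0 ∨ k = 1 ∨ k = 2 ∨ k = 3 := by
  fin_cases k <;> simp

/-- parity of a vertex -/
def ee (v : ℤ × ℤ) : ℤ := (v.1 + v.2) % 2
/-- first diagonal coordinate -/
def pp (v : ℤ × ℤ) : ℤ := (v.1 + v.2) / 2
/-- second diagonal coordinate -/
def qq (v : ℤ × ℤ) : ℤ := (v.1 - v.2) / 2

/-- the neighbour of `v` along the edge of type `k` -/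
def nb (k : Fin 4) (v : ℤ × ℤ) : ℤ × ℤ :=
  if ee v = 0 then ![(v.1 + 1, v.2), (v.1, v.2 - 1), (v.1 - 1, v.2), (v.1, v.2 + 1)] k
  else ![(v.1 - 1, v.2), (v.1, v.2 + 1), (v.1 + 1, v.2), (v.1, v.2 - 1)] k

/-- the angle (in turns) of a vertex -/
noncomputable def th (a : Fin 4 → ℝ) (v : ℤ × ℤ) : ℝ :=
  ee v * a 0 + pp v * (a 0 + a 1) + qq v * (a 0 + a 3)

/-- sign of the increments -/
def sg (k : Fin 4) (v : ℤ × ℤ) : ℤ :=
  if ee v = 0 then ![1, -1, 1, -1] k else ![-1, 1, -1, 1] k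

/-- increment of the angle along the edge of type `k` -/
noncomputable def del (a : Fin 4 → ℝ) (k : Fin 4) (v : ℤ × ℤ) : ℝ := sg k v * a k

/-- integer correction -/
def corr (k : Fin 4) (v : ℤ × ℤ) : ℤ :=
  if ee v = 0 then ![0, 0, -1, 0] k else ![0, 0, 1, 0] k

theorem ee_cases (v : ℤ × ℤ) : ee v = 0 ∨ ee v = 1 := by
  unfold ee; omega

theorem ee_nb (k : Fin 4) (v : ℤ × ℤ) : ee (nb k v) = 1 - ee v := by
  rcases ee_cases v with h | h <;> rcases fin4 k with rfl | rfl | rfl | rfl <;>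
    simp [nb, h] <;> simp [ee] at h ⊢ <;> omega

theorem nb_nb (k : Fin 4) (v : ℤ × ℤ) : nb k (nb k v) = v := by
  have h1 := ee_nb k v
  rcases ee_cases v with h | h
  · rw [h] at h1
    rw [nb, if_neg (by rw [h1]; decide)]
    rcases fin4 k with rfl | rfl | rfl | rfl <;> simp [nb, h]
  · rw [h] at h1
    rw [nb, if_pos (by rw [h1]; decide)]
    rcases fin4 k with rfl | rfl | rfl | rfl <;> simp [nb, h]

theorem nb_ne (k l : Fin 4) (v : ℤ × ℤ) (hkl : k ≠ l) : nb k v ≠ nb l v := by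
  rcases ee_cases v with h | h <;>
  rcases fin4 k with rfl | rfl | rfl | rfl <;> rcases fin4 l with rfl | rfl | rfl | rfl <;>
    simp [nb, h, Prod.ext_iff] at hkl ⊢ <;> omega

theorem sg_nb (k : Fin 4) (v : ℤ × ℤ) : sg k (nb k v) = - sg k v := by
  have h1 := ee_nb k v
  rcases ee_cases v with h | h
  · rw [h] at h1
    rw [sg, if_neg (by rw [h1]; decide), sg, if_pos h]
    rcases fin4 k with rfl | rfl | rfl | rfl <;> simp
  · rw [h] at h1
    rw [sg, if_pos (by rw [h1]; decide), sg, if_neg (by rw [h]; decide)]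
    rcases fin4 k with rfl | rfl | rfl | rfl <;> simp

theorem corr_nb (k : Fin 4) (v : ℤ × ℤ) : corr k (nb k v) = - corr k v := by
  have h1 := ee_nb k v
  rcases ee_cases v with h | h
  · rw [h] at h1
    rw [corr, if_neg (by rw [h1]; decide), corr, if_pos h]
    rcases fin4 k with rfl | rfl | rfl | rfl <;> simp
  · rw [h] at h1
    rw [corr, if_pos (by rw [h1]; decide), corr, if_neg (by rw [h]; decide)]
    rcases fin4 k with rfl | rfl | rfl | rfl <;> simp

theorem del_nb (a : Fin 4 → ℝ) (k : Fin 4) (v : ℤ × ℤ) : del a k (nb k v) = - del a k v := by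
  unfold del; rw [sg_nb]; push_cast; ring

/-- the diagonal coordinates of neighbours -/
theorem pq_nb (k : Fin 4) (v : ℤ × ℤ) (h : ee v = 0) :
    pp (nb k v) = pp v - ![0, 1, 1, 0] k ∧ qq (nb k v) = qq v - ![0, 0, 1, 1] k := by
  rw [nb, if_pos h]
  unfold ee at h
  unfold pp qq
  rcases fin4 k with rfl | rfl | rfl | rfl <;> simp <;> omega

theorem th_nb_even (a : Fin 4 → ℝ) (hs : a 0 + a 1 + a 2 + a 3 = 1) (k : Fin 4) (v : ℤ × ℤ)
    (h : ee v = 0) : th a (nb k v) = th a v + del a k v + corr k v := by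
  obtain ⟨h1, h2⟩ := pq_nb k v h
  have h3 := ee_nb k v
  unfold th del sg corr
  rw [h1, h2, h3, h]
  rcases fin4 k with rfl | rfl | rfl | rfl <;> simp <;> linarith

theorem th_nb (a : Fin 4 → ℝ) (hs : a 0 + a 1 + a 2 + a 3 = 1) (k : Fin 4) (v : ℤ × ℤ) :
    th a (nb k v) = th a v + del a k v + corr k v := by
  rcases ee_cases v with h | h
  · exact th_nb_even a hs k v h
  · have h1 := ee_nb k v
    rw [h] at h1
    have h2 := th_nb_even a hs k (nb k v) (by rw [h1]; norm_num)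
    rw [nb_nb, del_nb, corr_nb] at h2
    rw [h2]; push_cast; ring

/-- position on the circle, measured from `α` -/
noncomputable def xx (a : Fin 4 → ℝ) (α : ℝ) (v : ℤ × ℤ) : ℝ := Int.fract (th a v - α)
noncomputable def mm (a : Fin 4 → ℝ) (α : ℝ) (v : ℤ × ℤ) : ℤ := ⌊th a v - α⌋

theorem xx_nonneg (a : Fin 4 → ℝ) (α : ℝ) (v : ℤ × ℤ) : 0 ≤ xx a α v := Int.fract_nonneg _
theorem xx_lt_one (a : Fin 4 → ℝ) (α : ℝ) (v : ℤ × ℤ) : xx a α v < 1 := Int.fract_lt_one _

/-- a move that stays inside `[0, 1)` -/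
theorem xx_move (a : Fin 4 → ℝ) (hs : a 0 + a 1 + a 2 + a 3 = 1) (α : ℝ) (k : Fin 4) (v : ℤ × ℤ)
    (n : ℤ) (h0 : 0 ≤ xx a α v + del a k v - n) (h1 : xx a α v + del a k v - n < 1) :
    xx a α (nb k v) = xx a α v + del a k v - n ∧ mm a α (nb k v) = mm a α v + corr k v + n := by
  have h2 : th a (nb k v) - α = (xx a α v + del a k v - n) + ((mm a α v + corr k v + n : ℤ) : ℝ) := by
    rw [th_nb a hs]
    unfold xx mm Int.fract
    push_cast; ring
  constructor
  · unfold xx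
    rw [h2, Int.fract_add_intCast]
    exact Int.fract_eq_self.mpr ⟨h0, h1⟩
  · unfold mm
    rw [h2, Int.floor_add_intCast, Int.floor_eq_zero_iff.mpr ⟨h0, h1⟩]
    simp only [zero_add]; rfl

theorem exists_pos_lb {ι : Type} (s : Finset ι) (g : ι → ℝ) (h : ∀ i ∈ s, 0 < g i) :
    ∃ η : ℝ, 0 < η ∧ ∀ i ∈ s, η ≤ g i := by
  classical
  induction s using Finset.induction_on with
  | empty => exact ⟨1, one_pos, by simp⟩
  | insert x s hx ih =>
    obtain ⟨η, h1, h2⟩ := ih (fun i hi => h i (Finset.mem_insert_of_mem hi))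
    refine ⟨min η (g x), lt_min h1 (h x (Finset.mem_insert_self _ _)), fun i hi => ?_⟩
    rcases Finset.mem_insert.mp hi with rfl | hi
    · exact min_le_right _ _
    · exact (min_le_left _ _).trans (h2 i hi)

end Pool.Agent.W535.TB
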