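import Pool.Agent.W535.TB.Grid

set_option autoImplicit false

namespace Pool.Agent.W535.TB

open scoped BigOperators
open Set

/-- The tree lemma: a finite set of vertices with colour `[α, α + κ)` which is closed under
neighbours of the same colour carries no mod 2 cycle, when all arcs are at most `1 - κ`. -/
theorem slab_acyclic (a : Fin 4 → ℝ) (ha : ∀ k, 0 < a k) (hs : a 0 + a 1 + a 2 + a 3 = 1)
    (α κ : ℝ) (hk : ∀ k, a k ≤ 1 - κ) (K : Finset (ℤ × ℤ))
    (hK : ∀ v ∈ K, xx a α v < κ) (hcl : ∀ v ∈ K, ∀ k, xx a α (nb k v) < κ → nb k v ∈ K)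
    (Z : Fin 4 → ℤ × ℤ → ZMod 2) (h1 : ∀ k v, Z k v ≠ 0 → v ∈ K) (h2 : ∀ k v, Z k (nb k v) = Z k v)
    (h3 : ∀ v, ∑ k, Z k v = 0) : ∀ k v, Z k v = 0 := by
  classical
  -- choice of the shift
  obtain ⟨η1, hη1, hη1'⟩ := exists_pos_lb K (fun v => (κ - xx a α v) / 2)
    (fun v hv => by have := hK v hv; linarith)
  obtain ⟨η2, hη2, hη2'⟩ := exists_pos_lb (K ×ˢ (Finset.univ : Finset (Fin 4)))
    (fun p => if xx a α p.1 + del a p.2 p.1 < 0 then -(xx a α p.1 + del a p.2 p.1) else 1)
    (fun p _ => by
      split_ifs with h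
      · linarith
      · exact one_pos)
  set η := min η1 η2 with hη
  have hη0 : 0 < η := lt_min hη1 hη2
  have hηa : ∀ v ∈ K, xx a α v < κ - η := by
    intro v hv
    have e1 := hη1' v hv
    have e2 : η ≤ η1 := min_le_left _ _
    linarith [hK v hv]
  have hηb : ∀ v ∈ K, ∀ k, xx a α v + del a k v < 0 → xx a α v + del a k v ≤ -η := by
    intro v hv k hneg
    have e1 := hη2' (v, k) (by simp [hv])
    have e2 : η ≤ η2 := min_le_right _ _
    simp only [if_pos hneg] at e1
    linarith
  have hdel : ∀ k v, |del a k v| = a k := by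
    intro k v
    unfold del
    rw [abs_mul, abs_of_pos (ha k)]
    have : |((sg k v : ℤ) : ℝ)| = 1 := by
      unfold sg
      rcases ee_cases v with h | h <;> rcases fin4 k with rfl | rfl | rfl | rfl <;> simp [h]
    rw [this, one_mul]
  -- neighbours in `K`
  have hnbK : ∀ v ∈ K, ∀ k, nb k v ∈ K ↔ (-η < xx a α v + del a k v ∧ xx a α v + del a k v < κ - η) := by
    intro v hv k
    have e1 := xx_nonneg a α v
    have e2 := hK v hv
    have e3 := abs_le.mp (hdel k v).le
    have e4 := hk k
    constructor
    · intro h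
      -- the neighbour is black, so the move does not wrap
      have hb := hK _ h
      have hb' := hηa _ h
      by_cases c1 : xx a α v + del a k v < 0
      · exfalso
        have := (xx_move a hs α k v (-1) (by push_cast; linarith) (by push_cast; linarith)).1
        rw [this] at hb
        push_cast at hb
        linarith
      · push Not at c1
        have := (xx_move a hs α k v 0 (by push_cast; linarith) (by push_cast; linarith)).1
        rw [this] at hb'
        push_cast at hb'
        exact ⟨by linarith, by linarith⟩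
    · rintro ⟨h4, h5⟩
      by_cases c1 : xx a α v + del a k v < 0
      · exfalso; linarith [hηb v hv k c1]
      · push Not at c1
        have := (xx_move a hs α k v 0 (by push_cast; linarith) (by push_cast; linarith)).1
        apply hcl v hv
        rw [this]; push_cast; linarith
  have hnbx : ∀ v ∈ K, ∀ k, nb k v ∈ K → xx a α (nb k v) = xx a α v + del a k v ∧
      mm a α (nb k v) = mm a α v + corr k v := by
    intro v hv k h
    have e1 := (hnbK v hv k).mp h
    have e2 := hK v hv
    have e0 := xx_nonneg a α v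
    have e3 := abs_le.mp (hdel k v).le
    have e4 := hk k
    have c1 : 0 ≤ xx a α v + del a k v := by
      by_contra hc
      push Not at hc
      linarith [hηb v hv k hc]
    have := xx_move a hs α k v 0 (by push_cast; linarith) (by push_cast; linarith)
    simpa using this
  -- the flip system
  let pos : {v // v ∈ K} → ℝ := fun v => if ee v.1 = 0 then xx a α v.1 else κ - 2 * η - xx a α v.1
  let f : {v // v ∈ K} → ℤ × ℤ × ℤ := fun v =>
    if ee v.1 = 0 then (pp v.1, qq v.1, mm a α v.1) else (-pp v.1, -qq v.1, -mm a α v.1)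
  let T : Fin 4 → Set ℝ := fun k =>
    ![Ioo (-η) (κ - η - a 0), Ioo (a 1 - η) (κ - η), Ioo (-η) (κ - η - a 2), Ioo (a 3 - η) (κ - η)] k
  let c : Fin 4 → ℝ := fun k =>
    ![κ - 2 * η - a 0, κ - 2 * η + a 1, κ - 2 * η - a 2, κ - 2 * η + a 3] k
  let b : Fin 4 → ℤ × ℤ × ℤ := fun k => ![(0, 0, 0), (1, 0, 0), (1, 1, 1), (0, 1, 0)] k
  let φ : Fin 4 → {v // v ∈ K} → {v // v ∈ K} := fun k v =>
    if h : nb k v.1 ∈ K then ⟨nb k v.1, h⟩ else v
  have hposb : ∀ v, -η < pos v ∧ pos v < κ - η := by
    intro v
    have e1 := xx_nonneg a α v.1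
    have e2 := hηa v.1 v.2
    simp only [pos]
    split_ifs
    · exact ⟨by linarith, e2⟩
    · exact ⟨by linarith, by linarith⟩
  have hTiff : ∀ k v, pos v ∈ T k ↔ nb k v.1 ∈ K := by
    intro k v
    rw [hnbK v.1 v.2 k]
    obtain ⟨p1, p2⟩ := hposb v
    rcases ee_cases v.1 with h | h
    · have hp : pos v = xx a α v.1 := by simp only [pos, h, if_true]
      rw [hp] at p1 p2 ⊢
      rcases fin4 k with rfl | rfl | rfl | rfl <;> simp only [T, del, sg, h, if_true] <;>
        simp <;> constructor <;> rintro ⟨q1, q2⟩ <;> constructor <;> linarith [ha 0, ha 1, ha 2, ha 3]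
    · have hp : pos v = κ - 2 * η - xx a α v.1 := by simp only [pos, h]; norm_num
      rw [hp] at p1 p2 ⊢
      rcases fin4 k with rfl | rfl | rfl | rfl <;> simp only [T, del, sg, h] <;>
        simp <;> constructor <;> rintro ⟨q1, q2⟩ <;> constructor <;> linarith [ha 0, ha 1, ha 2, ha 3]
  have hφ : ∀ k v, pos v ∈ T k → (φ k v).1 = nb k v.1 := by
    intro k v hv
    rw [hTiff] at hv
    simp only [φ, dif_pos hv]
  have hmain : ∀ (k : Fin 4) (v : {v // v ∈ K}), Z k v.1 = 0 := by
    refine flip_acyclic pos f _ T c φ b ?_ ?_ ?_ ?_ ?_ ?_ rfl (fun k v => Z k v.1) ?_ ?_ ?_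
    · intro k
      rcases fin4 k with rfl | rfl | rfl | rfl <;> exact Set.ordConnected_Ioo
    · intro k x hx
      rcases fin4 k with rfl | rfl | rfl | rfl <;> simp [T, c] at hx ⊢ <;>
        exact ⟨by linarith [hx.1, hx.2], by linarith [hx.1, hx.2]⟩
    · intro k v hv
      have e1 := hφ k v hv
      rw [hTiff] at hv
      have e2 := (hnbx v.1 v.2 k hv).1
      have e3 := ee_nb k v.1
      rcases ee_cases v.1 with h | h
      · have hp : pos v = xx a α v.1 := by simp only [pos, h, if_true]
        have hp' : pos (φ k v) = κ - 2 * η - xx a α (nb k v.1) := by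
          simp only [pos, e1, e3, h]; norm_num
        rw [hp, hp', e2]
        rcases fin4 k with rfl | rfl | rfl | rfl <;> simp [c, del, sg, h] <;> ring
      · have hp : pos v = κ - 2 * η - xx a α v.1 := by simp only [pos, h]; norm_num
        have hp' : pos (φ k v) = xx a α (nb k v.1) := by
          simp only [pos, e1, e3, h]; norm_num
        rw [hp, hp', e2]
        rcases fin4 k with rfl | rfl | rfl | rfl <;> simp [c, del, sg, h] <;> ring
    · intro k v hv
      have e1 := hφ k v hv
      have e0 := hv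
      rw [hTiff] at hv
      have e2 : nb k (φ k v).1 ∈ K := by rw [e1, nb_nb]; exact v.2
      apply Subtype.ext
      rw [hφ k _ ((hTiff k _).mpr e2), e1, nb_nb]
    · intro k v hv
      have e1 := hφ k v hv
      rw [hTiff] at hv
      have e2 := (hnbx v.1 v.2 k hv).2
      have e3 := ee_nb k v.1
      rcases ee_cases v.1 with h | h
      · have hp : f v = (pp v.1, qq v.1, mm a α v.1) := by simp only [f, h, if_true]
        have hp' : f (φ k v) = (-pp (nb k v.1), -qq (nb k v.1), -mm a α (nb k v.1)) := by
          simp only [f, e1, e3, h]; norm_num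
        rw [hp, hp', e2, (pq_nb k v.1 h).1, (pq_nb k v.1 h).2]
        rcases fin4 k with rfl | rfl | rfl | rfl <;> simp [b, corr, h, Prod.ext_iff] <;> omega
      · have hp : f v = (-pp v.1, -qq v.1, -mm a α v.1) := by simp only [f, h]; norm_num
        have hp' : f (φ k v) = (pp (nb k v.1), qq (nb k v.1), mm a α (nb k v.1)) := by
          simp only [f, e1, e3, h]; norm_num
        have h5 : ee (nb k v.1) = 0 := by rw [e3, h]; norm_num
        obtain ⟨e4, e5⟩ := pq_nb k (nb k v.1) h5
        rw [nb_nb] at e4 e5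
        rw [hp, hp', e2, e4, e5]
        rcases fin4 k with rfl | rfl | rfl | rfl <;> simp [b, corr, h, Prod.ext_iff] <;> omega
    · intro i j hij x hx
      rcases fin4 i with rfl | rfl | rfl | rfl <;> rcases fin4 j with rfl | rfl | rfl | rfl <;>
        simp [b, Prod.ext_iff] at hij hx <;> omega
    · intro k v hv
      rw [hTiff] at hv
      show Z k v.1 = 0
      by_contra hne
      apply hv
      apply h1 k
      rw [h2]; exact hne
    · intro k v hv
      show Z k (φ k v).1 = Z k v.1
      rw [hφ k v hv, h2]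
    · intro v
      exact h3 v.1
  intro k v
  by_contra hne
  exact hne (hmain k ⟨v, h1 k v hne⟩)

end Pool.Agent.W535.TB
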