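import Pool.Agent.W535.TB.Dual2
import Pool.Agent.W535.TB.Slab

set_option autoImplicit false

namespace Pool.Agent.W535.TB

open scoped BigOperators
open Set

/-- the colour of a vertex -/
def blk (a : Fin 4 → ℝ) (α κ : ℝ) (v : ℤ × ℤ) : Prop := xx a α v < κ

theorem step_ok (a : Fin 4 → ℝ) (hs : a 0 + a 1 + a 2 + a 3 = 1) (α κ : ℝ) (hκ : κ ≤ 1)
    (k : Fin 4) (v : ℤ × ℤ) (hv : blk a α κ v) (h0 : 0 ≤ xx a α v + del a k v)
    (h1 : xx a α v + del a k v < κ) :
    blk a α κ (nb k v) ∧ xx a α (nb k v) = xx a α v + del a k v ∧ Adj (blk a α κ) v (nb k v) := by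
  have h2 := (xx_move a hs α k v 0 (by push_cast; linarith) (by push_cast; linarith)).1
  rw [Int.cast_zero, sub_zero] at h2
  have h3 : blk a α κ (nb k v) := by unfold blk; rw [h2]; exact h1
  exact ⟨h3, h2, ⟨k, rfl⟩, iff_of_true h3 hv⟩

/-- two explicit steps -/
theorem two_steps (a : Fin 4 → ℝ) (hs : a 0 + a 1 + a 2 + a 3 = 1) (α κ : ℝ) (hκ : κ ≤ 1)
    (k l : Fin 4) (v : ℤ × ℤ) (hv : blk a α κ v) (h0 : 0 ≤ xx a α v + del a k v)
    (h1 : xx a α v + del a k v < κ) (h2 : 0 ≤ xx a α v + del a k v + del a l (nb k v))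
    (h3 : xx a α v + del a k v + del a l (nb k v) < κ) : nb l (nb k v) ∈ Cl (blk a α κ) v := by
  obtain ⟨e1, e2, e3⟩ := step_ok a hs α κ hκ k v hv h0 h1
  rw [← e2] at h2 h3
  obtain ⟨e4, e5, e6⟩ := step_ok a hs α κ hκ l (nb k v) e1 h2 h3
  exact Cl_step (Cl_step (Cl_self v) e3) e6

theorem one_step (a : Fin 4 → ℝ) (hs : a 0 + a 1 + a 2 + a 3 = 1) (α κ : ℝ) (hκ : κ ≤ 1)
    (k : Fin 4) (v : ℤ × ℤ) (hv : blk a α κ v) (h0 : 0 ≤ xx a α v + del a k v)
    (h1 : xx a α v + del a k v < κ) : nb k v ∈ Cl (blk a α κ) v := by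
  obtain ⟨e1, e2, e3⟩ := step_ok a hs α κ hκ k v hv h0 h1
  exact Cl_step (Cl_self v) e3

theorem del_even (a : Fin 4 → ℝ) (k : Fin 4) (v : ℤ × ℤ) (h : ee v = 0) :
    del a k v = ![1, -1, 1, -1] k * a k := by
  unfold del sg
  rw [if_pos h]
  rcases fin4 k with rfl | rfl | rfl | rfl <;> simp

theorem del_odd (a : Fin 4 → ℝ) (k : Fin 4) (v : ℤ × ℤ) (h : ee v = 1) :
    del a k v = ![-1, 1, -1, 1] k * a k := by
  unfold del sg
  rw [if_neg (by rw [h]; decide)]
  rcases fin4 k with rfl | rfl | rfl | rfl <;> simp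

/-- the four neighbours -/
theorem nb_even (k : Fin 4) (v : ℤ × ℤ) (h : ee v = 0) :
    nb k v = ![(v.1 + 1, v.2), (v.1, v.2 - 1), (v.1 - 1, v.2), (v.1, v.2 + 1)] k := by
  rw [nb, if_pos h]

theorem nb_odd (k : Fin 4) (v : ℤ × ℤ) (h : ee v = 1) :
    nb k v = ![(v.1 - 1, v.2), (v.1, v.2 + 1), (v.1 + 1, v.2), (v.1, v.2 - 1)] k := by
  rw [nb, if_neg (by rw [h]; decide)]

theorem infinite_of_step {col : ℤ × ℤ → Prop} (g : ℤ × ℤ → ℤ)
    (h : ∀ v, col v → ∃ w ∈ Cl col v, g w < g v) (v : ℤ × ℤ) (hv : col v) : (Cl col v).Infinite := by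
  intro hfin
  obtain ⟨w, hw, hmin⟩ := hfin.exists_minimalFor g (Cl col v) ⟨v, Cl_self v⟩
  obtain ⟨u, hu, hlt⟩ := h w ((Cl_col hw).mpr hv)
  have := hmin (Cl_trans hw hu) hlt.le
  omega

theorem cluster_infinite (a : Fin 4 → ℝ) (ha : ∀ k, 0 < a k) (hs : a 0 + a 1 + a 2 + a 3 = 1)
    (α κ : ℝ) (hκ : κ ≤ 1) (k : Fin 4) (hk : 1 - a k ≤ κ) (v : ℤ × ℤ) (hv : blk a α κ v) :
    (Cl (blk a α κ) v).Infinite := by
  have a0 := ha 0
  have a1 := ha 1
  have a2 := ha 2
  have a3 := ha 3
  rcases fin4 k with rfl | rfl | rfl | rfl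
  · -- large `a 0`: go down
    refine infinite_of_step (fun w => w.2) (fun w hw => ?_) v hv
    have x0 := xx_nonneg a α w
    have x1 : xx a α w < κ := hw
    rcases ee_cases w with h | h
    · by_cases c : a 1 ≤ xx a α w
      · refine ⟨nb 1 w, one_step a hs α κ hκ 1 w hw ?_ ?_, ?_⟩
        · rw [del_even a _ _ h]; simp; linarith
        · rw [del_even a _ _ h]; simp; linarith
        · rw [nb_even _ _ h]; simp
      · push Not at c
        have h' : ee (nb 2 w) = 1 := by rw [ee_nb, h]; norm_num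
        refine ⟨nb 3 (nb 2 w), two_steps a hs α κ hκ 2 3 w hw ?_ ?_ ?_ ?_, ?_⟩
        · rw [del_even a _ _ h]; simp; linarith
        · rw [del_even a _ _ h]; simp; linarith
        · rw [del_even a _ _ h, del_odd a _ _ h']; simp; linarith
        · rw [del_even a _ _ h, del_odd a _ _ h']; simp; linarith
        · rw [nb_odd _ _ h', nb_even _ _ h]; simp
    · by_cases c : xx a α w + a 3 < κ
      · refine ⟨nb 3 w, one_step a hs α κ hκ 3 w hw ?_ ?_, ?_⟩
        · rw [del_odd a _ _ h]; simp; linarith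
        · rw [del_odd a _ _ h]; simp; linarith
        · rw [nb_odd _ _ h]; simp
      · push Not at c
        have h' : ee (nb 2 w) = 0 := by rw [ee_nb, h]; norm_num
        refine ⟨nb 1 (nb 2 w), two_steps a hs α κ hκ 2 1 w hw ?_ ?_ ?_ ?_, ?_⟩
        · rw [del_odd a _ _ h]; simp; linarith
        · rw [del_odd a _ _ h]; simp; linarith
        · rw [del_odd a _ _ h, del_even a _ _ h']; simp; linarith
        · rw [del_odd a _ _ h, del_even a _ _ h']; simp; linarith
        · rw [nb_even _ _ h', nb_odd _ _ h]; simp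
  · -- large `a 1`: go left
    refine infinite_of_step (fun w => w.1) (fun w hw => ?_) v hv
    have x0 := xx_nonneg a α w
    have x1 : xx a α w < κ := hw
    rcases ee_cases w with h | h
    · by_cases c : xx a α w + a 2 < κ
      · refine ⟨nb 2 w, one_step a hs α κ hκ 2 w hw ?_ ?_, ?_⟩
        · rw [del_even a _ _ h]; simp; linarith
        · rw [del_even a _ _ h]; simp; linarith
        · rw [nb_even _ _ h]; simp
      · push Not at c
        have h' : ee (nb 3 w) = 1 := by rw [ee_nb, h]; norm_num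
        refine ⟨nb 0 (nb 3 w), two_steps a hs α κ hκ 3 0 w hw ?_ ?_ ?_ ?_, ?_⟩
        · rw [del_even a _ _ h]; simp; linarith
        · rw [del_even a _ _ h]; simp; linarith
        · rw [del_even a _ _ h, del_odd a _ _ h']; simp; linarith
        · rw [del_even a _ _ h, del_odd a _ _ h']; simp; linarith
        · rw [nb_odd _ _ h', nb_even _ _ h]; simp
    · by_cases c : a 0 ≤ xx a α w
      · refine ⟨nb 0 w, one_step a hs α κ hκ 0 w hw ?_ ?_, ?_⟩
        · rw [del_odd a _ _ h]; simp; linarith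
        · rw [del_odd a _ _ h]; simp; linarith
        · rw [nb_odd _ _ h]; simp
      · push Not at c
        have h' : ee (nb 3 w) = 0 := by rw [ee_nb, h]; norm_num
        refine ⟨nb 2 (nb 3 w), two_steps a hs α κ hκ 3 2 w hw ?_ ?_ ?_ ?_, ?_⟩
        · rw [del_odd a _ _ h]; simp; linarith
        · rw [del_odd a _ _ h]; simp; linarith
        · rw [del_odd a _ _ h, del_even a _ _ h']; simp; linarith
        · rw [del_odd a _ _ h, del_even a _ _ h']; simp; linarith
        · rw [nb_even _ _ h', nb_odd _ _ h]; simp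
  · -- large `a 2`: go down
    refine infinite_of_step (fun w => w.2) (fun w hw => ?_) v hv
    have x0 := xx_nonneg a α w
    have x1 : xx a α w < κ := hw
    rcases ee_cases w with h | h
    · by_cases c : a 1 ≤ xx a α w
      · refine ⟨nb 1 w, one_step a hs α κ hκ 1 w hw ?_ ?_, ?_⟩
        · rw [del_even a _ _ h]; simp; linarith
        · rw [del_even a _ _ h]; simp; linarith
        · rw [nb_even _ _ h]; simp
      · push Not at c
        have h' : ee (nb 0 w) = 1 := by rw [ee_nb, h]; norm_num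
        refine ⟨nb 3 (nb 0 w), two_steps a hs α κ hκ 0 3 w hw ?_ ?_ ?_ ?_, ?_⟩
        · rw [del_even a _ _ h]; simp; linarith
        · rw [del_even a _ _ h]; simp; linarith
        · rw [del_even a _ _ h, del_odd a _ _ h']; simp; linarith
        · rw [del_even a _ _ h, del_odd a _ _ h']; simp; linarith
        · rw [nb_odd _ _ h', nb_even _ _ h]; simp
    · by_cases c : xx a α w + a 3 < κ
      · refine ⟨nb 3 w, one_step a hs α κ hκ 3 w hw ?_ ?_, ?_⟩
        · rw [del_odd a _ _ h]; simp; linarith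
        · rw [del_odd a _ _ h]; simp; linarith
        · rw [nb_odd _ _ h]; simp
      · push Not at c
        have h' : ee (nb 0 w) = 0 := by rw [ee_nb, h]; norm_num
        refine ⟨nb 1 (nb 0 w), two_steps a hs α κ hκ 0 1 w hw ?_ ?_ ?_ ?_, ?_⟩
        · rw [del_odd a _ _ h]; simp; linarith
        · rw [del_odd a _ _ h]; simp; linarith
        · rw [del_odd a _ _ h, del_even a _ _ h']; simp; linarith
        · rw [del_odd a _ _ h, del_even a _ _ h']; simp; linarith
        · rw [nb_even _ _ h', nb_odd _ _ h]; simp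
  · -- large `a 3`: go left
    refine infinite_of_step (fun w => w.1) (fun w hw => ?_) v hv
    have x0 := xx_nonneg a α w
    have x1 : xx a α w < κ := hw
    rcases ee_cases w with h | h
    · by_cases c : xx a α w + a 2 < κ
      · refine ⟨nb 2 w, one_step a hs α κ hκ 2 w hw ?_ ?_, ?_⟩
        · rw [del_even a _ _ h]; simp; linarith
        · rw [del_even a _ _ h]; simp; linarith
        · rw [nb_even _ _ h]; simp
      · push Not at c
        have h' : ee (nb 1 w) = 1 := by rw [ee_nb, h]; norm_num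
        refine ⟨nb 0 (nb 1 w), two_steps a hs α κ hκ 1 0 w hw ?_ ?_ ?_ ?_, ?_⟩
        · rw [del_even a _ _ h]; simp; linarith
        · rw [del_even a _ _ h]; simp; linarith
        · rw [del_even a _ _ h, del_odd a _ _ h']; simp; linarith
        · rw [del_even a _ _ h, del_odd a _ _ h']; simp; linarith
        · rw [nb_odd _ _ h', nb_even _ _ h]; simp
    · by_cases c : a 0 ≤ xx a α w
      · refine ⟨nb 0 w, one_step a hs α κ hκ 0 w hw ?_ ?_, ?_⟩
        · rw [del_odd a _ _ h]; simp; linarith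
        · rw [del_odd a _ _ h]; simp; linarith
        · rw [nb_odd _ _ h]; simp
      · push Not at c
        have h' : ee (nb 1 w) = 0 := by rw [ee_nb, h]; norm_num
        refine ⟨nb 2 (nb 1 w), two_steps a hs α κ hκ 1 2 w hw ?_ ?_ ?_ ?_, ?_⟩
        · rw [del_odd a _ _ h]; simp; linarith
        · rw [del_odd a _ _ h]; simp; linarith
        · rw [del_odd a _ _ h, del_even a _ _ h']; simp; linarith
        · rw [del_odd a _ _ h, del_even a _ _ h']; simp; linarith
        · rw [nb_even _ _ h', nb_odd _ _ h]; simp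

end Pool.Agent.W535.TB
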