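import Pool.Agent.W535.TB.Circ

set_option autoImplicit false

namespace Pool.Agent.W535.TB

open scoped BigOperators
open Set ComplexConjugate

/-- a vertex of the tiling -/
noncomputable def Vx (P : Fin 4 → ℂ) (w : ℤ × ℤ) : ℂ :=
  pp w * (P 2 - P 0) + qq w * (P 1 - P 3) + (if ee w = 0 then P 0 else P 1)

/-- sign of a tile -/
def sT (T : ℤ × ℤ) : ℝ := if ee T = 0 then 1 else -1

/-- translation part of a tile -/
noncomputable def tT (P : Fin 4 → ℂ) (T : ℤ × ℤ) : ℂ :=
  if ee T = 0 then Vx P T - P 0 else Vx P T + P 2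

/-- the corner number `k` of the tile `T` -/
def cor (T : ℤ × ℤ) (k : Fin 4) : ℤ × ℤ :=
  if ee T = 0 then ![(T.1, T.2), (T.1 + 1, T.2), (T.1 + 1, T.2 + 1), (T.1, T.2 + 1)] k
  else ![(T.1 + 1, T.2 + 1), (T.1, T.2 + 1), (T.1, T.2), (T.1 + 1, T.2)] k

/-- the quadrilateral -/
def Qd (P : Fin 4 → ℂ) : Set ℂ := convexHull ℝ {P 0, P 1, P 2, P 3}

/-- the tile `T` -/
def tile (P : Fin 4 → ℂ) (T : ℤ × ℤ) : Set ℂ := (fun z : ℂ => (sT T : ℂ) * z + tT P T) '' Qd P

theorem V_cor (P : Fin 4 → ℂ) (T : ℤ × ℤ) (k : Fin 4) :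
    Vx P (cor T k) = (sT T : ℂ) * P k + tT P T := by
  obtain ⟨i, j⟩ := T
  rcases ee_cases (i, j) with h | h
  · have h1 : ee (i + 1, j) = 1 := by simp [ee] at h ⊢; omega
    have h2 : ee (i + 1, j + 1) = 0 := by simp [ee] at h ⊢; omega
    have h3 : ee (i, j + 1) = 1 := by simp [ee] at h ⊢; omega
    have p1 : pp (i + 1, j) = pp (i, j) := by simp [ee, pp] at h ⊢; omega
    have p2 : pp (i + 1, j + 1) = pp (i, j) + 1 := by simp [ee, pp] at h ⊢; omega
    have p3 : pp (i, j + 1) = pp (i, j) := by simp [ee, pp] at h ⊢; omega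
    have q1 : qq (i + 1, j) = qq (i, j) := by simp [ee, qq] at h ⊢; omega
    have q2 : qq (i + 1, j + 1) = qq (i, j) := by simp [ee, qq] at h ⊢
    have q3 : qq (i, j + 1) = qq (i, j) - 1 := by simp [ee, qq] at h ⊢; omega
    rcases fin4 k with rfl | rfl | rfl | rfl
    · simp only [cor, sT, tT, h, if_true]
      simp [Vx, h]; ring
    · simp only [cor, sT, tT, h, if_true]
      simp [Vx, h, h1, p1, q1]; ring
    · simp only [cor, sT, tT, h, if_true]
      simp [Vx, h, h2, p2, q2]; ring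
    · simp only [cor, sT, tT, h, if_true]
      simp [Vx, h, h3, p3, q3]; ring
  · have h1 : ee (i + 1, j) = 0 := by simp [ee] at h ⊢; omega
    have h2 : ee (i + 1, j + 1) = 1 := by simp [ee] at h ⊢; omega
    have h3 : ee (i, j + 1) = 0 := by simp [ee] at h ⊢; omega
    have p1 : pp (i + 1, j) = pp (i, j) + 1 := by simp [ee, pp] at h ⊢; omega
    have p2 : pp (i + 1, j + 1) = pp (i, j) + 1 := by simp [ee, pp] at h ⊢; omega
    have p3 : pp (i, j + 1) = pp (i, j) + 1 := by simp [ee, pp] at h ⊢; omega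
    have q1 : qq (i + 1, j) = qq (i, j) + 1 := by simp [ee, qq] at h ⊢; omega
    have q2 : qq (i + 1, j + 1) = qq (i, j) := by simp [ee, qq] at h ⊢
    have q3 : qq (i, j + 1) = qq (i, j) := by simp [ee, qq] at h ⊢; omega
    have hne : ¬ ee (i, j) = 0 := by rw [h]; decide
    rcases fin4 k with rfl | rfl | rfl | rfl
    · simp only [cor, sT, tT, hne, if_false]
      simp [Vx, h, h2, p2, q2]; ring
    · simp only [cor, sT, tT, hne, if_false]
      simp [Vx, h, h3, p3, q3]; ring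
    · simp only [cor, sT, tT, hne, if_false]
      simp [Vx, h]
    · simp only [cor, sT, tT, hne, if_false]
      simp [Vx, h, h1, p1, q1]; ring

theorem nb_cor (T : ℤ × ℤ) (k : Fin 4) : nb k (cor T k) = cor T (k + 1) := by
  obtain ⟨i, j⟩ := T
  rcases ee_cases (i, j) with h | h
  · have h1 : ee (i + 1, j) = 1 := by simp [ee] at h ⊢; omega
    have h2 : ee (i + 1, j + 1) = 0 := by simp [ee] at h ⊢; omega
    have h3 : ee (i, j + 1) = 1 := by simp [ee] at h ⊢; omega
    rcases fin4 k with rfl | rfl | rfl | rfl <;>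
      simp [cor, h, nb, h1, h2, h3]
  · have h1 : ee (i + 1, j) = 0 := by simp [ee] at h ⊢; omega
    have h2 : ee (i + 1, j + 1) = 1 := by simp [ee] at h ⊢; omega
    have h3 : ee (i, j + 1) = 0 := by simp [ee] at h ⊢; omega
    rcases fin4 k with rfl | rfl | rfl | rfl <;>
      simp [cor, h, nb, h1, h2, h3]

/-- every edge belongs to a tile of each sign -/
theorem edge_tile (σ : ℤ) (hσ : σ = 0 ∨ σ = 1) (w : ℤ × ℤ) (k : Fin 4) :
    ∃ T, ee T = σ ∧ ((cor T k = w ∧ cor T (k + 1) = nb k w) ∨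
      (cor T k = nb k w ∧ cor T (k + 1) = w)) := by
  have gen : ∀ w : ℤ × ℤ, (ee w = (σ + ![0, 1, 0, 1] k) % 2) → ∃ T, ee T = σ ∧ cor T k = w := by
    rintro ⟨i, j⟩ hw
    rcases hσ with rfl | rfl
    · rcases fin4 k with rfl | rfl | rfl | rfl
      · refine ⟨(i, j), by simpa using hw, ?_⟩
        have : ee (i, j) = 0 := by simpa using hw
        simp [cor, this]
      · have : ee (i - 1, j) = 0 := by simp [ee] at hw ⊢; omega
        exact ⟨(i - 1, j), this, by simp [cor, this]⟩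
      · have : ee (i - 1, j - 1) = 0 := by simp [ee] at hw ⊢; omega
        exact ⟨(i - 1, j - 1), this, by simp [cor, this]⟩
      · have : ee (i, j - 1) = 0 := by simp [ee] at hw ⊢; omega
        exact ⟨(i, j - 1), this, by simp [cor, this]⟩
    · rcases fin4 k with rfl | rfl | rfl | rfl
      · have : ee (i - 1, j - 1) = 1 := by simp [ee] at hw ⊢; omega
        exact ⟨(i - 1, j - 1), this, by simp [cor, this]⟩
      · have : ee (i, j - 1) = 1 := by simp [ee] at hw ⊢; omega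
        exact ⟨(i, j - 1), this, by simp [cor, this]⟩
      · have : ee (i, j) = 1 := by simp [ee] at hw ⊢; omega
        exact ⟨(i, j), this, by simp [cor, this]⟩
      · have : ee (i - 1, j) = 1 := by simp [ee] at hw ⊢; omega
        exact ⟨(i - 1, j), this, by simp [cor, this]⟩
  by_cases hw : ee w = (σ + ![0, 1, 0, 1] k) % 2
  · obtain ⟨T, h1, h2⟩ := gen w hw
    exact ⟨T, h1, Or.inl ⟨h2, by rw [← nb_cor, h2]⟩⟩
  · obtain ⟨T, h1, h2⟩ := gen (nb k w) (by
      rw [ee_nb]
      rcases ee_cases w with h | h <;> rcases hσ with rfl | rfl <;>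
        rcases fin4 k with rfl | rfl | rfl | rfl <;> simp [h] at hw ⊢)
    refine ⟨T, h1, Or.inr ⟨h2, by rw [← nb_cor, h2, nb_nb]⟩⟩

/-- local coordinate in a tile -/
noncomputable def loc (P : Fin 4 → ℂ) (T : ℤ × ℤ) (z : ℂ) : ℂ := (sT T : ℂ) * (z - tT P T)

theorem sT_sq (T : ℤ × ℤ) : (sT T : ℂ) * (sT T : ℂ) = 1 := by
  unfold sT; split_ifs <;> simp

theorem loc_eq (P : Fin 4 → ℂ) (T : ℤ × ℤ) (y : ℂ) : loc P T ((sT T : ℂ) * y + tT P T) = y := by
  unfold loc
  rw [add_sub_cancel_right, ← mul_assoc, sT_sq, one_mul]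

theorem loc_inv (P : Fin 4 → ℂ) (T : ℤ × ℤ) (z : ℂ) : (sT T : ℂ) * loc P T z + tT P T = z := by
  unfold loc
  rw [← mul_assoc, sT_sq, one_mul, sub_add_cancel]

theorem mem_tile (P : Fin 4 → ℂ) (T : ℤ × ℤ) (z : ℂ) : z ∈ tile P T ↔ loc P T z ∈ Qd P := by
  constructor
  · rintro ⟨y, hy, rfl⟩
    simp only [loc_eq]
    exact hy
  · intro h
    exact ⟨loc P T z, h, loc_inv P T z⟩

theorem loc_cor (P : Fin 4 → ℂ) (T : ℤ × ℤ) (k : Fin 4) : loc P T (Vx P (cor T k)) = P k := by
  rw [V_cor, loc_eq]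

theorem hull_nonneg (P : Fin 4 → ℂ) (w : ℂ) (b : ℝ) (h : ∀ k, 0 ≤ (conj w * P k).im + b) :
    ∀ y ∈ Qd P, 0 ≤ (conj w * y).im + b := by
  intro y hy
  have hconv : Convex ℝ {y : ℂ | 0 ≤ (conj w * y).im + b} := by
    intro x hx z hz s t hs ht hst
    simp only [Set.mem_ofPred_eq] at hx hz ⊢
    have : (conj w * (s • x + t • z)).im + b = s * ((conj w * x).im + b) + t * ((conj w * z).im + b) := by
      have e : conj w * (s • x + t • z) = (s : ℂ) * (conj w * x) + (t : ℂ) * (conj w * z) := by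
        simp only [Complex.real_smul]; ring
      rw [e, Complex.add_im, Complex.im_ofReal_mul, Complex.im_ofReal_mul]
      linear_combination (-b) * hst
    rw [this]; positivity
  refine convexHull_min ?_ hconv hy
  intro x hx
  simp only [mem_insert_iff, mem_singleton_iff] at hx
  rcases hx with rfl | rfl | rfl | rfl
  · exact h 0
  · exact h 1
  · exact h 2
  · exact h 3

theorem int_pos (S : Set ℂ) (w : ℂ) (hw : w ≠ 0) (b : ℝ) (h : ∀ z ∈ S, 0 ≤ (conj w * z).im + b) :
    ∀ z ∈ interior S, 0 < (conj w * z).im + b := by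
  intro z hz
  obtain ⟨ε, hε, hball⟩ := Metric.isOpen_iff.mp isOpen_interior z hz
  have hn : 0 < ‖w‖ := norm_pos_iff.mpr hw
  set δ : ℝ := ε / (2 * ‖w‖) with hδ
  have hδ0 : 0 < δ := by positivity
  have hmem : z - (δ : ℂ) * (Complex.I * w) ∈ S := by
    apply interior_subset
    apply hball
    rw [Metric.mem_ball, dist_eq_norm]
    have : z - (δ : ℂ) * (Complex.I * w) - z = -((δ : ℂ) * (Complex.I * w)) := by ring
    rw [this, norm_neg, norm_mul, norm_mul, Complex.norm_I, one_mul, Complex.norm_real,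
      Real.norm_eq_abs, abs_of_pos hδ0, hδ]
    rw [div_mul_eq_mul_div, div_lt_iff₀ (by positivity)]
    nlinarith
  have h1 := h _ hmem
  have h2 : (conj w * (z - (δ : ℂ) * (Complex.I * w))).im = (conj w * z).im - δ * ‖w‖ ^ 2 := by
    have e : conj w * (z - (δ : ℂ) * (Complex.I * w)) =
        conj w * z - ((δ * ‖w‖ ^ 2 : ℝ) : ℂ) * Complex.I := by
      have e2 : conj w * w = ((‖w‖ ^ 2 : ℝ) : ℂ) := by
        rw [← Complex.normSq_eq_conj_mul_self, Complex.normSq_eq_norm_sq]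
      push_cast at e2 ⊢
      linear_combination (-(δ : ℂ) * Complex.I) * e2
    rw [e, Complex.sub_im, Complex.im_ofReal_mul, Complex.I_im, mul_one]
  rw [h2] at h1
  have : 0 < δ * ‖w‖ ^ 2 := by positivity
  linarith

theorem interior_loc_pos (P : Fin 4 → ℂ) (T : ℤ × ℤ) (w : ℂ) (hw : w ≠ 0) (b : ℝ)
    (h : ∀ k, 0 ≤ (conj w * P k).im + b) :
    ∀ z ∈ interior (tile P T), 0 < (conj w * loc P T z).im + b := by
  have hs : (sT T : ℂ) ≠ 0 := by
    intro h0
    have := sT_sq T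
    rw [h0] at this; simp at this
  have e : ∀ z, (conj w * loc P T z).im + b = (conj ((sT T : ℂ) * w) * z).im +
      (b - (conj w * ((sT T : ℂ) * tT P T)).im) := by
    intro z
    have : conj w * loc P T z = conj ((sT T : ℂ) * w) * z - conj w * ((sT T : ℂ) * tT P T) := by
      unfold loc
      rw [map_mul, Complex.conj_ofReal]; ring
    rw [this, Complex.sub_im]; ring
  intro z hz
  rw [e]
  refine int_pos (tile P T) _ (mul_ne_zero hs hw) _ (fun z hz => ?_) z hz
  rw [← e]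
  exact hull_nonneg P w b h _ ((mem_tile P T z).mp hz)

end Pool.Agent.W535.TB
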