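import Pool.Agent.W535.TB.Tile

set_option autoImplicit false

namespace Pool.Agent.W535.TB

open scoped BigOperators
open Set ComplexConjugate

/-- convex position, counterclockwise -/
def Ccw (P : Fin 4 → ℂ) : Prop :=
  0 < (conj (P 1 - P 0) * (P 2 - P 1)).im ∧ 0 < (conj (P 2 - P 1) * (P 3 - P 2)).im ∧
  0 < (conj (P 3 - P 2) * (P 0 - P 3)).im ∧ 0 < (conj (P 0 - P 3) * (P 1 - P 0)).im

theorem cim (w z : ℂ) : (conj w * z).im = w.re * z.im - w.im * z.re := by
  simp [Complex.mul_im]; ring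

theorem cim_comb (w x z : ℂ) (s t : ℝ) :
    (conj w * (s • x + t • z)).im = s * (conj w * x).im + t * (conj w * z).im := by
  simp only [Complex.conj_re, Complex.conj_im, Complex.add_re, Complex.add_im, Complex.real_smul,
    Complex.mul_re, Complex.mul_im, Complex.ofReal_re, Complex.ofReal_im]
  ring

/-- first box functional -/
noncomputable def xi (P : Fin 4 → ℂ) (y : ℂ) : ℝ := (conj (P 1 - P 3) * y).im
/-- second box functional -/
noncomputable def ze (P : Fin 4 → ℂ) (y : ℂ) : ℝ := (conj (P 0 - P 2) * y).im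

variable {P : Fin 4 → ℂ}

theorem xi_facts (h : Ccw P) : xi P (P 0) < xi P (P 1) ∧ xi P (P 3) = xi P (P 1) ∧
    xi P (P 1) < xi P (P 2) := by
  obtain ⟨c0, c1, c2, c3⟩ := h
  simp only [xi, cim, Complex.sub_re, Complex.sub_im] at c0 c1 c2 c3 ⊢
  exact ⟨by nlinarith, by ring, by nlinarith⟩

theorem ze_facts (h : Ccw P) : ze P (P 3) < ze P (P 0) ∧ ze P (P 2) = ze P (P 0) ∧
    ze P (P 0) < ze P (P 1) := by
  obtain ⟨c0, c1, c2, c3⟩ := h
  simp only [ze, cim, Complex.sub_re, Complex.sub_im] at c0 c1 c2 c3 ⊢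
  exact ⟨by nlinarith, by ring, by nlinarith⟩

/-- strict box -/
def SBox (P : Fin 4 → ℂ) (y : ℂ) : Prop :=
  xi P (P 0) < xi P y ∧ xi P y < xi P (P 2) ∧ ze P (P 3) < ze P y ∧ ze P y < ze P (P 1)
/-- weak box -/
def WBox (P : Fin 4 → ℂ) (y : ℂ) : Prop :=
  xi P (P 0) ≤ xi P y ∧ xi P y ≤ xi P (P 2) ∧ ze P (P 3) ≤ ze P y ∧ ze P y ≤ ze P (P 1)

theorem hull_box (h : Ccw P) (y : ℂ) (hy : y ∈ Qd P) : WBox P y := by
  obtain ⟨x1, x2, x3⟩ := xi_facts h
  obtain ⟨z1, z2, z3⟩ := ze_facts h
  unfold xi at x1 x2 x3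
  unfold ze at z1 z2 z3
  refine ⟨?_, ?_, ?_, ?_⟩
  · have := hull_nonneg P (P 1 - P 3) (-(xi P (P 0))) (fun k => by
      unfold xi
      rcases fin4 k with rfl | rfl | rfl | rfl <;> linarith) y hy
    unfold xi at this ⊢; linarith
  · have := hull_nonneg P (-(P 1 - P 3)) (xi P (P 2)) (fun k => by
      rw [map_neg, neg_mul, Complex.neg_im]
      unfold xi
      rcases fin4 k with rfl | rfl | rfl | rfl <;> linarith) y hy
    rw [map_neg, neg_mul, Complex.neg_im] at this
    unfold xi at this ⊢; linarith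
  · have := hull_nonneg P (P 0 - P 2) (-(ze P (P 3))) (fun k => by
      unfold ze
      rcases fin4 k with rfl | rfl | rfl | rfl <;> linarith) y hy
    unfold ze at this ⊢; linarith
  · have := hull_nonneg P (-(P 0 - P 2)) (ze P (P 1)) (fun k => by
      rw [map_neg, neg_mul, Complex.neg_im]
      unfold ze
      rcases fin4 k with rfl | rfl | rfl | rfl <;> linarith) y hy
    rw [map_neg, neg_mul, Complex.neg_im] at this
    unfold ze at this ⊢; linarith

theorem int_box (h : Ccw P) (T : ℤ × ℤ) (z : ℂ) (hz : z ∈ interior (tile P T)) :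
    SBox P (loc P T z) := by
  obtain ⟨x1, x2, x3⟩ := xi_facts h
  obtain ⟨z1, z2, z3⟩ := ze_facts h
  have hw1 : P 1 - P 3 ≠ 0 := by
    intro h0
    simp only [xi, h0, map_zero, zero_mul, Complex.zero_im, lt_irrefl] at x1
  have hw2 : P 0 - P 2 ≠ 0 := by
    intro h0
    simp only [ze, h0, map_zero, zero_mul, Complex.zero_im, lt_irrefl] at z1
  unfold xi at x1 x2 x3
  unfold ze at z1 z2 z3
  refine ⟨?_, ?_, ?_, ?_⟩
  · have := interior_loc_pos P T (P 1 - P 3) hw1 (-(xi P (P 0))) (fun k => by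
      unfold xi
      rcases fin4 k with rfl | rfl | rfl | rfl <;> linarith) z hz
    unfold xi at this ⊢; linarith
  · have := interior_loc_pos P T (-(P 1 - P 3)) (neg_ne_zero.mpr hw1) (xi P (P 2)) (fun k => by
      rw [map_neg, neg_mul, Complex.neg_im]
      unfold xi
      rcases fin4 k with rfl | rfl | rfl | rfl <;> linarith) z hz
    rw [map_neg, neg_mul, Complex.neg_im] at this
    unfold xi at this ⊢; linarith
  · have := interior_loc_pos P T (P 0 - P 2) hw2 (-(ze P (P 3))) (fun k => by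
      unfold ze
      rcases fin4 k with rfl | rfl | rfl | rfl <;> linarith) z hz
    unfold ze at this ⊢; linarith
  · have := interior_loc_pos P T (-(P 0 - P 2)) (neg_ne_zero.mpr hw2) (ze P (P 1)) (fun k => by
      rw [map_neg, neg_mul, Complex.neg_im]
      unfold ze
      rcases fin4 k with rfl | rfl | rfl | rfl <;> linarith) z hz
    rw [map_neg, neg_mul, Complex.neg_im] at this
    unfold ze at this ⊢; linarith

theorem same_tile (h : Ccw P) (T T' : ℤ × ℤ) (hee : ee T = ee T') (z : ℂ)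
    (h1 : SBox P (loc P T z)) (h2 : WBox P (loc P T' z)) : T = T' := by
  obtain ⟨x1, x2, x3⟩ := xi_facts h
  obtain ⟨z1, z2, z3⟩ := ze_facts h
  have hs : sT T' = sT T := by unfold sT; rw [hee]
  have hdiff : tT P T - tT P T' =
      ((pp T - pp T' : ℤ) : ℂ) * (P 2 - P 0) + ((qq T - qq T' : ℤ) : ℂ) * (P 1 - P 3) := by
    unfold tT Vx
    rw [hee]
    split_ifs <;> (push_cast; ring)
  have hloc : loc P T' z = loc P T z + (sT T : ℂ) * (((pp T - pp T' : ℤ) : ℂ) * (P 2 - P 0) +
      ((qq T - qq T' : ℤ) : ℂ) * (P 1 - P 3)) := by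
    rw [← hdiff]; unfold loc; rw [hs]; ring
  have hxi : xi P (loc P T' z) = xi P (loc P T z) +
      sT T * (pp T - pp T' : ℤ) * (xi P (P 2) - xi P (P 0)) := by
    rw [hloc]
    generalize (pp T - pp T') = m
    generalize (qq T - qq T') = n
    simp only [xi, Complex.conj_re, Complex.conj_im, Complex.add_re, Complex.add_im, Complex.mul_re,
      Complex.mul_im, Complex.ofReal_re, Complex.ofReal_im, Complex.intCast_re, Complex.intCast_im,
      Complex.sub_re, Complex.sub_im]
    ring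
  have hze : ze P (loc P T' z) = ze P (loc P T z) +
      sT T * (qq T - qq T' : ℤ) * (ze P (P 1) - ze P (P 3)) := by
    rw [hloc]
    generalize (pp T - pp T') = m
    generalize (qq T - qq T') = n
    simp only [ze, Complex.conj_re, Complex.conj_im, Complex.add_re, Complex.add_im, Complex.mul_re,
      Complex.mul_im, Complex.ofReal_re, Complex.ofReal_im, Complex.intCast_re, Complex.intCast_im,
      Complex.sub_re, Complex.sub_im]
    ring
  obtain ⟨a1, a2, a3, a4⟩ := h1
  obtain ⟨b1, b2, b3, b4⟩ := h2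
  have key : ∀ (m : ℤ) (W : ℝ), 0 < W → -W < sT T * m * W → sT T * m * W < W → m = 0 := by
    intro m W hW h3 h4
    have hsT : sT T = 1 ∨ sT T = -1 := by unfold sT; split_ifs <;> simp
    rcases hsT with e | e
    · rw [e] at h3 h4
      have h5 : (m : ℝ) < 1 := by nlinarith
      have h6 : (-1 : ℝ) < m := by nlinarith
      have h7 : m < 1 := by exact_mod_cast h5
      have h8 : -1 < m := by exact_mod_cast h6
      omega
    · rw [e] at h3 h4
      have h5 : (m : ℝ) < 1 := by nlinarith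
      have h6 : (-1 : ℝ) < m := by nlinarith
      have h7 : m < 1 := by exact_mod_cast h5
      have h8 : -1 < m := by exact_mod_cast h6
      omega
  have hp := key (pp T - pp T') (xi P (P 2) - xi P (P 0)) (by linarith) (by linarith) (by linarith)
  have hq := key (qq T - qq T') (ze P (P 1) - ze P (P 3)) (by linarith) (by linarith) (by linarith)
  obtain ⟨i, j⟩ := T
  obtain ⟨i', j'⟩ := T'
  simp only [ee, pp, qq] at hee hp hq
  ext <;> simp only <;> omega

theorem open_edge_box (h : Ccw P) (k : Fin 4) (y : ℂ) (hy : y ∈ openSegment ℝ (P k) (P (k + 1))) :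
    SBox P y := by
  obtain ⟨s, t, hs, ht, hst, rfl⟩ := hy
  obtain ⟨x1, x2, x3⟩ := xi_facts h
  obtain ⟨z1, z2, z3⟩ := ze_facts h
  have e1 : ∀ x z, xi P (s • x + t • z) = s * xi P x + t * xi P z := fun x z => cim_comb _ _ _ _ _
  have e2 : ∀ x z, ze P (s • x + t • z) = s * ze P x + t * ze P z := fun x z => cim_comb _ _ _ _ _
  have hs1 : s = 1 - t := by linarith
  unfold SBox
  rw [e1, e2, hs1]
  rw [hs1] at hs
  rcases fin4 k with rfl | rfl | rfl | rfl
  · show _ < (1 - t) * xi P (P 0) + t * xi P (P 1) ∧ (1 - t) * xi P (P 0) + t * xi P (P 1) < _ ∧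
      _ < (1 - t) * ze P (P 0) + t * ze P (P 1) ∧ (1 - t) * ze P (P 0) + t * ze P (P 1) < _
    refine ⟨by nlinarith, by nlinarith, by nlinarith, by nlinarith⟩
  · show _ < (1 - t) * xi P (P 1) + t * xi P (P 2) ∧ (1 - t) * xi P (P 1) + t * xi P (P 2) < _ ∧
      _ < (1 - t) * ze P (P 1) + t * ze P (P 2) ∧ (1 - t) * ze P (P 1) + t * ze P (P 2) < _
    refine ⟨by nlinarith, by nlinarith, by nlinarith, by nlinarith⟩
  · show _ < (1 - t) * xi P (P 2) + t * xi P (P 3) ∧ (1 - t) * xi P (P 2) + t * xi P (P 3) < _ ∧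
      _ < (1 - t) * ze P (P 2) + t * ze P (P 3) ∧ (1 - t) * ze P (P 2) + t * ze P (P 3) < _
    refine ⟨by nlinarith, by nlinarith, by nlinarith, by nlinarith⟩
  · show _ < (1 - t) * xi P (P 3) + t * xi P (P 0) ∧ (1 - t) * xi P (P 3) + t * xi P (P 0) < _ ∧
      _ < (1 - t) * ze P (P 3) + t * ze P (P 0) ∧ (1 - t) * ze P (P 3) + t * ze P (P 0) < _
    refine ⟨by nlinarith, by nlinarith, by nlinarith, by nlinarith⟩

/-- edge functional -/
noncomputable def eg (P : Fin 4 → ℂ) (k : Fin 4) (y : ℂ) : ℝ :=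
  (conj (P (k + 1) - P k) * y).im + -(conj (P (k + 1) - P k) * P k).im

theorem eg_comb (k : Fin 4) (x z : ℂ) (s t : ℝ) (hst : s + t = 1) :
    eg P k (s • x + t • z) = s * eg P k x + t * eg P k z := by
  unfold eg
  rw [cim_comb]
  linear_combination (conj (P (k + 1) - P k) * P k).im * hst

theorem eg_self (k : Fin 4) : eg P k (P k) = 0 := by unfold eg; ring

theorem eg_succ (k : Fin 4) : eg P k (P (k + 1)) = 0 := by
  unfold eg; simp only [cim, Complex.sub_re, Complex.sub_im]; ring

theorem eg_two (h : Ccw P) (k : Fin 4) : 0 < eg P k (P (k + 2)) := by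
  obtain ⟨c0, c1, c2, c3⟩ := h
  simp only [cim, Complex.sub_re, Complex.sub_im] at c0 c1 c2 c3
  unfold eg
  rcases fin4 k with rfl | rfl | rfl | rfl
  · show 0 < (conj (P 1 - P 0) * P 2).im + -(conj (P 1 - P 0) * P 0).im
    simp only [cim, Complex.sub_re, Complex.sub_im]; nlinarith
  · show 0 < (conj (P 2 - P 1) * P 3).im + -(conj (P 2 - P 1) * P 1).im
    simp only [cim, Complex.sub_re, Complex.sub_im]; nlinarith
  · show 0 < (conj (P 3 - P 2) * P 0).im + -(conj (P 3 - P 2) * P 2).im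
    simp only [cim, Complex.sub_re, Complex.sub_im]; nlinarith
  · show 0 < (conj (P 0 - P 3) * P 1).im + -(conj (P 0 - P 3) * P 3).im
    simp only [cim, Complex.sub_re, Complex.sub_im]; nlinarith

theorem eg_three (h : Ccw P) (k : Fin 4) : 0 < eg P k (P (k + 3)) := by
  obtain ⟨c0, c1, c2, c3⟩ := h
  simp only [cim, Complex.sub_re, Complex.sub_im] at c0 c1 c2 c3
  unfold eg
  rcases fin4 k with rfl | rfl | rfl | rfl
  · show 0 < (conj (P 1 - P 0) * P 3).im + -(conj (P 1 - P 0) * P 0).im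
    simp only [cim, Complex.sub_re, Complex.sub_im]; nlinarith
  · show 0 < (conj (P 2 - P 1) * P 0).im + -(conj (P 2 - P 1) * P 1).im
    simp only [cim, Complex.sub_re, Complex.sub_im]; nlinarith
  · show 0 < (conj (P 3 - P 2) * P 1).im + -(conj (P 3 - P 2) * P 2).im
    simp only [cim, Complex.sub_re, Complex.sub_im]; nlinarith
  · show 0 < (conj (P 0 - P 3) * P 2).im + -(conj (P 0 - P 3) * P 3).im
    simp only [cim, Complex.sub_re, Complex.sub_im]; nlinarith

theorem fin4_rel (k l : Fin 4) : l = k ∨ l = k + 1 ∨ l = k + 2 ∨ l = k + 3 := by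
  revert k l; decide

theorem eg_nonneg (h : Ccw P) (k l : Fin 4) : 0 ≤ eg P k (P l) := by
  rcases fin4_rel k l with rfl | rfl | rfl | rfl
  · rw [eg_self]
  · rw [eg_succ]
  · exact (eg_two h k).le
  · exact (eg_three h k).le

theorem edge_ne (h : Ccw P) (k : Fin 4) : P (k + 1) - P k ≠ 0 := by
  intro h0
  have := eg_two h k
  unfold eg at this
  rw [h0] at this
  simp at this

theorem loc_comb (T : ℤ × ℤ) (x z : ℂ) (s t : ℝ) (hst : s + t = 1) :
    loc P T (s • x + t • z) = s • loc P T x + t • loc P T z := by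
  unfold loc
  simp only [Complex.real_smul]
  have : (s : ℂ) + t = 1 := by exact_mod_cast hst
  linear_combination (-(sT T : ℂ) * tT P T) * (1 - this) + (sT T : ℂ) * tT P T

/-- a point of an open edge lies only in closed tiles having this edge -/
theorem open_edge_tile (h : Ccw P) (T T' : ℤ × ℤ) (hee : ee T = ee T') (k : Fin 4) (z : ℂ)
    (hz : z ∈ openSegment ℝ (Vx P (cor T k)) (Vx P (cor T (k + 1)))) (hz' : z ∈ tile P T') :
    T = T' := by
  refine same_tile h T T' hee z (open_edge_box h k _ ?_) (hull_box h _ ((mem_tile P T' z).mp hz'))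
  obtain ⟨s, t, hs, ht, hst, rfl⟩ := hz
  exact ⟨s, t, hs, ht, hst, by rw [loc_comb _ _ _ _ _ hst, loc_cor, loc_cor]⟩

/-- an interior point of a tile is not on an edge -/
theorem interior_not_edge (h : Ccw P) (T T' : ℤ × ℤ) (hee : ee T = ee T') (k : Fin 4) (z : ℂ)
    (hz : z ∈ segment ℝ (Vx P (cor T k)) (Vx P (cor T (k + 1)))) (hz' : z ∈ interior (tile P T')) :
    False := by
  obtain ⟨s, t, hs, ht, hst, rfl⟩ := hz
  have e : loc P T (s • Vx P (cor T k) + t • Vx P (cor T (k + 1))) = s • P k + t • P (k + 1) := by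
    rw [loc_comb _ _ _ _ _ hst, loc_cor, loc_cor]
  have hmem : s • P k + t • P (k + 1) ∈ Qd P := by
    have hP : ∀ l, P l ∈ Qd P := by
      intro l
      apply subset_convexHull
      rcases fin4 l with rfl | rfl | rfl | rfl <;> simp
    exact (convex_convexHull ℝ _) (hP k) (hP (k + 1)) hs ht hst
  have hTT : T' = T := same_tile h T' T hee.symm _ (int_box h T' _ hz') (by
    rw [e]; exact hull_box h _ hmem)
  subst hTT
  have := interior_loc_pos P T' (P (k + 1) - P k) (edge_ne h k)
    (-(conj (P (k + 1) - P k) * P k).im) (fun l => eg_nonneg h k l) _ hz'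
  rw [e] at this
  have h2 := eg_comb (P := P) k (P k) (P (k + 1)) s t hst
  rw [eg_self, eg_succ, mul_zero, mul_zero, add_zero] at h2
  unfold eg at h2
  linarith

/-- distinct edges of a tile have disjoint open/closed parts -/
theorem edges_eq (h : Ccw P) (k l : Fin 4) (y : ℂ) (hy : y ∈ openSegment ℝ (P l) (P (l + 1)))
    (hy' : y ∈ segment ℝ (P k) (P (k + 1))) : k = l := by
  obtain ⟨s, t, hs, ht, hst, rfl⟩ := hy
  have h0 : eg P k (s • P l + t • P (l + 1)) = 0 := by
    obtain ⟨s', t', _, _, hst', e⟩ := hy'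
    rw [← e, eg_comb k _ _ s' t' hst', eg_self, eg_succ]; ring
  rw [eg_comb k _ _ s t hst] at h0
  have n1 := eg_nonneg h k l
  have n2 := eg_nonneg h k (l + 1)
  have m1 : s * eg P k (P l) = 0 := by
    have := mul_nonneg hs.le n1
    have := mul_nonneg ht.le n2
    linarith
  have m2 : t * eg P k (P (l + 1)) = 0 := by linarith
  have z1 : eg P k (P l) = 0 := (mul_eq_zero.mp m1).resolve_left hs.ne'
  have z2 : eg P k (P (l + 1)) = 0 := (mul_eq_zero.mp m2).resolve_left ht.ne'
  have p2 := eg_two h k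
  have p3 := eg_three h k
  have d1 : l ≠ k + 2 := by rintro rfl; linarith
  have d2 : l ≠ k + 3 := by rintro rfl; linarith
  have d3 : l + 1 ≠ k + 2 := by intro hh; rw [hh] at z2; linarith
  have d4 : l + 1 ≠ k + 3 := by intro hh; rw [hh] at z2; linarith
  revert d1 d2 d3 d4
  clear * -
  revert k l
  decide

end Pool.Agent.W535.TB
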