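import Pool.Agent.W535.TB.Arc

set_option autoImplicit false

namespace Pool.Agent.W535.TB

open scoped BigOperators
open Set ComplexConjugate

variable {P : Fin 4 → ℂ} {c : ℂ} {r θ : ℝ} {a : Fin 4 → ℝ}

theorem cor_mem_tile (T : ℤ × ℤ) (k : Fin 4) : Vx P (cor T k) ∈ tile P T := by
  rw [mem_tile, loc_cor]
  apply subset_convexHull
  rcases fin4 k with rfl | rfl | rfl | rfl <;> simp

theorem tile_convex (T : ℤ × ℤ) : Convex ℝ (tile P T) := by
  intro x hx y hy s t hs ht hst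
  rw [mem_tile] at hx hy ⊢
  rw [loc_comb _ _ _ _ _ hst]
  exact (convex_convexHull ℝ _) hx hy hs ht hst

/-- a closed tile containing a point of an open edge has this edge -/
theorem edge_share (h : Ccw P) (S T' : ℤ × ℤ) (l : Fin 4) (z : ℂ)
    (hz : z ∈ openSegment ℝ (Vx P (cor S l)) (Vx P (cor S (l + 1)))) (hz' : z ∈ tile P T') :
    (cor T' l = cor S l ∧ cor T' (l + 1) = cor S (l + 1)) ∨
      (cor T' l = cor S (l + 1) ∧ cor T' (l + 1) = cor S l) := by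
  obtain ⟨T'', h1, h2⟩ := edge_tile (ee T') (ee_cases T') (cor S l) l
  rw [nb_cor] at h2
  have hmem : z ∈ openSegment ℝ (Vx P (cor T'' l)) (Vx P (cor T'' (l + 1))) := by
    rcases h2 with ⟨e1, e2⟩ | ⟨e1, e2⟩
    · rw [e1, e2]; exact hz
    · rw [e1, e2, openSegment_symm]; exact hz
  have := open_edge_tile h T'' T' h1 l z hmem hz'
  subst this
  exact h2

theorem im_mul_zero (M x y : ℂ) (hM : M ≠ 0) (h1 : (M * x).im = 0) (h2 : (M * y).im = 0) :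
    (conj x * y).im = 0 := by
  have h3 : (conj (M * x) * (M * y)).im = 0 := by
    rw [cim, h1, h2]; ring
  have h4 : conj (M * x) * (M * y) = ((‖M‖ ^ 2 : ℝ) : ℂ) * (conj x * y) := by
    have e2 : conj M * M = ((‖M‖ ^ 2 : ℝ) : ℂ) := by
      rw [← Complex.normSq_eq_conj_mul_self, Complex.normSq_eq_norm_sq]
    rw [map_mul]
    linear_combination (conj x * y) * e2
  rw [h4, Complex.im_ofReal_mul] at h3
  have h5 : (‖M‖ ^ 2 : ℝ) ≠ 0 := by
    have := norm_pos_iff.mpr hM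
    positivity
  exact (mul_eq_zero.mp h3).resolve_left h5

/-- the trajectory, in terms of tiles -/
structure Traj (P : Fin 4 → ℂ) where
  p : ℕ → ℂ
  T : ℕ → ℤ × ℤ
  S : ℕ → ℤ × ℤ
  l : ℕ → Fin 4
  lam : ℕ → ℝ
  hT : ∀ i, openSegment ℝ (p i) (p (i + 1)) ⊆ interior (tile P (T i))
  hS : ∀ i, p (i + 1) ∈ openSegment ℝ (Vx P (cor (S i) (l i))) (Vx P (cor (S i) (l i + 1)))
  hlam : ∀ i, 0 < lam i
  hrefr : ∀ i, (p (i + 2) - p (i + 1)) * conj (P (l i + 1) - P (l i)) =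
    (lam i : ℂ) * (-((P (l i + 1) - P (l i)) * conj (p (i + 1) - p i)))

namespace Traj

variable (τ : Traj P)

theorem seg_sub (i : ℕ) : segment ℝ (τ.p i) (τ.p (i + 1)) ⊆ tile P (τ.T i) := by
  refine (segment_subset_closure_openSegment).trans ?_
  refine (closure_mono ((τ.hT i).trans interior_subset)).trans ?_
  rw [(tile_closed P (τ.T i)).closure_eq]

theorem mem_left (i : ℕ) : τ.p i ∈ tile P (τ.T i) := τ.seg_sub i (left_mem_segment ℝ _ _)
theorem mem_right (i : ℕ) : τ.p (i + 1) ∈ tile P (τ.T i) := τ.seg_sub i (right_mem_segment ℝ _ _)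

theorem mid_mem (i : ℕ) : (1 / 2 : ℝ) • τ.p i + (1 / 2 : ℝ) • τ.p (i + 1) ∈
    interior (tile P (τ.T i)) :=
  τ.hT i ⟨1 / 2, 1 / 2, by norm_num, by norm_num, by norm_num, rfl⟩

/-- the tile `T i` has the crossed edge -/
theorem share (h : Ccw P) (i : ℕ) :
    (cor (τ.T i) (τ.l i) = cor (τ.S i) (τ.l i) ∧ cor (τ.T i) (τ.l i + 1) = cor (τ.S i) (τ.l i + 1)) ∨
      (cor (τ.T i) (τ.l i) = cor (τ.S i) (τ.l i + 1) ∧
        cor (τ.T i) (τ.l i + 1) = cor (τ.S i) (τ.l i)) :=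
  edge_share h _ _ _ _ (τ.hS i) (τ.mem_right i)

theorem share' (h : Ccw P) (i : ℕ) :
    (cor (τ.T (i + 1)) (τ.l i) = cor (τ.S i) (τ.l i) ∧
      cor (τ.T (i + 1)) (τ.l i + 1) = cor (τ.S i) (τ.l i + 1)) ∨
      (cor (τ.T (i + 1)) (τ.l i) = cor (τ.S i) (τ.l i + 1) ∧
        cor (τ.T (i + 1)) (τ.l i + 1) = cor (τ.S i) (τ.l i)) :=
  edge_share h _ _ _ _ (τ.hS i) (τ.mem_left (i + 1))

theorem mem_edge (h : Ccw P) (i : ℕ) : τ.p (i + 1) ∈
    openSegment ℝ (Vx P (cor (τ.T i) (τ.l i))) (Vx P (cor (τ.T i) (τ.l i + 1))) := by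
  rcases τ.share h i with ⟨e1, e2⟩ | ⟨e1, e2⟩
  · rw [e1, e2]; exact τ.hS i
  · rw [e1, e2, openSegment_symm]; exact τ.hS i

/-- edge functional of `T i` -/
noncomputable def E (i : ℕ) (z : ℂ) : ℝ := eg P (τ.l i) (loc P (τ.T i) z)

theorem E_comb (i : ℕ) (x z : ℂ) (s t : ℝ) (hst : s + t = 1) :
    τ.E i (s • x + t • z) = s * τ.E i x + t * τ.E i z := by
  unfold E
  rw [loc_comb _ _ _ _ _ hst, eg_comb _ _ _ _ _ hst]

theorem E_zero (h : Ccw P) (i : ℕ) : τ.E i (τ.p (i + 1)) = 0 := by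
  obtain ⟨s, t, hs, ht, hst, e⟩ := τ.mem_edge h i
  rw [← e, E_comb _ _ _ _ _ _ hst]
  unfold E
  rw [loc_cor, loc_cor, eg_self, eg_succ]; ring

theorem E_pos_int (h : Ccw P) (i : ℕ) (z : ℂ) (hz : z ∈ interior (tile P (τ.T i))) :
    0 < τ.E i z :=
  interior_loc_pos P (τ.T i) _ (edge_ne h _) _ (fun l => eg_nonneg h _ l) z hz

theorem E_pos (h : Ccw P) (i : ℕ) : 0 < τ.E i (τ.p i) := by
  have h1 := τ.E_pos_int h i _ (τ.mid_mem i)
  rw [E_comb _ _ _ _ _ _ (by norm_num), τ.E_zero h i] at h1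
  linarith

theorem E_sub (i : ℕ) (x z : ℂ) :
    τ.E i x - τ.E i z = sT (τ.T i) * (conj (P (τ.l i + 1) - P (τ.l i)) * (x - z)).im := by
  unfold E eg
  have e : conj (P (τ.l i + 1) - P (τ.l i)) * loc P (τ.T i) x -
      conj (P (τ.l i + 1) - P (τ.l i)) * loc P (τ.T i) z =
      (sT (τ.T i) : ℂ) * (conj (P (τ.l i + 1) - P (τ.l i)) * (x - z)) := by
    unfold loc; ring
  have e2 := congrArg Complex.im e
  rw [Complex.sub_im, Complex.im_ofReal_mul] at e2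
  linarith

theorem parity (h : Ccw P) (i : ℕ) : ee (τ.T (i + 1)) ≠ ee (τ.T i) := by
  intro hee
  have h1 : τ.T i = τ.T (i + 1) :=
    open_edge_tile h _ _ hee.symm _ _ (τ.mem_edge h i) (τ.mem_left (i + 1))
  have h2 : 0 < τ.E i (τ.p (i + 2)) := by
    have h3 := τ.mid_mem (i + 1)
    rw [← h1] at h3
    have h4 := τ.E_pos_int h i _ h3
    rw [E_comb _ _ _ _ _ _ (by norm_num), τ.E_zero h i] at h4
    have : τ.p (i + 1 + 1) = τ.p (i + 2) := rfl
    rw [this] at h4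
    linarith
  have h5 := τ.E_sub i (τ.p (i + 2)) (τ.p (i + 1))
  have h6 := τ.E_sub i (τ.p (i + 1)) (τ.p i)
  have h7 : (conj (P (τ.l i + 1) - P (τ.l i)) * (τ.p (i + 2) - τ.p (i + 1))).im =
      τ.lam i * (conj (P (τ.l i + 1) - P (τ.l i)) * (τ.p (i + 1) - τ.p i)).im := by
    have h8 := congrArg Complex.im (τ.hrefr i)
    rw [mul_comm (τ.p (i + 2) - τ.p (i + 1)) _, Complex.im_ofReal_mul] at h8
    rw [h8]
    congr 1
    simp only [Complex.neg_im, Complex.mul_im, Complex.conj_re, Complex.conj_im]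
    ring
  rw [h7] at h5
  have h9 : τ.E i (τ.p (i + 2)) = -(τ.lam i * τ.E i (τ.p i)) := by
    have e0 := τ.E_zero h i
    rw [e0] at h5 h6
    have : sT (τ.T i) * (τ.lam i * (conj (P (τ.l i + 1) - P (τ.l i)) * (τ.p (i + 1) - τ.p i)).im) =
        τ.lam i * (sT (τ.T i) * (conj (P (τ.l i + 1) - P (τ.l i)) * (τ.p (i + 1) - τ.p i)).im) := by
      ring
    rw [this, ← h6] at h5
    linarith
  have h10 := mul_pos (τ.hlam i) (τ.E_pos h i)
  linarith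

theorem sub_ne (h : Ccw P) (i : ℕ) : τ.p (i + 1) - τ.p i ≠ 0 := by
  intro h0
  have h1 := τ.E_sub i (τ.p (i + 1)) (τ.p i)
  rw [h0, mul_zero, Complex.zero_im, mul_zero, τ.E_zero h i] at h1
  have := τ.E_pos h i
  linarith

/-- the folded endpoints -/
noncomputable def F (c : ℂ) (r θ : ℝ) (a : Fin 4 → ℝ) (i : ℕ) (z : ℂ) : ℂ := fold P c r θ a (τ.T i) z

theorem F_w (h : Ccw P) (hr : 0 < r) (hs : a 0 + a 1 + a 2 + a 3 = 1)
    (hP : ∀ k, P k = c + r * U (θ + ss a k)) (i : ℕ) :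
    τ.F c r θ a i (Vx P (cor (τ.S i) (τ.l i))) = U (θ + th a (cor (τ.S i) (τ.l i))) ∧
    τ.F c r θ a i (Vx P (cor (τ.S i) (τ.l i + 1))) = U (θ + th a (cor (τ.S i) (τ.l i + 1))) := by
  rcases τ.share h i with ⟨e1, e2⟩ | ⟨e1, e2⟩
  · rw [← e1, ← e2]; exact ⟨fold_cor hr hs hP _ _, fold_cor hr hs hP _ _⟩
  · rw [← e1, ← e2]; exact ⟨fold_cor hr hs hP _ _, fold_cor hr hs hP _ _⟩

theorem F_w' (h : Ccw P) (hr : 0 < r) (hs : a 0 + a 1 + a 2 + a 3 = 1)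
    (hP : ∀ k, P k = c + r * U (θ + ss a k)) (i : ℕ) :
    τ.F c r θ a (i + 1) (Vx P (cor (τ.S i) (τ.l i))) = U (θ + th a (cor (τ.S i) (τ.l i))) ∧
    τ.F c r θ a (i + 1) (Vx P (cor (τ.S i) (τ.l i + 1))) =
      U (θ + th a (cor (τ.S i) (τ.l i + 1))) := by
  rcases τ.share' h i with ⟨e1, e2⟩ | ⟨e1, e2⟩
  · rw [← e1, ← e2]; exact ⟨fold_cor hr hs hP _ _, fold_cor hr hs hP _ _⟩
  · rw [← e1, ← e2]; exact ⟨fold_cor hr hs hP _ _, fold_cor hr hs hP _ _⟩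

theorem F_succ (h : Ccw P) (hr : 0 < r) (hs : a 0 + a 1 + a 2 + a 3 = 1)
    (hP : ∀ k, P k = c + r * U (θ + ss a k)) (i : ℕ) :
    τ.F c r θ a (i + 1) (τ.p (i + 1)) = τ.F c r θ a i (τ.p (i + 1)) := by
  obtain ⟨s, t, hs', ht, hst, e⟩ := τ.hS i
  obtain ⟨g1, g2⟩ := τ.F_w h hr hs hP i
  obtain ⟨g3, g4⟩ := τ.F_w' h hr hs hP i
  rw [← e]
  unfold F at g1 g2 g3 g4 ⊢
  rw [fold_comb _ _ _ _ _ hst, fold_comb _ _ _ _ _ hst, g1, g2, g3, g4]

theorem V_sub (S : ℤ × ℤ) (l : Fin 4) :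
    Vx P (cor S (l + 1)) - Vx P (cor S l) = (sT S : ℂ) * (P (l + 1) - P l) := by
  rw [V_cor, V_cor]; ring

theorem F_step (h : Ccw P) (hr : 0 < r) (hs : a 0 + a 1 + a 2 + a 3 = 1)
    (hP : ∀ k, P k = c + r * U (θ + ss a k)) (i : ℕ) :
    τ.F c r θ a (i + 1) (τ.p (i + 2)) - τ.F c r θ a (i + 1) (τ.p (i + 1)) =
      -(τ.lam i : ℂ) * (τ.F c r θ a i (τ.p (i + 1)) - τ.F c r θ a i (τ.p i)) := by
  obtain ⟨g1, g2⟩ := τ.F_w h hr hs hP i
  obtain ⟨g3, g4⟩ := τ.F_w' h hr hs hP i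
  have hsS : (sT (τ.S i) : ℂ) ≠ 0 := by
    intro h0
    have := sT_sq (τ.S i)
    rw [h0] at this; simp at this
  have hne : Vx P (cor (τ.S i) (τ.l i + 1)) - Vx P (cor (τ.S i) (τ.l i)) ≠ 0 := by
    rw [V_sub]; exact mul_ne_zero hsS (edge_ne h _)
  have hl : (τ.p (i + 2) - τ.p (i + 1)) *
      conj (Vx P (cor (τ.S i) (τ.l i + 1)) - Vx P (cor (τ.S i) (τ.l i))) =
      (τ.lam i : ℂ) * (-((Vx P (cor (τ.S i) (τ.l i + 1)) - Vx P (cor (τ.S i) (τ.l i))) *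
        conj (τ.p (i + 1) - τ.p i))) := by
    rw [V_sub, map_mul, Complex.conj_ofReal]
    linear_combination (sT (τ.S i) : ℂ) * τ.hrefr i
  by_cases hp : ee (τ.T i) = 0
  · have hp' : ¬ ee (τ.T (i + 1)) = 0 := fun h0 => τ.parity h i (by rw [h0, hp])
    exact refr1 (τ.F c r θ a i) (τ.F c r θ a (i + 1)) _ _ _ _ _ _ _ _ (fold_even _ hp)
      (fold_odd _ hp') (g1.trans g3.symm) (g2.trans g4.symm) hne hl
  · have hp' : ee (τ.T (i + 1)) = 0 := by
      rcases ee_cases (τ.T (i + 1)) with h1 | h1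
      · exact h1
      · exfalso
        rcases ee_cases (τ.T i) with h2 | h2
        · exact hp h2
        · exact τ.parity h i (by rw [h1, h2])
    exact refr2 (τ.F c r θ a i) (τ.F c r θ a (i + 1)) _ _ _ _ _ _ _ _ (fold_odd _ hp)
      (fold_even _ hp') (g1.trans g3.symm) (g2.trans g4.symm) hne hl

/-- the direction of the folded line -/
noncomputable def N (c : ℂ) (r θ : ℝ) (a : Fin 4 → ℝ) : ℂ :=
  τ.F c r θ a 0 (τ.p 1) - τ.F c r θ a 0 (τ.p 0)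

/-- height above the folded line -/
noncomputable def H (c : ℂ) (r θ : ℝ) (a : Fin 4 → ℝ) (w : ℂ) : ℝ :=
  (conj (τ.N c r θ a) * (w - τ.F c r θ a 0 (τ.p 0))).im

theorem H_zero (h : Ccw P) (hr : 0 < r) (hs : a 0 + a 1 + a 2 + a 3 = 1)
    (hP : ∀ k, P k = c + r * U (θ + ss a k)) (i : ℕ) :
    τ.H c r θ a (τ.F c r θ a i (τ.p i)) = 0 ∧ τ.H c r θ a (τ.F c r θ a i (τ.p (i + 1))) = 0 := by
  induction i with
  | zero =>
    refine ⟨by simp [H], ?_⟩
    unfold H N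
    rw [zero_add, cim]; ring
  | succ i ih =>
    obtain ⟨h1, h2⟩ := ih
    have e1 := τ.F_succ h hr hs hP i
    refine ⟨by rw [e1]; exact h2, ?_⟩
    have e2 := τ.F_step h hr hs hP i
    have e3 : τ.F c r θ a (i + 1) (τ.p (i + 1 + 1)) - τ.F c r θ a 0 (τ.p 0) =
        (τ.F c r θ a i (τ.p (i + 1)) - τ.F c r θ a 0 (τ.p 0)) +
        ((-(τ.lam i) : ℝ) : ℂ) * ((τ.F c r θ a i (τ.p (i + 1)) - τ.F c r θ a 0 (τ.p 0)) -
          (τ.F c r θ a i (τ.p i) - τ.F c r θ a 0 (τ.p 0))) := by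
      have : τ.p (i + 1 + 1) = τ.p (i + 2) := rfl
      rw [this]
      rw [e1] at e2
      push_cast
      linear_combination e2
    unfold H at h1 h2 ⊢
    rw [e3]
    have e4 : conj (τ.N c r θ a) * ((τ.F c r θ a i (τ.p (i + 1)) - τ.F c r θ a 0 (τ.p 0)) +
        ((-(τ.lam i) : ℝ) : ℂ) * ((τ.F c r θ a i (τ.p (i + 1)) - τ.F c r θ a 0 (τ.p 0)) -
          (τ.F c r θ a i (τ.p i) - τ.F c r θ a 0 (τ.p 0)))) =
        conj (τ.N c r θ a) * (τ.F c r θ a i (τ.p (i + 1)) - τ.F c r θ a 0 (τ.p 0)) +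
        ((-(τ.lam i) : ℝ) : ℂ) * (conj (τ.N c r θ a) * (τ.F c r θ a i (τ.p (i + 1)) - τ.F c r θ a 0 (τ.p 0)) -
          conj (τ.N c r θ a) * (τ.F c r θ a i (τ.p i) - τ.F c r θ a 0 (τ.p 0))) := by ring
    rw [e4, Complex.add_im, Complex.im_ofReal_mul, Complex.sub_im, h1, h2]
    ring

theorem fold_coef_ne (hr : 0 < r) (x : ℝ) (T : ℤ × ℤ) : U x * (sT T : ℂ) / r ≠ 0 := by
  have hr' : (r : ℂ) ≠ 0 := by exact_mod_cast hr.ne'
  have hs : (sT T : ℂ) ≠ 0 := by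
    intro h0
    have := sT_sq T
    rw [h0] at this; simp at this
  exact div_ne_zero (mul_ne_zero (U_ne_zero x) hs) hr'

theorem N_ne (h : Ccw P) (hr : 0 < r) : τ.N c r θ a ≠ 0 := by
  unfold N F
  have h1 := τ.sub_ne h 0
  rw [zero_add] at h1
  by_cases hp : ee (τ.T 0) = 0
  · rw [fold_even _ hp]
    exact mul_ne_zero (fold_coef_ne hr _ _) h1
  · rw [fold_odd _ hp]
    exact mul_ne_zero (fold_coef_ne hr _ _) (by rw [Ne, map_eq_zero]; exact h1)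

/-- the endpoints of a crossed edge lie strictly on different sides -/
theorem cross_sign (h : Ccw P) (hr : 0 < r) (hs : a 0 + a 1 + a 2 + a 3 = 1)
    (hP : ∀ k, P k = c + r * U (θ + ss a k)) (i : ℕ) :
    (0 < τ.H c r θ a (U (θ + th a (cor (τ.S i) (τ.l i)))) ∧
      τ.H c r θ a (U (θ + th a (cor (τ.S i) (τ.l i + 1)))) < 0) ∨
    (τ.H c r θ a (U (θ + th a (cor (τ.S i) (τ.l i)))) < 0 ∧
      0 < τ.H c r θ a (U (θ + th a (cor (τ.S i) (τ.l i + 1))))) := by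
  obtain ⟨g1, g2⟩ := τ.F_w h hr hs hP i
  obtain ⟨z1, z2⟩ := τ.H_zero h hr hs hP i
  obtain ⟨s, t, hs', ht, hst, e⟩ := τ.hS i
  set x := U (θ + th a (cor (τ.S i) (τ.l i))) with hx
  set y := U (θ + th a (cor (τ.S i) (τ.l i + 1))) with hy
  have hcomb : τ.F c r θ a i (τ.p (i + 1)) = s • x + t • y := by
    rw [← e]
    unfold F at g1 g2 ⊢
    rw [fold_comb _ _ _ _ _ hst, g1, g2]
  have hH : s * τ.H c r θ a x + t * τ.H c r θ a y = 0 := by
    rw [hcomb] at z2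
    unfold H at z2 ⊢
    have e1 : s • x + t • y - τ.F c r θ a 0 (τ.p 0) =
        s • (x - τ.F c r θ a 0 (τ.p 0)) + t • (y - τ.F c r θ a 0 (τ.p 0)) := by
      have : (s : ℂ) + t = 1 := by exact_mod_cast hst
      simp only [Complex.real_smul]
      linear_combination (τ.F c r θ a 0 (τ.p 0)) * this
    rw [e1, cim_comb] at z2
    exact z2
  have hx0 : τ.H c r θ a x ≠ 0 := by
    intro h0
    have hy0 : τ.H c r θ a y = 0 := by
      rw [h0, mul_zero, zero_add] at hH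
      exact (mul_eq_zero.mp hH).resolve_left ht.ne'
    -- both directions are parallel to `N`
    have d1 : (conj (τ.N c r θ a) * (τ.F c r θ a i (Vx P (cor (τ.S i) (τ.l i + 1))) -
        τ.F c r θ a i (Vx P (cor (τ.S i) (τ.l i))))).im = 0 := by
      rw [g1, g2]
      have : conj (τ.N c r θ a) * (y - x) = conj (τ.N c r θ a) * (y - τ.F c r θ a 0 (τ.p 0)) -
        conj (τ.N c r θ a) * (x - τ.F c r θ a 0 (τ.p 0)) := by ring
      rw [this, Complex.sub_im]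
      unfold H at h0 hy0
      rw [h0, hy0, sub_zero]
    have d2 : (conj (τ.N c r θ a) * (τ.F c r θ a i (τ.p (i + 1)) - τ.F c r θ a i (τ.p i))).im = 0 := by
      have : conj (τ.N c r θ a) * (τ.F c r θ a i (τ.p (i + 1)) - τ.F c r θ a i (τ.p i)) =
        conj (τ.N c r θ a) * (τ.F c r θ a i (τ.p (i + 1)) - τ.F c r θ a 0 (τ.p 0)) -
        conj (τ.N c r θ a) * (τ.F c r θ a i (τ.p i) - τ.F c r θ a 0 (τ.p 0)) := by ring
      rw [this, Complex.sub_im]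
      unfold H at z1 z2
      rw [z1, z2, sub_zero]
    have hN : conj (τ.N c r θ a) ≠ 0 := by
      rw [Ne, map_eq_zero]; exact τ.N_ne h hr
    have d3 : (conj (Vx P (cor (τ.S i) (τ.l i + 1)) - Vx P (cor (τ.S i) (τ.l i))) *
        (τ.p (i + 1) - τ.p i)).im = 0 := by
      unfold F at d1 d2
      by_cases hp : ee (τ.T i) = 0
      · rw [fold_even _ hp, ← mul_assoc] at d1 d2
        exact im_mul_zero _ _ _ (mul_ne_zero hN (fold_coef_ne hr _ _)) d1 d2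
      · rw [fold_odd _ hp, ← mul_assoc] at d1 d2
        have := im_mul_zero _ _ _ (mul_ne_zero hN (fold_coef_ne hr _ _)) d1 d2
        rw [Complex.conj_conj] at this
        rw [cim]
        simp only [Complex.mul_im, Complex.conj_re, Complex.conj_im] at this
        linarith
    rw [V_sub, map_mul, Complex.conj_ofReal, mul_assoc, Complex.im_ofReal_mul] at d3
    have hsT : sT (τ.S i) ≠ 0 := by unfold sT; split_ifs <;> norm_num
    have d4 := (mul_eq_zero.mp d3).resolve_left hsT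
    have d5 := τ.E_sub i (τ.p (i + 1)) (τ.p i)
    rw [d4, mul_zero, τ.E_zero h i] at d5
    have := τ.E_pos h i
    linarith
  rcases lt_or_gt_of_ne hx0 with hlt | hgt
  · right
    refine ⟨hlt, ?_⟩
    by_contra hcon
    push Not at hcon
    have h1 := mul_neg_of_pos_of_neg hs' hlt
    have h2 : t * τ.H c r θ a y ≤ 0 := mul_nonpos_of_nonneg_of_nonpos ht.le hcon
    linarith
  · left
    refine ⟨hgt, ?_⟩
    by_contra hcon
    push Not at hcon
    have h1 := mul_pos hs' hgt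
    have h2 : 0 ≤ t * τ.H c r θ a y := mul_nonneg ht.le hcon
    linarith

end Traj

end Pool.Agent.W535.TB
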